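import Mathlib

/-! Project LS: no solutions below the threshold (helper12). -/

set_option autoImplicit false

namespace Pool.Agent.H12L.Few

open Finset Filter

/-- the pairs `(a, d)` with `|a|, |d| ≤ H` -/
noncomputable def sq (H : ℕ) : Finset (ℤ × ℤ) := Icc (-(H : ℤ)) H ×ˢ Icc (-(H : ℤ)) H

theorem sq_card (H : ℕ) : (sq H).card = (2 * H + 1) ^ 2 := by
  unfold sq
  rw [card_product, Int.card_Icc, pow_two]
  have : ((H : ℤ) + 1 - -(H : ℤ)).toNat = 2 * H + 1 := by omega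
  rw [this]

/-- few pairs have a given value -/
theorem fibre (H q : ℕ) (hq : 1 ≤ q) (hqH : q ≤ H) (v : ℤ) :
    (((sq H).filter (fun g => g.1 + (q : ℤ) * g.2 = v)).card : ℝ) ≤ 3 * H / q := by
  have hq0 : (0 : ℝ) < q := by exact_mod_cast hq
  have h1 : ((sq H).filter (fun g => g.1 + (q : ℤ) * g.2 = v)).card ≤
      (Icc (⌈((v : ℝ) - H) / q⌉) (⌊((v : ℝ) + H) / q⌋)).card := by
    apply card_le_card_of_injOn (fun g => g.2)
    · intro g hg
      rw [mem_coe, mem_filter] at hg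
      obtain ⟨hg1, hg2⟩ := hg
      unfold sq at hg1
      rw [mem_product, mem_Icc, mem_Icc] at hg1
      rw [mem_coe, mem_Icc]
      have e : (g.1 : ℝ) + q * g.2 = v := by exact_mod_cast hg2
      have a1 : -(H : ℝ) ≤ g.1 := by exact_mod_cast hg1.1.1
      have a2 : (g.1 : ℝ) ≤ H := by exact_mod_cast hg1.1.2
      constructor
      · apply Int.ceil_le.2
        rw [div_le_iff₀ hq0]
        linarith
      · apply Int.le_floor.2
        rw [le_div_iff₀ hq0]
        linarith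
    · intro g hg g' hg' h
      rw [mem_coe, mem_filter] at hg hg'
      have h2 : g.2 = g'.2 := h
      have h3 := hg.2
      have h4 := hg'.2
      rw [h2] at h3
      exact Prod.ext (by linarith) h2
  have h2 : ((Icc (⌈((v : ℝ) - H) / q⌉) (⌊((v : ℝ) + H) / q⌋)).card : ℝ) ≤ 3 * H / q := by
    rw [Int.card_Icc]
    have f1 := Int.le_ceil (((v : ℝ) - H) / q)
    have f2 := Int.floor_le (((v : ℝ) + H) / q)
    have e : ((v : ℝ) + H) / q - ((v : ℝ) - H) / q + 1 ≤ 3 * H / q := by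
      have : ((v : ℝ) + H) / q - ((v : ℝ) - H) / q + 1 = (2 * H + q) / q := by field_simp; ring
      rw [this]
      apply div_le_div_of_nonneg_right _ hq0.le
      have : (q : ℝ) ≤ H := by exact_mod_cast hqH
      linarith
    rcases le_or_gt 0 (⌊((v : ℝ) + H) / q⌋ + 1 - ⌈((v : ℝ) - H) / q⌉) with h | h
    · have h8 : (((⌊((v : ℝ) + H) / q⌋ + 1 - ⌈((v : ℝ) - H) / q⌉).toNat : ℕ) : ℝ) = ((⌊((v : ℝ) + H) / q⌋ + 1 - ⌈((v : ℝ) - H) / q⌉ : ℤ) : ℝ) := by
        have h9 : (((⌊((v : ℝ) + H) / q⌋ + 1 - ⌈((v : ℝ) - H) / q⌉).toNat : ℕ) : ℤ) = (⌊((v : ℝ) + H) / q⌋ + 1 - ⌈((v : ℝ) - H) / q⌉ : ℤ) := Int.toNat_of_nonneg h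
        exact_mod_cast congrArg (fun z : ℤ => (z : ℝ)) h9
      rw [h8]
      push_cast
      linarith
    · rw [Int.toNat_of_nonpos h.le]
      have : (0 : ℝ) ≤ 3 * H / q := by positivity
      simpa using this
  exact le_trans (by exact_mod_cast h1) h2

/-- Chebyshev -/
theorem cheb : ∃ x0 : ℕ, ∀ n : ℕ, x0 ≤ n → (Nat.primeCounting n : ℝ) ≤ 2 * n / Real.log n := by
  have h := Chebyshev.eventually_primeCounting_le (ε := 2 - Real.log 4) (by
    have h1 : Real.log 4 = 2 * Real.log 2 := by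
      rw [show (4 : ℝ) = 2 ^ 2 by norm_num, Real.log_pow]
      norm_num
    have := Real.log_two_lt_d9
    rw [h1]
    linarith)
  obtain ⟨x0, hx0⟩ := eventually_atTop.1 (tendsto_natCast_atTop_atTop.eventually h)
  refine ⟨x0, fun n hn => ?_⟩
  have h1 := hx0 n hn
  rw [Nat.floor_natCast] at h1
  have e : Real.log 4 + (2 - Real.log 4) = 2 := by ring
  rw [e] at h1
  exact h1

/-- the pairs with prime values -/
noncomputable def PrS (H q : ℕ) : Finset (ℤ × ℤ) := (sq H).filter (fun g => (g.1 + (q : ℤ) * g.2).natAbs.Prime)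

theorem PrS_card : ∃ H0 : ℕ, ∀ H : ℕ, H0 ≤ H → ∀ q : ℕ, 1 ≤ q → q ≤ H → ((PrS H q).card : ℝ) ≤ 6 / Real.log H * (sq H).card := by
  obtain ⟨x0, hx0⟩ := cheb
  refine ⟨max x0 3, fun H hH q hq hqH => ?_⟩
  have hH3 : 3 ≤ H := (le_max_right _ _).trans hH
  have hHr : (3 : ℝ) ≤ H := by exact_mod_cast hH3
  have hlog : 0 < Real.log H := Real.log_pos (by linarith)
  have hq0 : (0 : ℝ) < q := by exact_mod_cast hq
  have hq1 : (1 : ℝ) ≤ q := by exact_mod_cast hq
  obtain ⟨X, hX⟩ : ∃ X, X = (q + 1) * H := ⟨_, rfl⟩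
  have hXH : H ≤ X := by rw [hX]; nlinarith
  have hXr : (X : ℝ) = (q + 1) * H := by rw [hX]; push_cast; ring
  have hsub : PrS H q ⊆ ((Icc 1 X).filter Nat.Prime).biUnion (fun p => (sq H).filter (fun g => g.1 + (q : ℤ) * g.2 = p) ∪
      (sq H).filter (fun g => g.1 + (q : ℤ) * g.2 = -(p : ℤ))) := by
    intro g hg
    unfold PrS at hg
    rw [mem_filter] at hg
    obtain ⟨h1, h2⟩ := hg
    rw [mem_biUnion]
    refine ⟨(g.1 + (q : ℤ) * g.2).natAbs, ?_, ?_⟩
    · rw [mem_filter, mem_Icc]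
      refine ⟨⟨h2.one_le, ?_⟩, h2⟩
      unfold sq at h1
      rw [mem_product, mem_Icc, mem_Icc] at h1
      have a1 : |g.1| ≤ H := abs_le.2 h1.1
      have a2 : |g.2| ≤ H := abs_le.2 h1.2
      have a3 : |g.1 + (q : ℤ) * g.2| ≤ (q + 1) * H := by
        refine (abs_add_le _ _).trans ?_
        rw [abs_mul, Nat.abs_cast]
        have : (q : ℤ) * |g.2| ≤ q * H := mul_le_mul_of_nonneg_left a2 (Nat.cast_nonneg _)
        linarith
      rw [hX]
      zify
      exact a3
    · rw [mem_union, mem_filter, mem_filter]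
      rcases Int.natAbs_eq (g.1 + (q : ℤ) * g.2) with h | h
      · left; exact ⟨h1, h⟩
      · right; exact ⟨h1, h⟩
  have h1 : ((PrS H q).card : ℝ) ≤ ∑ p ∈ (Icc 1 X).filter Nat.Prime, ((((sq H).filter (fun g => g.1 + (q : ℤ) * g.2 = p)).card : ℝ) +
      (((sq H).filter (fun g => g.1 + (q : ℤ) * g.2 = -(p : ℤ))).card : ℝ)) := by
    have h2 := (card_le_card hsub).trans card_biUnion_le
    have h3 : ∑ p ∈ (Icc 1 X).filter Nat.Prime, ((sq H).filter (fun g => g.1 + (q : ℤ) * g.2 = p) ∪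
      (sq H).filter (fun g => g.1 + (q : ℤ) * g.2 = -(p : ℤ))).card ≤ ∑ p ∈ (Icc 1 X).filter Nat.Prime, (((sq H).filter (fun g => g.1 + (q : ℤ) * g.2 = p)).card +
      ((sq H).filter (fun g => g.1 + (q : ℤ) * g.2 = -(p : ℤ))).card) := sum_le_sum fun p _ => card_union_le _ _
    exact_mod_cast h2.trans h3
  have h2 : ∀ p ∈ (Icc 1 X).filter Nat.Prime, ((((sq H).filter (fun g => g.1 + (q : ℤ) * g.2 = p)).card : ℝ) +
      (((sq H).filter (fun g => g.1 + (q : ℤ) * g.2 = -(p : ℤ))).card : ℝ)) ≤ 6 * H / q := by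
    intro p _
    have a1 := fibre H q hq hqH p
    have a2 := fibre H q hq hqH (-(p : ℤ))
    have : 6 * (H : ℝ) / q = 3 * H / q + 3 * H / q := by ring
    rw [this]
    exact add_le_add a1 a2
  have h3 := sum_le_card_nsmul _ _ _ h2
  rw [nsmul_eq_mul] at h3
  have h4 : (((Icc 1 X).filter Nat.Prime).card : ℝ) ≤ 2 * X / Real.log H := by
    have e : ((Icc 1 X).filter Nat.Prime).card = Nat.primeCounting X := by
      rw [Nat.primeCounting, Nat.primeCounting', Nat.count_eq_card_filter_range]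
      congr 1
      ext p
      rw [mem_filter, mem_filter, mem_Icc, mem_range]
      constructor
      · rintro ⟨⟨_, h5⟩, h6⟩
        exact ⟨by omega, h6⟩
      · rintro ⟨h5, h6⟩
        exact ⟨⟨h6.one_le, by omega⟩, h6⟩
    rw [e]
    refine (hx0 X (((le_max_left _ _).trans hH).trans hXH)).trans ?_
    apply div_le_div_of_nonneg_left (by positivity) hlog
    exact Real.log_le_log (by linarith) (by exact_mod_cast hXH)
  refine h1.trans (h3.trans ?_)
  rw [sq_card]
  calc (((Icc 1 X).filter Nat.Prime).card : ℝ) * (6 * H / q) ≤ (2 * X / Real.log H) * (6 * H / q) := mul_le_mul_of_nonneg_right h4 (by positivity)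
    _ = 6 / Real.log H * (2 * ((q + 1) / q) * (H * H)) := by rw [hXr]; field_simp
    _ ≤ 6 / Real.log H * (2 * 2 * (H * H)) := by
        apply mul_le_mul_of_nonneg_left _ (by positivity)
        apply mul_le_mul_of_nonneg_right _ (by positivity)
        apply mul_le_mul_of_nonneg_left _ (by norm_num)
        rw [div_le_iff₀ hq0]
        linarith
    _ ≤ 6 / Real.log H * (((2 * H + 1) ^ 2 : ℕ) : ℝ) := by
        apply mul_le_mul_of_nonneg_left _ (by positivity)
        push_cast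
        nlinarith

/-- **no solutions up to `c (log H)^m log log H`** -/
theorem few (m : ℕ) (hm : 1 ≤ m) (ε : ℝ) (hε : 0 < ε) : ∃ (c : ℝ) (H0 : ℕ), 0 < c ∧ ∀ H : ℕ, H0 ≤ H →
    ∃ Bad ⊆ Fintype.piFinset (fun _ : Fin m => sq H), (Bad.card : ℝ) ≤ ε * (Fintype.piFinset (fun _ : Fin m => sq H)).card ∧
    ∀ g ∈ Fintype.piFinset (fun _ : Fin m => sq H), g ∉ Bad → ∀ q : ℕ, (q : ℝ) ≤ c * (Real.log H ^ m * Real.log (Real.log H)) → q.Prime →
      ¬ ∀ i, ((g i).1 + (q : ℤ) * (g i).2).natAbs.Prime := by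
  obtain ⟨H1, hH1⟩ := PrS_card
  obtain ⟨x0, hx0⟩ := cheb
  obtain ⟨c, hc⟩ : ∃ c : ℝ, c = min (ε / (2 * 6 ^ m)) 1 := ⟨_, rfl⟩
  have hc0 : 0 < c := by rw [hc]; exact lt_min (by positivity) one_pos
  have hc1 : c ≤ 1 := by rw [hc]; exact min_le_right _ _
  have hcε : c * (2 * 6 ^ m) ≤ ε := by
    have : c ≤ ε / (2 * 6 ^ m) := by rw [hc]; exact min_le_left _ _
    rwa [le_div_iff₀ (by positivity)] at this
  have hlog : Tendsto (fun H : ℕ => Real.log H) atTop atTop := Real.tendsto_log_atTop.comp tendsto_natCast_atTop_atTop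
  have hll : Tendsto (fun H : ℕ => Real.log (Real.log H)) atTop atTop := Real.tendsto_log_atTop.comp hlog
  have hlil : ∀ᶠ H : ℕ in atTop, Real.log H ^ (m + 1) ≤ H := by
    have h1 : (fun x : ℝ => Real.log x ^ (m + 1)) =o[atTop] fun x : ℝ => x := by
      have := isLittleO_log_rpow_rpow_atTop (s := 1) (m + 1 : ℕ) one_pos
      refine this.congr (fun x => ?_) (fun x => Real.rpow_one x)
      exact Real.rpow_natCast _ _
    have h2 := (h1.tendsto_div_nhds_zero.comp tendsto_natCast_atTop_atTop).eventually (ge_mem_nhds (show (0 : ℝ) < 1 by norm_num))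
    filter_upwards [h2, eventually_ge_atTop 1] with H hH hH1
    have : (0 : ℝ) < H := by exact_mod_cast hH1
    simp only [Function.comp] at hH
    rwa [div_le_one this] at hH
  have hev := ((hlog.eventually_ge_atTop (max 1 (x0 : ℝ))).and (hll.eventually_ge_atTop (max 1 (2 / c)))).and hlil
  obtain ⟨H2, hH2⟩ := eventually_atTop.1 hev
  refine ⟨c, max H1 H2, hc0, fun H hH => ?_⟩
  obtain ⟨⟨hL', hx'⟩, hLH⟩ := hH2 H ((le_max_right _ _).trans hH)
  have hPr := hH1 H ((le_max_left _ _).trans hH)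
  obtain ⟨L, hLd⟩ : ∃ L, L = Real.log (H : ℝ) := ⟨_, rfl⟩
  rw [← hLd] at hL' hx' hLH hPr ⊢
  obtain ⟨x, hxd⟩ : ∃ x, x = Real.log L := ⟨_, rfl⟩
  rw [← hxd] at hx' ⊢
  have hL1 : 1 ≤ L := (le_max_left _ _).trans hL'
  have hLx0 : (x0 : ℝ) ≤ L := (le_max_right _ _).trans hL'
  have hx1 : 1 ≤ x := (le_max_left _ _).trans hx'
  have hx2 : 2 ≤ x * c := by
    have : 2 / c ≤ x := (le_max_right _ _).trans hx'
    rwa [div_le_iff₀ hc0] at this
  have hL0 : 0 < L := by linarith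
  have hx0' : 0 < x := by linarith
  have hLm1 : 1 ≤ L ^ m := one_le_pow₀ hL1
  have hxL : x ≤ L := by
    rw [hxd]
    exact (Real.log_le_sub_one_of_pos hL0).trans (by linarith)
  obtain ⟨N, hN⟩ : ∃ N : ℕ, N = ⌊c * (L ^ m * x)⌋₊ := ⟨_, rfl⟩
  have hN1 : (N : ℝ) ≤ c * (L ^ m * x) := by rw [hN]; exact Nat.floor_le (by positivity)
  have hN2 : L ^ m ≤ N := by
    have h1 := Nat.lt_floor_add_one (c * (L ^ m * x))
    rw [← hN] at h1
    have h2 : 2 * L ^ m ≤ c * (L ^ m * x) := by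
      calc 2 * L ^ m ≤ (x * c) * L ^ m := mul_le_mul_of_nonneg_right hx2 (by positivity)
        _ = _ := by ring
    linarith
  have hNL : L ≤ N := (le_self_pow₀ hL1 (by omega)).trans hN2
  have hNH : N ≤ H := by
    have h1 : (N : ℝ) ≤ H := by
      calc (N : ℝ) ≤ c * (L ^ m * x) := hN1
        _ ≤ 1 * (L ^ m * L) := by gcongr
        _ = L ^ (m + 1) := by rw [one_mul, pow_succ]
        _ ≤ H := hLH
    exact_mod_cast h1
  refine ⟨((Icc 1 N).filter Nat.Prime).biUnion (fun q => Fintype.piFinset (fun _ : Fin m => PrS H q)), ?_, ?_, ?_⟩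
  · rw [biUnion_subset]
    intro q _ g hg
    rw [Fintype.mem_piFinset] at hg ⊢
    intro i
    exact (mem_filter.1 (hg i)).1
  · have h1 : ((((Icc 1 N).filter Nat.Prime).biUnion (fun q => Fintype.piFinset (fun _ : Fin m => PrS H q))).card : ℝ) ≤
        ∑ q ∈ (Icc 1 N).filter Nat.Prime, ((Fintype.piFinset (fun _ : Fin m => PrS H q)).card : ℝ) := by
      exact_mod_cast card_biUnion_le
    have h2 : ∀ q ∈ (Icc 1 N).filter Nat.Prime, ((Fintype.piFinset (fun _ : Fin m => PrS H q)).card : ℝ) ≤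
        (6 / L) ^ m * (Fintype.piFinset (fun _ : Fin m => sq H)).card := by
      intro q hq
      rw [mem_filter, mem_Icc] at hq
      rw [Fintype.card_piFinset, Fintype.card_piFinset, prod_const, prod_const, card_univ, Fintype.card_fin]
      push_cast
      rw [← mul_pow]
      exact pow_le_pow_left₀ (Nat.cast_nonneg _) (hPr q hq.1.1 (hq.1.2.trans hNH)) m
    have h3 := sum_le_card_nsmul _ _ _ h2
    rw [nsmul_eq_mul] at h3
    refine h1.trans (h3.trans ?_)
    rw [← mul_assoc]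
    apply mul_le_mul_of_nonneg_right _ (Nat.cast_nonneg _)
    have h4 : (((Icc 1 N).filter Nat.Prime).card : ℝ) ≤ 2 * c * L ^ m := by
      have e : ((Icc 1 N).filter Nat.Prime).card = Nat.primeCounting N := by
        rw [Nat.primeCounting, Nat.primeCounting', Nat.count_eq_card_filter_range]
        congr 1
        ext p
        rw [mem_filter, mem_filter, mem_Icc, mem_range]
        constructor
        · rintro ⟨⟨_, h5⟩, h6⟩
          exact ⟨by omega, h6⟩
        · rintro ⟨h5, h6⟩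
          exact ⟨⟨h6.one_le, by omega⟩, h6⟩
      rw [e]
      refine (hx0 N (by exact_mod_cast hLx0.trans hNL)).trans ?_
      have h5 : x ≤ Real.log N := by rw [hxd]; exact Real.log_le_log hL0 hNL
      rw [div_le_iff₀ (by linarith)]
      calc 2 * (N : ℝ) ≤ 2 * (c * (L ^ m * x)) := by linarith
        _ = 2 * c * L ^ m * x := by ring
        _ ≤ 2 * c * L ^ m * Real.log N := mul_le_mul_of_nonneg_left h5 (by positivity)
    calc (((Icc 1 N).filter Nat.Prime).card : ℝ) * (6 / L) ^ m ≤ (2 * c * L ^ m) * (6 / L) ^ m := mul_le_mul_of_nonneg_right h4 (by positivity)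
      _ = c * (2 * 6 ^ m) := by rw [div_pow]; field_simp
      _ ≤ ε := hcε
  · intro g hg hgB q hq hqp hall
    apply hgB
    rw [mem_biUnion]
    refine ⟨q, ?_, ?_⟩
    · rw [mem_filter, mem_Icc]
      refine ⟨⟨hqp.one_le, ?_⟩, hqp⟩
      rw [hN]
      exact Nat.le_floor hq
    · rw [Fintype.mem_piFinset] at hg ⊢
      intro i
      exact mem_filter.2 ⟨hg i, hall i⟩

end Pool.Agent.H12L.Few
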