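import Pool.Agent.H12L.Li

/-! Project LS: the sieved values at the primes are regular at the grid points (helper12). -/

set_option autoImplicit false

namespace Pool.Agent.H12L

open Finset Filter
open Pool.Agent.H373R2.T7 (lamz pz Vz)
open Pool.Agent.H13K (Fv bx sf om Cz lg Wf Pf Lf pr Ym S_VZ S_FL S_PY S_LOWC)
open Pool.Agent.H12P (th C1 Y1 P1 L1 om1)
open Pool.Agent.H11P hiding bx
open Pool.Agent.H11P.Law (value)
open Pool.Agent.H11A

/-- the sieved values at the primes are regular at the grid points -/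
def GoodSP {m : ℕ} {dd : Fin m → ℕ} (A M1 K : ℕ) (δ ℓ : ℝ) (Y : ℕ) (a : ∀ i : Fin m, Fin (dd i + 1) → ℤ) : Prop :=
  ∀ s q : ℕ, q < M1 → ℓ ^ (1 + δ) ≤ (q * 2 ^ s : ℕ) → ((q * 2 ^ s : ℕ) : ℝ) ≤ ℓ ^ A →
    |∑ n ∈ Icc 1 (q * 2 ^ s), (th Y n * sf Y a (n : ℤ) - C1 Y a)| ≤ ((q * 2 ^ s : ℕ) : ℝ) / Real.log ℓ ^ K

open Classical in
theorem sm_gridP (hSM : S_LSM) (m : ℕ) (dd : Fin m → ℕ) (hdd : ∀ i, 1 ≤ dd i) (A M1 K : ℕ) (δ ε : ℝ) (hδ : 0 < δ) (hε : 0 < ε) :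
    ∀ᶠ H : ℕ in atTop, (((bx dd H).filter (fun a => ¬ GoodSP A M1 K δ (Real.log H) (Yh H) a)).card : ℝ) ≤ ε * (bx dd H).card := by
  obtain ⟨Q, H1, hH1⟩ := hSM m dd (2 * K + 3) hdd
  filter_upwards [eventually_ge_atTop H1, ev_log 32, ev_x 1, ev_x ((2 * A + 1) * M1 / ε), ev_ll Q ((A : ℝ) ^ Q) δ hδ, ev_pow A 1 1 one_pos]
    with H g1 g2 g3 g4 g5 g6
  have hsm := hH1 H g1
  obtain ⟨Y, hY⟩ : ∃ Y, Y = Yh H := ⟨_, rfl⟩
  rw [← hY]
  unfold Yh at hY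
  obtain ⟨ℓ, hℓ⟩ : ∃ ℓ : ℝ, ℓ = Real.log H := ⟨_, rfl⟩
  rw [Real.rpow_one, one_mul] at g6
  rw [← hℓ] at g2 g3 g4 g5 g6 hY hsm ⊢
  obtain ⟨x, hx⟩ : ∃ x, x = Real.log ℓ := ⟨_, rfl⟩
  rw [← hx] at g3 g4 g5
  have hℓ0 : 0 < ℓ := by linarith
  have hℓ1 : 1 ≤ ℓ := by linarith
  have hx0 : 0 < x := by linarith
  have hYle : (Y : ℝ) ≤ ℓ / 8 := by rw [hY]; exact Nat.floor_le (by positivity)
  have hY3 : 3 ≤ Y := by
    rw [hY]
    apply Nat.le_floor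
    push_cast
    linarith
  have hN0 : (0 : ℝ) ≤ (bx dd H).card := Nat.cast_nonneg _
  obtain ⟨𝓘, h𝓘⟩ : ∃ 𝓘 : Finset (ℕ × ℕ), 𝓘 = ((range (⌊2 * A * Real.log ℓ⌋₊ + 1)) ×ˢ (range M1)).filter
    (fun c => ℓ ^ (1 + δ) ≤ (c.2 * 2 ^ c.1 : ℕ) ∧ ((c.2 * 2 ^ c.1 : ℕ) : ℝ) ≤ ℓ ^ A) := ⟨_, rfl⟩
  obtain ⟨G1, hG1⟩ : ∃ G1 : ℕ × ℕ → (∀ i : Fin m, Fin (dd i + 1) → ℤ) → Prop, G1 = fun c a => (((c.2 * 2 ^ c.1 : ℕ) : ℝ)) / x ^ K <
      |∑ n ∈ Icc 1 (c.2 * 2 ^ c.1), (th Y n * sf Y a (n : ℤ) - C1 Y a)| := ⟨_, rfl⟩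
  have hsub : (bx dd H).filter (fun a => ¬ GoodSP A M1 K δ ℓ Y a) ⊆ 𝓘.biUnion (fun c => (bx dd H).filter (G1 c)) := by
    intro b hb
    rw [mem_filter] at hb
    obtain ⟨hb1, hb2⟩ := hb
    by_contra n1
    apply hb2
    intro s q hq h1 h2
    by_contra h3
    apply n1
    rw [mem_biUnion]
    refine ⟨(s, q), ?_, ?_⟩
    · rw [h𝓘, mem_filter, mem_product, mem_range, mem_range]
      refine ⟨⟨?_, hq⟩, h1, h2⟩
      have hq1 : 1 ≤ q := by
        by_contra hq0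
        have : q = 0 := by omega
        rw [this] at h1
        have h4 : 0 < ℓ ^ (1 + δ) := by positivity
        simp at h1
        linarith
      exact scale_le A s (q * 2 ^ s) ℓ (by linarith) (Nat.le_mul_of_pos_left _ hq1) h2
    · rw [mem_filter, hG1, hx]
      exact ⟨hb1, not_le.1 h3⟩
  have c1 : ∀ c ∈ 𝓘, (((bx dd H).filter (G1 c)).card : ℝ) ≤ (1 / x ^ 3) * (bx dd H).card := by
    intro c hc
    rw [h𝓘, mem_filter] at hc
    obtain ⟨N, hN⟩ : ∃ N, N = c.2 * 2 ^ c.1 := ⟨_, rfl⟩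
    have hc2 := hc.2
    rw [← hN] at hc2
    rw [hG1]
    beta_reduce
    rw [← hN]
    have hℓN : ℓ ≤ N := by
      calc ℓ = ℓ ^ (1 : ℝ) := (Real.rpow_one ℓ).symm
        _ ≤ ℓ ^ (1 + δ) := Real.rpow_le_rpow_of_exponent_le hℓ1 (by linarith)
        _ ≤ N := hc2.1
    have hNp : (0 : ℝ) < N := by linarith
    have hNH : N ≤ H := by
      have h1 : (N : ℝ) ≤ H := hc2.2.trans g6
      exact_mod_cast h1
    have hlogN : Real.log N ≤ A * x := by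
      have h1 := Real.log_le_log hNp hc2.2
      rwa [Real.log_pow, ← hx] at h1
    have hxN : x ≤ Real.log N := by
      rw [hx]
      exact Real.log_le_log hℓ0 hℓN
    have hzQ : (Y : ℝ) * Real.log N ^ Q ≤ N := by
      calc (Y : ℝ) * Real.log N ^ Q ≤ ℓ * (A * x) ^ Q := by
            apply mul_le_mul (by linarith) (pow_le_pow_left₀ (by linarith) hlogN Q) (by positivity) hℓ0.le
        _ = ℓ * ((A : ℝ) ^ Q * x ^ Q) := by rw [mul_pow]
        _ ≤ ℓ * ℓ ^ δ := mul_le_mul_of_nonneg_left g5 hℓ0.le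
        _ = ℓ ^ (1 + δ) := by rw [Real.rpow_add hℓ0, Real.rpow_one]
        _ ≤ N := hc2.1
    have h1 := hsm Y hY3 (by linarith) N hℓN hNH hzQ
    have h2 : (((bx dd H).filter (fun a => (N : ℝ) / x ^ K < |∑ n ∈ Icc 1 N, (th Y n * sf Y a (n : ℤ) - C1 Y a)|)).card : ℝ) * (N / x ^ K) ^ 2 ≤
        ∑ a ∈ bx dd H, (∑ n ∈ Icc 1 N, (th Y n * sf Y a (n : ℤ) - C1 Y a)) ^ 2 := by
      rw [← nsmul_eq_mul, ← sum_const]
      refine (sum_le_sum (fun a ha => ?_)).trans (sum_le_sum_of_subset_of_nonneg (filter_subset _ _) (fun _ _ _ => sq_nonneg _))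
      have h3 := (mem_filter.1 ha).2
      rw [← sq_abs (∑ n ∈ Icc 1 N, (th Y n * sf Y a (n : ℤ) - C1 Y a))]
      exact pow_le_pow_left₀ (by positivity) h3.le 2
    have h3 : (((bx dd H).filter (fun a => (N : ℝ) / x ^ K < |∑ n ∈ Icc 1 N, (th Y n * sf Y a (n : ℤ) - C1 Y a)|)).card : ℝ) * (N / x ^ K) ^ 2 ≤
        ((1 / x ^ 3) * (bx dd H).card) * (N / x ^ K) ^ 2 := by
      refine h2.trans (h1.trans ?_)
      have e : ((1 / x ^ 3) * ((bx dd H).card : ℝ)) * (N / x ^ K) ^ 2 = ((bx dd H).card : ℝ) * (N : ℝ) ^ 2 / x ^ (2 * K + 3) := by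
        rw [pow_add, mul_comm 2 K, pow_mul]
        field_simp
      rw [e]
      exact div_le_div_of_nonneg_left (by positivity) (by positivity) (pow_le_pow_left₀ hx0.le hxN _)
    refine le_trans (le_of_eq ?_) (le_of_mul_le_mul_right h3 (by positivity))
    congr!
  have h1 : (((bx dd H).filter (fun a => ¬ GoodSP A M1 K δ ℓ Y a)).card : ℝ) ≤ ∑ c ∈ 𝓘, (((bx dd H).filter (G1 c)).card : ℝ) := by
    exact_mod_cast (card_le_card hsub).trans card_biUnion_le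
  refine h1.trans ((sum_le_card_nsmul _ _ _ c1).trans ?_)
  rw [nsmul_eq_mul, ← mul_assoc]
  apply mul_le_mul_of_nonneg_right _ hN0
  have h3 : (𝓘.card : ℝ) ≤ ((⌊2 * A * x⌋₊ + 1 : ℕ) : ℝ) * ((M1 : ℕ) : ℝ) := by
    have h3 : 𝓘.card ≤ (⌊2 * A * x⌋₊ + 1) * M1 := by
      rw [h𝓘, hx]
      refine (card_le_card (filter_subset _ _)).trans ?_
      rw [card_product, card_range, card_range]
    exact_mod_cast h3
  have h4 : ((⌊2 * A * x⌋₊ + 1 : ℕ) : ℝ) ≤ (2 * A + 1) * x := by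
    push_cast
    have := Nat.floor_le (by positivity : 0 ≤ 2 * A * x)
    linarith
  calc (𝓘.card : ℝ) * (1 / x ^ 3) ≤ (((2 * A + 1) * x) * (M1 : ℝ)) * (1 / x ^ 3) := by
        apply mul_le_mul_of_nonneg_right _ (by positivity)
        exact h3.trans (mul_le_mul_of_nonneg_right h4 (Nat.cast_nonneg _))
    _ = ((2 * A + 1) * M1 / ε) * (ε / (x * x)) := by
        field_simp
    _ ≤ x * (ε / (x * x)) := mul_le_mul_of_nonneg_right g4 (by positivity)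
    _ = ε * (1 / x) := by field_simp
    _ ≤ ε * 1 := by
        apply mul_le_mul_of_nonneg_left _ hε.le
        rw [div_le_one hx0]
        exact g3
    _ = ε := mul_one ε

/-- from the sum with the weights to the primes -/
theorem pt1 (N c t S U κ w Y l lw η : ℝ) (hN : 0 < N) (hc : 0 < c) (hη : 0 < η) (hη1 : η ≤ 1) (hS : |S - N * c| ≤ t) (ht : t ≤ η / 8 * (N * c))
    (h1 : S ≤ l * U) (h2 : l * U ≤ (l / lw) * S + l * (κ * (w + Y))) (h3 : l / lw ≤ 1 + η / 4) (h4 : l * (κ * (w + Y)) ≤ η / 4 * (N * c)) :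
    |l * U - N * c| ≤ η * (N * c) := by
  have hNc : 0 < N * c := by positivity
  rw [abs_le] at hS
  have hS0 : 0 ≤ S := by
    have : η / 8 * (N * c) ≤ 1 * (N * c) := mul_le_mul_of_nonneg_right (by linarith) hNc.le
    linarith
  have h5 : (l / lw) * S ≤ (1 + η / 4) * S := mul_le_mul_of_nonneg_right h3 hS0
  have h6 : (1 + η / 4) * S ≤ (1 + η / 4) * (N * c + η / 8 * (N * c)) := mul_le_mul_of_nonneg_left (by linarith) (by linarith)
  have h7 : η * (η * (N * c)) ≤ 1 * (η * (N * c)) := mul_le_mul_of_nonneg_right hη1 (by positivity)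
  have e : (1 + η / 4) * (N * c + η / 8 * (N * c)) = N * c + 3 / 8 * (η * (N * c)) + 1 / 32 * (η * (η * (N * c))) := by ring
  rw [e] at h6
  have h8 : 0 ≤ η * (N * c) := by positivity
  rw [abs_le]
  constructor
  · linarith
  · linarith

theorem pt2 (N c t P U l η : ℝ) (hl : 0 < l) (h1 : |l * U - N * c| ≤ η * (N * c)) (h2 : |P - U| ≤ t) (h3 : l * t ≤ η * (N * c)) :
    |P - N * (c / l)| ≤ 2 * η * (N * (c / l)) := by
  have e : P - N * (c / l) = (P - U) + (l * U - N * c) / l := by field_simp; ring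
  rw [e]
  refine (abs_add_le _ _).trans ?_
  rw [abs_div, abs_of_pos hl]
  have h4 : |l * U - N * c| / l ≤ η * (N * c) / l := div_le_div_of_nonneg_right h1 hl.le
  have h5 : t ≤ η * (N * c) / l := by
    rw [le_div_iff₀ hl]
    linarith
  have e2 : 2 * η * (N * (c / l)) = η * (N * c) / l + η * (N * c) / l := by ring
  rw [e2]
  linarith

/-- change of the logarithm -/
theorem pt3 (N c P l l' η : ℝ) (hN : 0 < N) (hc : 0 < c) (hl : 0 < l) (hl' : 0 < l') (hη : 0 < η) (hη1 : η ≤ 1) (hll : |l' - l| ≤ η * l)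
    (h : |P - N * (c / l)| ≤ 2 * η * (N * (c / l))) : |P - N * (c / l')| ≤ 5 * η * (N * (c / l')) := by
  have hNc : 0 < N * c := by positivity
  have e0 : N * (c / l) = (N * (c / l')) * (l' / l) := by field_simp
  obtain ⟨T, hT⟩ : ∃ T, T = N * (c / l') := ⟨_, rfl⟩
  have hT0 : 0 < T := by rw [hT]; positivity
  rw [e0, ← hT] at h
  rw [← hT]
  obtain ⟨r, hr⟩ : ∃ r, r = l' / l := ⟨_, rfl⟩
  rw [← hr] at h
  have hr1 : |r - 1| ≤ η := by
    have e : r - 1 = (l' - l) / l := by rw [hr]; field_simp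
    rw [e, abs_div, abs_of_pos hl, div_le_iff₀ hl]
    exact hll
  rw [abs_le] at hr1 h
  have h1 : T * r ≤ T * (1 + η) := mul_le_mul_of_nonneg_left (by linarith) hT0.le
  have h2 : T * (1 - η) ≤ T * r := mul_le_mul_of_nonneg_left (by linarith) hT0.le
  have h3 : 2 * η * (T * r) ≤ 2 * η * (T * 2) := mul_le_mul_of_nonneg_left (by nlinarith) (by positivity)
  rw [abs_le]
  constructor
  · nlinarith
  · nlinarith

end Pool.Agent.H12L
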