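import Pool.Agent.H12L.Low
import Pool.Agent.H12P.Main
import Pool.Agent.H13K.Join

/-! Project LS: joining the low scales with the high scales at prime arguments (helper12). -/

set_option autoImplicit false

namespace Pool.Agent.H12L.Join

open Finset
open Pool.Agent.H373R2.T7 (lamz pz Vz mem_pz)
open Pool.Agent.H13K (bx Fv pr)
open Pool.Agent.H13K.Join (cmp)
open Pool.Agent.H12P (C1 P1 L1 om1)
open Pool.Agent.H12P.Fin (P1_nonneg L1_nonneg)
open Pool.Agent.H12L.Low (S_LOWT')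

lemma P1_zero {m : ℕ} {dd : Fin m → ℕ} (a : ∀ i : Fin m, Fin (dd i + 1) → ℤ) : P1 a 0 = 0 := by
  unfold P1
  simp

lemma L1_zero {m : ℕ} {dd : Fin m → ℕ} (a : ∀ i : Fin m, Fin (dd i + 1) → ℤ) : L1 a 0 = 0 := by
  unfold L1
  simp

theorem join (hLB : S_LOWT') (m : ℕ) (dd : Fin m → ℕ) (hm : 1 ≤ m) (hdd : ∀ i, 1 ≤ dd i) (δ ε : ℝ) (hδ : 0 < δ) (hε : 0 < ε) :
    ∃ B H0 : ℕ, ∀ H : ℕ, H0 ≤ H → ∃ Bad ⊆ bx dd H,
      (Bad.card : ℝ) ≤ ε * ((bx dd H).card : ℝ) ∧
      ∀ a ∈ bx dd H, a ∉ Bad → (∀ i, a i (Fin.last (dd i)) ≠ 0) ∧ ((∀ p : ℕ, p.Prime → om1 p a ≠ p - 1) →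
      ∀ z : ℕ, Real.log H ≤ z → z ^ 4 ≤ H → 0 < C1 z a ∧
      ∀ K : ℕ, Real.log H ^ ((m : ℝ) + δ) ≤ K → (K : ℝ) * Real.log H ^ B ≤ H →
        Real.log H ^ (min δ 1 / 2) ≤ C1 z a * L1 a K ∧
        |P1 a K - C1 z a * L1 a K| ≤ ε * (C1 z a * L1 a K)) := by
  classical
  obtain ⟨e, he⟩ : ∃ e : ℝ, e = min ε 1 / 16 := ⟨_, rfl⟩
  have hmin0 : 0 < min ε 1 := lt_min hε one_pos
  have hep : 0 < e := by rw [he]; positivity
  have he16 : e ≤ ε / 16 := by
    have := min_le_left ε 1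
    rw [he]; linarith
  have he1 : e ≤ 1 / 16 := by
    have := min_le_right ε 1
    rw [he]; linarith
  obtain ⟨B, H3, hcore⟩ := Pool.Agent.H12P.Main.core m dd hdd 1
  obtain ⟨B', hB'⟩ : ∃ B', B' = B + m + ⌈δ⌉₊ + 1 := ⟨_, rfl⟩
  obtain ⟨H1, hlb⟩ := hLB m dd hm hdd B' δ e hδ hep
  have hlog : Filter.Tendsto (fun H : ℕ => Real.log H) Filter.atTop Filter.atTop :=
    Real.tendsto_log_atTop.comp tendsto_natCast_atTop_atTop
  have hll : Filter.Tendsto (fun H : ℕ => Real.log (Real.log H)) Filter.atTop Filter.atTop :=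
    Real.tendsto_log_atTop.comp hlog
  have hlil : Filter.Tendsto (fun H : ℕ => Real.log H ^ (8 * (B' + 2)) / (H : ℝ)) Filter.atTop (nhds 0) := by
    have h1 : (fun x : ℝ => Real.log x ^ (8 * (B' + 2))) =o[Filter.atTop] fun x : ℝ => x := by
      have := isLittleO_log_rpow_rpow_atTop (s := 1) (8 * (B' + 2) : ℕ) one_pos
      refine this.congr (fun x => ?_) (fun x => Real.rpow_one x)
      exact Real.rpow_natCast _ _
    exact h1.tendsto_div_nhds_zero.comp tendsto_natCast_atTop_atTop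
  have hev := ((hlil.eventually (ge_mem_nhds (show (0 : ℝ) < 1 by norm_num))).and
    (hlog.eventually_ge_atTop (10 + 1 / e))).and (hll.eventually_ge_atTop (1 / e))
  obtain ⟨H2, hH2⟩ := Filter.eventually_atTop.1 hev
  refine ⟨B, max (max H1 H3) (max H2 2), fun H hH => ?_⟩
  obtain ⟨⟨hHl, hL10⟩, hll1⟩ := hH2 H (((le_max_left _ _).trans (le_max_right _ _)).trans hH)
  obtain ⟨Bad, hB1, hB2, hB3⟩ := hlb H (((le_max_left _ _).trans (le_max_left _ _)).trans hH)
  obtain ⟨Bad', hB1', hB2', hB3'⟩ := hcore H (((le_max_right _ _).trans (le_max_left _ _)).trans hH)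
  have hH2' : 2 ≤ H := ((le_max_right _ _).trans (le_max_right _ _)).trans hH
  have hHr : (2 : ℝ) ≤ H := by exact_mod_cast hH2'
  rw [div_le_one (by linarith)] at hHl
  obtain ⟨L, hLd⟩ : ∃ L, L = Real.log (H : ℝ) := ⟨_, rfl⟩
  rw [← hLd] at hHl hL10 hll1 hB2' hB3 hB3' ⊢
  have hie : 0 < 1 / e := by positivity
  have hL1 : 1 ≤ L := by linarith
  have hL0 : 0 < L := by linarith
  have hll0 : 0 < Real.log L := by linarith
  have hlle : 1 / Real.log L ≤ e := by
    rw [div_le_iff₀ hll0]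
    rw [div_le_iff₀ hep] at hll1
    linarith
  refine ⟨Bad ∪ Bad', union_subset hB1 hB1', ?_, ?_⟩
  · have h1 : (((Bad ∪ Bad').card : ℕ) : ℝ) ≤ Bad.card + Bad'.card := by exact_mod_cast card_union_le _ _
    have h2 : (Bad'.card : ℝ) ≤ e * (bx dd H).card := by
      refine hB2'.trans ?_
      rw [pow_one, div_eq_mul_one_div, mul_comm]
      exact mul_le_mul_of_nonneg_right hlle (Nat.cast_nonneg _)
    have h3 : (e + e) * ((bx dd H).card : ℝ) ≤ ε * (bx dd H).card := mul_le_mul_of_nonneg_right (by linarith) (Nat.cast_nonneg _)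
    have h4 : (e + e) * ((bx dd H).card : ℝ) = e * (bx dd H).card + e * (bx dd H).card := by ring
    linarith
  intro a ha hab
  rw [mem_union, not_or] at hab
  obtain ⟨hab1, hab2⟩ := hab
  obtain ⟨hlead, hw⟩ := hB3' a ha hab2
  refine ⟨hlead, fun hadm z hz hz4 => ?_⟩
  have hw := hw hadm
  obtain ⟨hcz, hlow⟩ := hB3 a ha hab1 hadm z hz hz4
  refine ⟨hcz, fun K hK1 hK2 => ?_⟩
  have hLf0 : 0 ≤ L1 a K := L1_nonneg a K
  by_cases hKB : (K : ℝ) ≤ L ^ B'
  · obtain ⟨h0, h1⟩ := hlow K hK1 hKB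
    refine ⟨h0, h1.trans ?_⟩
    exact mul_le_mul_of_nonneg_right (by linarith) (mul_nonneg hcz.le hLf0)
  · push Not at hKB
    have hBB' : L ^ B ≤ L ^ B' := pow_le_pow_right₀ hL1 (by omega)
    obtain ⟨z1, hz1⟩ : ∃ z1, z1 = ⌊L ^ B'⌋₊ := ⟨_, rfl⟩
    have hz1b : (z1 : ℝ) ≤ L ^ B' := by rw [hz1]; exact Nat.floor_le (by positivity)
    have hz1c : L ^ (B + m + ⌈δ⌉₊) ≤ z1 := by
      have h1 := Nat.lt_floor_add_one (L ^ B')
      rw [← hz1] at h1
      have h2 : L ^ B' = L ^ (B + m + ⌈δ⌉₊) * L := by rw [hB', pow_succ]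
      have h3 : 1 ≤ L ^ (B + m + ⌈δ⌉₊) := one_le_pow₀ hL1
      nlinarith
    have hz1a : L ^ B ≤ z1 := (pow_le_pow_right₀ hL1 (by omega)).trans hz1c
    have hz1L : L ≤ z1 := by
      refine le_trans ?_ hz1c
      exact le_self_pow₀ hL1 (by omega)
    have hz1d : L ^ ((m : ℝ) + δ) ≤ z1 := by
      refine le_trans ?_ hz1c
      rw [← Real.rpow_natCast]
      refine Real.rpow_le_rpow_of_exponent_le hL1 ?_
      push_cast
      have h1 := Nat.le_ceil δ
      have h2 : (0 : ℝ) ≤ B := Nat.cast_nonneg _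
      linarith
    have hz14 : z1 ^ 4 ≤ H := by
      have h1 : (z1 : ℝ) ^ 4 ≤ H := by
        calc (z1 : ℝ) ^ 4 ≤ (L ^ B') ^ 4 := pow_le_pow_left₀ (Nat.cast_nonneg _) hz1b 4
          _ = L ^ (4 * B') := by rw [← pow_mul]; ring_nf
          _ ≤ L ^ (8 * (B' + 2)) := pow_le_pow_right₀ hL1 (by omega)
          _ ≤ H := hHl
      exact_mod_cast h1
    have hzB : (z1 : ℝ) * L ^ B ≤ H := by
      calc (z1 : ℝ) * L ^ B ≤ L ^ B' * L ^ B := mul_le_mul_of_nonneg_right hz1b (by positivity)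
        _ = L ^ (B' + B) := (pow_add _ _ _).symm
        _ ≤ L ^ (8 * (B' + 2)) := pow_le_pow_right₀ hL1 (by omega)
        _ ≤ H := hHl
    -- a number `v ≥ L`
    have hvA : ∀ v : ℕ, L ≤ v → (v : ℝ) ≤ ((v : ℝ) - (0 : ℕ)) * Real.log v ^ 1 ∧ ∀ y : ℝ, 0 ≤ y → y / Real.log v ^ 1 ≤ e * y := by
      intro v hv
      have h1 : Real.log L ≤ Real.log v := Real.log_le_log hL0 hv
      have h2 : 1 ≤ Real.log L := by
        have : 1 ≤ 1 / e := by
          rw [le_div_iff₀ hep]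
          linarith
        linarith
      constructor
      · rw [Nat.cast_zero, sub_zero, pow_one]
        exact le_mul_of_one_le_right (Nat.cast_nonneg _) (by linarith)
      · intro y hy
        rw [pow_one]
        calc y / Real.log v ≤ y / Real.log L := div_le_div_of_nonneg_left hy hll0 h1
          _ = 1 / Real.log L * y := by ring
          _ ≤ e * y := mul_le_mul_of_nonneg_right hlle hy
    obtain ⟨hc1, hwz1⟩ := hw z1 hz1a hz14
    obtain ⟨e0, e2⟩ := hwz1 0 z1 hz1a hzB (hvA z1 hz1L).1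
    obtain ⟨-, e1⟩ := hlow z1 hz1d hz1b
    rw [P1_zero, L1_zero, sub_zero, sub_zero] at e2
    rw [L1_zero, sub_zero] at e0
    obtain ⟨c, hcd⟩ : ∃ c, c = C1 z a := ⟨_, rfl⟩
    obtain ⟨c1, hc1d⟩ : ∃ c1, c1 = C1 z1 a := ⟨_, rfl⟩
    rw [← hcd] at hcz e1 ⊢
    rw [← hc1d] at hc1 e0 e2
    have hlam0 : 0 < L1 a z1 := by
      by_contra hcon
      push Not at hcon
      have : c1 * L1 a z1 ≤ 0 := mul_nonpos_of_nonneg_of_nonpos hc1.le hcon
      linarith
    have hcc := cmp c c1 (L1 a z1) (P1 a z1) e e hcz.le hc1.le hlam0 hep.le hep.le (by linarith) (by linarith) e1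
      (e2.trans ((hvA z1 hz1L).2 _ (by positivity)))
    have hLK : L ≤ K := hz1L.trans (hz1b.trans hKB.le)
    obtain ⟨f0, e3⟩ := hwz1 0 K (hBB'.trans hKB.le) hK2 (hvA K hLK).1
    rw [P1_zero, L1_zero, sub_zero, sub_zero, ← hc1d] at e3
    rw [L1_zero, sub_zero, ← hc1d] at f0
    have e4 := e3.trans ((hvA K hLK).2 _ (mul_nonneg hc1.le hLf0))
    have hc1le : c1 ≤ 2 * c := by
      have h1 := (abs_le.1 hcc).2
      have h2 : 2 * (e + e) * c ≤ c := by
        have : 2 * (e + e) ≤ 1 := by linarith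
        calc 2 * (e + e) * c ≤ 1 * c := mul_le_mul_of_nonneg_right this hcz.le
          _ = c := one_mul c
      linarith
    refine ⟨?_, ?_⟩
    · have h1 : L ≤ 2 * (c * L1 a K) := by
        calc L ≤ c1 * L1 a K := f0
          _ ≤ 2 * c * L1 a K := mul_le_mul_of_nonneg_right hc1le hLf0
          _ = 2 * (c * L1 a K) := by ring
      have h2 : L ^ (min δ 1 / 2) ≤ L ^ (1 / 2 : ℝ) := by
        apply Real.rpow_le_rpow_of_exponent_le hL1
        have := min_le_right δ 1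
        linarith
      have h3 : L ^ (1 / 2 : ℝ) ≤ L / 2 := by
        rw [← Real.sqrt_eq_rpow]
        have h4 : 2 ≤ √L := by
          rw [Real.le_sqrt (by norm_num) hL0.le]
          linarith
        have h5 : √L * √L = L := Real.mul_self_sqrt hL0.le
        nlinarith
      linarith
    · calc |P1 a K - c * L1 a K| = |(P1 a K - c1 * L1 a K) + (c1 - c) * L1 a K| := by ring_nf
        _ ≤ |P1 a K - c1 * L1 a K| + |(c1 - c) * L1 a K| := abs_add_le _ _
        _ ≤ e * (c1 * L1 a K) + (2 * (e + e) * c) * L1 a K := by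
            refine add_le_add e4 ?_
            rw [abs_mul, abs_of_nonneg hLf0]
            exact mul_le_mul_of_nonneg_right hcc hLf0
        _ ≤ e * (2 * c * L1 a K) + (2 * (e + e) * c) * L1 a K := by
            refine add_le_add ?_ le_rfl
            exact mul_le_mul_of_nonneg_left (mul_le_mul_of_nonneg_right hc1le hLf0) hep.le
        _ = 6 * e * (c * L1 a K) := by ring
        _ ≤ ε * (c * L1 a K) := mul_le_mul_of_nonneg_right (by linarith) (mul_nonneg hcz.le hLf0)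

end Pool.Agent.H12L.Join
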