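import Pool.Agent.H12L.Stm
import Pool.Agent.H11C.PrD

/-! Project LS, stub LPR (helper11): the prime points over the primes. -/

set_option autoImplicit false

namespace Pool.Agent.H12L.LPR

open Finset Filter
open Pool.Agent.H11P hiding bx
open Pool.Agent.H11P.Law Pool.Agent.H11A Pool.Agent.H11B Pool.Agent.H11C Pool.Agent.H12L

variable {k d : ℕ}

open Classical in
theorem prim_gridP (hSW : SWU) (k A A' M1 K : ℕ) (hk : 1 ≤ k) (δ ε : ℝ) (hδ : 0 < δ) (hδ1 : δ ≤ 1) (hε : 0 < ε) :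
    ∀ᶠ H : ℕ in atTop, ∀ P : Fin k → Polynomial ℤ,
    (∀ i, ∀ n : ℕ, (n : ℝ) ≤ Real.log H ^ A → |(((P i).eval (n : ℤ) : ℤ) : ℝ)| ≤ H * Real.log H ^ A') →
    (((ab k 1 H).filter (fun b => ¬ GoodP k A M1 K δ (Real.log H) H (Yh H) P b)).card : ℝ) ≤ ε * (ab k 1 H).card := by
  filter_upwards [primD hSW k 1 1 A A' 1 K hk le_rfl (by norm_num) δ (δ / 2) (by positivity) (by linarith) hδ1,
    grid_small A M1 (δ / 2) (ε / 2) (by positivity) (by linarith) (by positivity), ev_log (6 * k / ε), ev_log 1, ev_pow (A + 2) 1 1 one_pos] with H g1 g2 g3 g4 g5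
  intro P hP
  obtain ⟨ℓ, hℓ⟩ : ∃ ℓ : ℝ, ℓ = Real.log H := ⟨_, rfl⟩
  rw [← hℓ] at g1 g2 g3 g4 g5 hP ⊢
  rw [one_mul, Real.rpow_one] at g5
  have hℓ0 : 0 < ℓ := by linarith
  have hN0 : (0 : ℝ) ≤ (ab k 1 H).card := Nat.cast_nonneg _
  obtain ⟨𝓘, h𝓘⟩ : ∃ 𝓘 : Finset (ℕ × ℕ), 𝓘 = ((range (⌊2 * A * Real.log ℓ⌋₊ + 1)) ×ˢ (range M1)).filter
    (fun c => ℓ ^ ((k : ℝ) + δ) ≤ (c.2 * 2 ^ c.1 : ℕ) ∧ ((c.2 * 2 ^ c.1 : ℕ) : ℝ) ≤ ℓ ^ A) := ⟨_, rfl⟩
  obtain ⟨G1, hG1⟩ : ∃ G1 : ℕ × ℕ → (Fin k → Fin (1 + 1) → ℤ) → Prop, G1 = fun c a => (((c.2 * 2 ^ c.1 : ℕ) : ℝ)) / Real.log ℓ ^ K <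
      |ℓ ^ k * pts P (PN (c.2 * 2 ^ c.1)) a - kS (pri 0 (Yh H)) ^ k * NS P (PN (c.2 * 2 ^ c.1)) (Yh H) a| := ⟨_, rfl⟩
  obtain ⟨G2, hG2⟩ : ∃ G2 : (Fin k → Fin (1 + 1) → ℤ) → Prop, G2 = fun a => ∃ i, ∃ n ∈ Ioc 0 ⌊ℓ ^ A⌋₊, |((value (P i) (a i) n : ℤ) : ℝ)| < H / ℓ ^ (A + 2) := ⟨_, rfl⟩
  have hsub : (ab k 1 H).filter (fun b => ¬ GoodP k A M1 K δ ℓ H (Yh H) P b) ⊆
      𝓘.biUnion (fun c => (ab k 1 H).filter (G1 c)) ∪ (ab k 1 H).filter G2 := by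
    intro b hb
    rw [mem_filter] at hb
    obtain ⟨hb1, hb2⟩ := hb
    by_contra hcon
    rw [mem_union, not_or] at hcon
    obtain ⟨n1, n2⟩ := hcon
    apply hb2
    constructor
    · intro s q hq h1 h2
      by_contra h3
      apply n1
      rw [mem_biUnion]
      refine ⟨(s, q), ?_, ?_⟩
      · rw [h𝓘, mem_filter, mem_product, mem_range, mem_range]
        refine ⟨⟨?_, hq⟩, h1, h2⟩
        have hq1 : 1 ≤ q := by
          by_contra hq0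
          have : q = 0 := by omega
          rw [this] at h1
          have h4 : 0 < ℓ ^ ((k : ℝ) + δ) := by positivity
          simp at h1
          linarith
        exact scale_le A s (q * 2 ^ s) ℓ g4 (Nat.le_mul_of_pos_left _ hq1) h2
      · rw [mem_filter, hG1]
        exact ⟨hb1, not_le.1 h3⟩
    · intro i n hn
      by_contra h3
      apply n2
      rw [mem_filter, hG2]
      exact ⟨hb1, i, n, hn, not_le.1 h3⟩
  have c1 : ∀ c ∈ 𝓘, (((ab k 1 H).filter (G1 c)).card : ℝ) ≤ ((ℓ ^ (-(δ / 2))) ^ 1 + 1 / ℓ ^ 1) * (ab k 1 H).card := by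
    intro c hc
    rw [h𝓘, mem_filter] at hc
    have := g1 P 0 (c.2 * 2 ^ c.1) (PN (c.2 * 2 ^ c.1)) (by rw [zero_add]; exact filter_subset _ _) hc.2.1 (by rw [zero_add]; exact hc.2.2) (by
      intro i n hn
      unfold PN at hn
      rw [mem_filter, mem_Ioc] at hn
      exact hP i n (le_trans (by exact_mod_cast hn.1.2) hc.2.2))
    rw [hG1]
    refine le_trans (le_of_eq ?_) this
    congr!
  have c2 : (((ab k 1 H).filter G2).card : ℝ) ≤ ε / 2 * (ab k 1 H).card := by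
    have h1 := bad_centre (d := 1) P H (Ioc 0 ⌊ℓ ^ A⌋₊) (H / ℓ ^ (A + 2)) (by positivity)
    rw [hG2]
    refine (le_of_eq ?_).trans (h1.trans (mul_le_mul_of_nonneg_right ?_ hN0))
    · congr!
    · rw [Nat.card_Ioc, Nat.sub_zero]
      have h2 : ((⌊ℓ ^ A⌋₊ : ℕ) : ℝ) ≤ ℓ ^ A := Nat.floor_le (by positivity)
      have hH0 : (0 : ℝ) ≤ H := Nat.cast_nonneg _
      have h3 : 1 ≤ (H : ℝ) / ℓ ^ (A + 2) := by
        rw [le_div_iff₀ (by positivity), one_mul]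
        exact g5
      have h4 : (2 * ((H : ℝ) / ℓ ^ (A + 2)) + 1) / (2 * H + 1) ≤ 3 / ℓ ^ (A + 1) := by
        rw [div_le_div_iff₀ (by positivity) (by positivity)]
        have e1 : (H : ℝ) / ℓ ^ (A + 2) * ℓ ^ (A + 1) ≤ H := by
          have : (H : ℝ) / ℓ ^ (A + 2) * ℓ ^ (A + 1) = H / ℓ := by
            rw [show A + 2 = (A + 1) + 1 from rfl, pow_succ ℓ (A + 1)]
            field_simp
          rw [this]
          exact div_le_self hH0 g4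
        calc (2 * ((H : ℝ) / ℓ ^ (A + 2)) + 1) * ℓ ^ (A + 1) ≤ (3 * ((H : ℝ) / ℓ ^ (A + 2))) * ℓ ^ (A + 1) := by
              apply mul_le_mul_of_nonneg_right _ (by positivity)
              linarith
          _ = 3 * ((H : ℝ) / ℓ ^ (A + 2) * ℓ ^ (A + 1)) := by ring
          _ ≤ 3 * H := by linarith
          _ ≤ 3 * (2 * H + 1) := by linarith
      calc (k : ℝ) * (⌊ℓ ^ A⌋₊ : ℕ) * ((2 * ((H : ℝ) / ℓ ^ (A + 2)) + 1) / (2 * H + 1)) ≤ k * ℓ ^ A * (3 / ℓ ^ (A + 1)) := by gcongr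
        _ = 3 * k / ℓ := by rw [pow_succ]; field_simp
        _ ≤ ε / 2 := by
            rw [div_le_iff₀ hℓ0]
            rw [div_le_iff₀ hε] at g3
            linarith
  have h1 : (((ab k 1 H).filter (fun b => ¬ GoodP k A M1 K δ ℓ H (Yh H) P b)).card : ℝ) ≤
      ∑ c ∈ 𝓘, (((ab k 1 H).filter (G1 c)).card : ℝ) + (((ab k 1 H).filter G2).card : ℝ) := by
    exact_mod_cast (card_le_card hsub).trans ((card_union_le _ _).trans (Nat.add_le_add_right card_biUnion_le _))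
  refine h1.trans ?_
  have h2 := (sum_le_card_nsmul _ _ _ c1)
  rw [nsmul_eq_mul] at h2
  have h3 : (𝓘.card : ℝ) ≤ ((⌊2 * A * Real.log ℓ⌋₊ + 1 : ℕ) : ℝ) * ((M1 : ℕ) : ℝ) := by
    have h3 : 𝓘.card ≤ (⌊2 * A * Real.log ℓ⌋₊ + 1) * M1 := by
      rw [h𝓘]
      refine (card_le_card (filter_subset _ _)).trans ?_
      rw [card_product, card_range, card_range]
    exact_mod_cast h3
  have h4 : (𝓘.card : ℝ) * (((ℓ ^ (-(δ / 2))) ^ 1 + 1 / ℓ ^ 1) * (ab k 1 H).card) ≤ ε / 2 * (ab k 1 H).card := by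
    rw [← mul_assoc]
    apply mul_le_mul_of_nonneg_right _ hN0
    refine (mul_le_mul_of_nonneg_right h3 (by positivity)).trans g2
  linarith

theorem t (hSW : SWU) : S_LPR := by
  classical
  intro k A A' M1 K hk δ ε hδ hδ1 hε
  filter_upwards [prim_gridP hSW k A A' M1 K hk δ ε hδ hδ1 hε] with H hH
  intro P hP
  refine ⟨(ab k 1 H).filter (fun b => ¬ GoodP k A M1 K δ (Real.log H) H (Yh H) P b), filter_subset _ _, ?_, ?_⟩
  · refine le_trans (le_of_eq ?_) (hH P hP)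
    congr!
  · intro b hb hnb
    rw [mem_filter, not_and, not_not] at hnb
    exact hnb hb

end Pool.Agent.H12L.LPR
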