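import Pool.Agent.H12L.Stm
import Pool.Agent.H12P.PYP

/-!
# Project LS (helper12), stub LPY (helper63): the constants for prime arguments cut at different points, low range
-/

set_option autoImplicit false

namespace Pool.Agent.H12L.LPY

open Finset Filter
open Pool.Agent.H373R2.T7 (lamz pz Vz mem_pz)
open Pool.Agent.H13K
open Pool.Agent.H13K.LOWC (om_deg)
open Pool.Agent.H12P (om1 C1)
open Pool.Agent.H12P.LOWCP (om1_sub)
open Pool.Agent.H12P.PYP (om_split zero_count prod_ge split_prod)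

/-- the number of the primes `> z` dividing the constant terms -/
lemma few {m : ℕ} {dd : Fin m → ℕ} {H z : ℕ} (hz : 1 ≤ z)
    {a : ∀ i : Fin m, Fin (dd i + 1) → ℤ} (ha : a ∈ bx dd H) (h0 : ∀ i, a i 0 ≠ 0) (S : Finset ℕ)
    (hS : ∀ p ∈ S, p.Prime ∧ z < p ∧ (p : ℤ) ∣ ∏ i, a i 0) : (S.card : ℝ) * Real.log z ≤ m * Real.log H := by
  set N : ℕ := (∏ i, a i 0).natAbs with hN
  have hN0 : N ≠ 0 := by
    rw [hN, Int.natAbs_ne_zero]
    exact prod_ne_zero_iff.mpr fun i _ => h0 i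
  have h1 : ∏ p ∈ S, p ∣ N := by
    refine Finset.prod_primes_dvd N (fun p hp => (hS p hp).1.prime) fun p hp => ?_
    rw [hN]
    exact Int.natCast_dvd.mp (hS p hp).2.2
  have h2 : z ^ S.card ≤ ∏ p ∈ S, p := by
    rw [← prod_const]
    exact prod_le_prod' fun p hp => (hS p hp).2.1.le
  have h3 : N ≤ H ^ m := by
    have h4 : N = ∏ i, (a i 0).natAbs := by
      rw [hN]
      exact map_prod Int.natAbsHom _ _
    rw [h4]
    calc ∏ i, (a i 0).natAbs ≤ ∏ _i : Fin m, H := prod_le_prod' fun i _ => by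
          unfold bx at ha
          have h5 := (Fintype.mem_piFinset.1 ((Fintype.mem_piFinset.1 ha) i)) 0
          rw [mem_Icc] at h5
          omega
      _ = H ^ m := by rw [prod_const, card_univ, Fintype.card_fin]
  have h4 : z ^ S.card ≤ H ^ m := h2.trans ((Nat.le_of_dvd (Nat.pos_of_ne_zero hN0) h1).trans h3)
  rw [← Real.log_pow, ← Real.log_pow]
  have hz' : (0 : ℝ) < z := by exact_mod_cast hz
  exact Real.log_le_log (by positivity) (by exact_mod_cast h4)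

theorem main {m : ℕ} {dd : Fin m → ℕ} {H z Y : ℕ} {κ x : ℝ} (hκ : κ ≤ 1 / 2) (hz3 : 3 ≤ z)
    (hzD : 2 * (∑ i, dd i) + 2 ≤ z)
    (hx0 : 0 ≤ x) (hx1 : x ≤ 1 / 2) (hx : 32 * m ≤ x * Real.log z) (hlog : Real.log H ≤ 16 * z)
    {a : ∀ i : Fin m, Fin (dd i + 1) → ℤ} (ha : a ∈ bx dd H) (h0 : ∀ i, a i 0 ≠ 0) (hpos : 0 < Cz z a) (hzY : z ≤ Y)
    (hPY : |Cz Y a - Cz z a| ≤ κ * Cz z a) :
    |C1 Y a - C1 z a| ≤ (2 * κ + (4 * (∑ i, dd i : ℕ) : ℝ) / z + 2 * x) * C1 z a := by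
  set D0 : ℕ := ∑ i, dd i with hD0
  set S := (pz Y).filter (fun p => z < p) with hS
  have hzr : (3 : ℝ) ≤ z := by exact_mod_cast hz3
  have hSp : ∀ p ∈ S, p.Prime ∧ z < p ∧ p ≤ Y := fun p hp => by
    have h1 := mem_filter.mp hp
    have h2 := mem_pz.mp h1.1
    exact ⟨h2.2, h1.2, h2.1⟩
  have hCY : Cz Y a = Cz z a * ∏ p ∈ S, (1 - (om p a : ℝ) / p) / (1 - 1 / (p : ℝ)) ^ m := split_prod hzY _
  have h1Y : C1 Y a = C1 z a * ∏ p ∈ S, (1 - (om1 p a : ℝ) / (p - 1)) / (1 - 1 / (p : ℝ)) ^ m := split_prod hzY _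
  set PA : ℝ := ∏ p ∈ S, (1 - (om p a : ℝ) / p) / (1 - 1 / (p : ℝ)) ^ m with hPA
  set PB : ℝ := ∏ p ∈ S, (1 - (om1 p a : ℝ) / (p - 1)) / (1 - 1 / (p : ℝ)) ^ m with hPB
  have hPA1 : |PA - 1| ≤ κ := by
    have h1 : Cz Y a - Cz z a = Cz z a * (PA - 1) := by rw [hCY]; ring
    rw [h1, abs_mul, abs_of_pos hpos, mul_comm] at hPY
    exact le_of_mul_le_mul_right hPY hpos
  have hPA2 := abs_le.mp hPA1
  have hPA0 : 0 < PA := by linarith
  -- no prime of `S` divides identically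
  have hom : ∀ p ∈ S, om p a ≠ p := by
    intro p hp h
    have h1 : PA = 0 := by
      rw [hPA]
      refine prod_eq_zero hp ?_
      have h2 : (p : ℝ) ≠ 0 := by exact_mod_cast (hSp p hp).1.ne_zero
      rw [h, div_self h2, sub_self, zero_div]
    linarith
  have homD : ∀ p ∈ S, om p a ≤ D0 := fun p hp => om_deg p (hSp p hp).1 a (hom p hp)
  -- the quotient
  have hfac : ∀ p ∈ S, (3 : ℝ) ≤ p ∧ (z : ℝ) ≤ p - 1 ∧ (om p a : ℝ) ≤ D0 ∧ (D0 : ℝ) ≤ p / 2 := by
    intro p hp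
    have h1 := (hSp p hp).2.1
    have h2 : (z : ℝ) + 1 ≤ p := by exact_mod_cast h1
    have h3 : 2 * (D0 : ℝ) + 2 ≤ z := by exact_mod_cast hzD
    refine ⟨by linarith, by linarith, by exact_mod_cast homD p hp, by linarith⟩
  have hrho : ∀ p ∈ S, (1 - (om1 p a : ℝ) / (p - 1)) / (1 - 1 / (p : ℝ)) ^ m =
      (1 - (om p a : ℝ) / p) / (1 - 1 / (p : ℝ)) ^ m * ((1 - (om1 p a : ℝ) / (p - 1)) / (1 - (om p a : ℝ) / p)) := by
    intro p hp
    obtain ⟨h1, h2, h3, h4⟩ := hfac p hp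
    have h5 : 1 - (om p a : ℝ) / p ≠ 0 := by
      have h6 : (om p a : ℝ) / p ≤ 1 / 2 := by
        rw [div_le_iff₀ (by linarith)]
        linarith
      intro h
      linarith
    rw [div_mul_div_comm, mul_comm (1 - (om p a : ℝ) / p), mul_div_mul_right _ _ h5]
  set PR : ℝ := ∏ p ∈ S, (1 - (om1 p a : ℝ) / (p - 1)) / (1 - (om p a : ℝ) / p) with hPR
  have hPBe : PB = PA * PR := by
    rw [hPB, hPA, hPR, ← prod_mul_distrib]
    exact prod_congr rfl hrho
  -- bounds for the factors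
  have hlow : ∀ p ∈ S, 1 - 4 * (D0 : ℝ) * (1 / (p : ℝ) ^ 2) ≤ (1 - (om1 p a : ℝ) / (p - 1)) / (1 - (om p a : ℝ) / p) ∧
      (1 - (om1 p a : ℝ) / (p - 1)) / (1 - (om p a : ℝ) / p) ≤
        1 + (if (p : ℤ) ∣ ∏ i, a i 0 then 2 / (z : ℝ) else 0) := by
    intro p hp
    obtain ⟨h1, h2, h3, h4⟩ := hfac p hp
    have hp0 : (0 : ℝ) < p := by linarith
    have hp1 : (0 : ℝ) < (p : ℝ) - 1 := by linarith
    have hD : (0 : ℝ) ≤ D0 := Nat.cast_nonneg _
    have ho0 : (0 : ℝ) ≤ om p a := Nat.cast_nonneg _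
    have hpo : (0 : ℝ) < (p : ℝ) - om p a := by linarith
    have e0 : 1 - (om p a : ℝ) / p = ((p : ℝ) - om p a) / p := by
      field_simp
    split_ifs with hd
    · have h5 : (om1 p a : ℝ) = (om p a : ℝ) - 1 := by
        have := ((om_split p (hSp p hp).1 a).1 hd)
        rw [this]
        push_cast
        ring
      have e1 : (1 - (om1 p a : ℝ) / (p - 1)) / (1 - (om p a : ℝ) / p) = 1 + 1 / ((p : ℝ) - 1) := by
        rw [h5, e0]
        field_simp
        ring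
      rw [e1]
      constructor
      · have h6 : 0 ≤ 4 * (D0 : ℝ) * (1 / (p : ℝ) ^ 2) := by positivity
        have h7 : 0 ≤ 1 / ((p : ℝ) - 1) := by positivity
        linarith
      · have h6 : 1 / ((p : ℝ) - 1) ≤ 2 / (z : ℝ) := by
          rw [div_le_div_iff₀ hp1 (by linarith)]
          linarith
        linarith
    · have h5 : (om1 p a : ℝ) = (om p a : ℝ) := by
        rw [((om_split p (hSp p hp).1 a).2 hd)]
      have e1 : (1 - (om1 p a : ℝ) / (p - 1)) / (1 - (om p a : ℝ) / p) =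
          1 - (om p a : ℝ) / (((p : ℝ) - 1) * ((p : ℝ) - om p a)) := by
        rw [h5, e0]
        field_simp
        ring
      rw [e1]
      constructor
      · have h6 : (om p a : ℝ) / (((p : ℝ) - 1) * ((p : ℝ) - om p a)) ≤ 4 * (D0 : ℝ) * (1 / (p : ℝ) ^ 2) := by
          rw [mul_one_div, div_le_div_iff₀ (by positivity) (by positivity)]
          have h7 : (p : ℝ) / 2 ≤ (p : ℝ) - 1 := by linarith
          have h8 : (p : ℝ) / 2 ≤ (p : ℝ) - om p a := by linarith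
          have h9 : (p : ℝ) / 2 * ((p : ℝ) / 2) ≤ ((p : ℝ) - 1) * ((p : ℝ) - om p a) :=
            mul_le_mul h7 h8 (by positivity) hp1.le
          calc (om p a : ℝ) * (p : ℝ) ^ 2 ≤ D0 * (p : ℝ) ^ 2 := mul_le_mul_of_nonneg_right h3 (by positivity)
            _ = 4 * D0 * ((p : ℝ) / 2 * ((p : ℝ) / 2)) := by ring
            _ ≤ _ := mul_le_mul_of_nonneg_left h9 (by positivity)
        linarith
      · have h6 : 0 ≤ (om p a : ℝ) / (((p : ℝ) - 1) * ((p : ℝ) - om p a)) := by positivity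
        linarith
  have hsm : ∀ p ∈ S, 0 ≤ 4 * (D0 : ℝ) * (1 / (p : ℝ) ^ 2) ∧ 4 * (D0 : ℝ) * (1 / (p : ℝ) ^ 2) ≤ 1 := by
    intro p hp
    obtain ⟨h1, h2, h3, h4⟩ := hfac p hp
    have hp0 : (0 : ℝ) < p := by linarith
    refine ⟨by positivity, ?_⟩
    rw [mul_one_div, div_le_one (by positivity)]
    have h5 : 2 * (D0 : ℝ) + 2 ≤ z := by exact_mod_cast hzD
    nlinarith
  have hPR1 : 1 - 4 * (D0 : ℝ) / z ≤ PR := by
    have h1 : 1 - ∑ p ∈ S, 4 * (D0 : ℝ) * (1 / (p : ℝ) ^ 2) ≤ ∏ p ∈ S, (1 - 4 * (D0 : ℝ) * (1 / (p : ℝ) ^ 2)) :=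
      prod_ge hsm
    have h2 : ∏ p ∈ S, (1 - 4 * (D0 : ℝ) * (1 / (p : ℝ) ^ 2)) ≤ PR := by
      rw [hPR]
      exact prod_le_prod (fun p hp => by linarith [(hsm p hp).2]) fun p hp => (hlow p hp).1
    have h3 : ∑ p ∈ S, 4 * (D0 : ℝ) * (1 / (p : ℝ) ^ 2) ≤ 4 * (D0 : ℝ) * (1 / (z : ℝ)) := by
      rw [← mul_sum]
      refine mul_le_mul_of_nonneg_left ?_ (by positivity)
      refine le_trans ?_ (Pool.Agent.H13K.PY.sum_sq (k := z) (n := Y) (by omega))
      refine sum_le_sum_of_subset_of_nonneg (fun p hp => ?_) fun _ _ _ => by positivity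
      rw [mem_Ioc]
      exact ⟨(hSp p hp).2.1, (hSp p hp).2.2⟩
    have h4 : 4 * (D0 : ℝ) / z = 4 * (D0 : ℝ) * (1 / (z : ℝ)) := by ring
    rw [h4]
    linarith
  have hPR2 : PR ≤ 1 + 2 * x := by
    have h1 : PR ≤ ∏ p ∈ S, Real.exp (if (p : ℤ) ∣ ∏ i, a i 0 then 2 / (z : ℝ) else 0) := by
      rw [hPR]
      refine prod_le_prod (fun p hp => ?_) fun p hp => ?_
      · exact le_trans (by linarith [(hsm p hp).2]) (hlow p hp).1
      · refine (hlow p hp).2.trans ?_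
        rw [add_comm]
        exact Real.add_one_le_exp _
    rw [← Real.exp_sum, ← sum_filter, sum_const, nsmul_eq_mul] at h1
    have h2 := few (by omega) ha h0 (S.filter fun p => (p : ℤ) ∣ ∏ i, a i 0) fun p hp =>
      ⟨(hSp p (mem_filter.mp hp).1).1, (hSp p (mem_filter.mp hp).1).2.1, (mem_filter.mp hp).2⟩
    set s : ℝ := ((S.filter fun p : ℕ => (p : ℤ) ∣ ∏ i, a i 0).card : ℝ) with hs
    have hlz : 0 < Real.log z := Real.log_pos (by linarith)
    have hm0 : (0 : ℝ) ≤ m := Nat.cast_nonneg _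
    have hs0 : 0 ≤ s := Nat.cast_nonneg _
    have h3 : s * (2 / z) ≤ x := by
      have hz0 : (0 : ℝ) < z := by linarith
      have h4 : s * Real.log z ≤ m * (16 * z) := h2.trans (mul_le_mul_of_nonneg_left hlog hm0)
      have h5 : s * 2 * Real.log z ≤ x * z * Real.log z := by nlinarith
      have h6 : s * 2 ≤ x * z := le_of_mul_le_mul_right h5 hlz
      rw [mul_div_assoc', div_le_iff₀ hz0]
      exact h6
    have h6 : Real.exp x ≤ 1 + 2 * x := by
      have h7 : 1 - x ≤ Real.exp (-x) := by linarith [Real.add_one_le_exp (-x)]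
      have h8 : Real.exp x * Real.exp (-x) = 1 := by rw [← Real.exp_add]; simp
      have h9 : 0 < Real.exp x := Real.exp_pos x
      have h10 : Real.exp x * (1 - x) ≤ 1 := by
        have h11 := mul_le_mul_of_nonneg_left h7 h9.le
        linarith
      nlinarith
    exact (h1.trans (Real.exp_le_exp.mpr h3)).trans h6
  have hD0' : (0 : ℝ) ≤ D0 := Nat.cast_nonneg _
  have hDz : 0 ≤ 4 * (D0 : ℝ) / z := by positivity
  have hPR3 : |PR - 1| ≤ 4 * (D0 : ℝ) / z + 2 * x := by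
    rw [abs_le]
    constructor <;> linarith
  have hC1 : 0 ≤ C1 z a := by
    unfold C1
    refine prod_nonneg fun p hp => ?_
    have hpp := (mem_pz.mp hp).2
    have h2 : (2 : ℝ) ≤ p := by exact_mod_cast hpp.two_le
    have h3 := om1_sub p hpp a
    have h4 : (om1 p a : ℝ) ≤ (p : ℝ) - 1 := by
      have h5 : om1 p a + 1 ≤ p := by
        have := hpp.two_le
        omega
      have h6 : (om1 p a : ℝ) + 1 ≤ p := by exact_mod_cast h5
      linarith
    have h7 : (om1 p a : ℝ) / (p - 1) ≤ 1 := by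
      rw [div_le_one (by linarith)]
      exact h4
    have h8 : 1 / (p : ℝ) ≤ 1 := by
      rw [div_le_one (by linarith)]
      linarith
    exact div_nonneg (by linarith) (pow_nonneg (by linarith) _)
  have hκ0 : 0 ≤ κ := (abs_nonneg _).trans hPA1
  have hPB1 : |PB - 1| ≤ 2 * κ + 4 * (D0 : ℝ) / z + 2 * x := by
    have h1 : PB - 1 = (PA - 1) * PR + (PR - 1) := by rw [hPBe]; ring
    have h2 : 0 ≤ PR := by
      rw [hPR]
      exact prod_nonneg fun p hp => le_trans (by linarith [(hsm p hp).2]) (hlow p hp).1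
    have h3 : PR ≤ 2 := by linarith
    rw [h1]
    calc |(PA - 1) * PR + (PR - 1)| ≤ |(PA - 1) * PR| + |PR - 1| := abs_add_le _ _
      _ = |PA - 1| * PR + |PR - 1| := by rw [abs_mul, abs_of_nonneg h2]
      _ ≤ κ * 2 + (4 * (D0 : ℝ) / z + 2 * x) := by
        refine add_le_add (mul_le_mul hPA1 h3 h2 hκ0) hPR3
      _ = _ := by ring
  have h1 : C1 Y a - C1 z a = C1 z a * (PB - 1) := by rw [h1Y]; ring
  rw [h1, abs_mul, abs_of_nonneg hC1, mul_comm]
  exact mul_le_mul_of_nonneg_right hPB1 hC1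

theorem t (hPY : S_PY) (hLC : S_LOWC) : S_LPY := by
  classical
  intro m dd hdd ε hε
  obtain ⟨C, z0, hC, hPY⟩ := hPY m dd hdd
  obtain ⟨c, D, hc, hLC⟩ := hLC m dd
  set D0 : ℕ := ∑ i, dd i with hD0
  have hm0 : (0 : ℝ) ≤ m := Nat.cast_nonneg _
  have hD00 : (0 : ℝ) ≤ D0 := Nat.cast_nonneg _
  -- all the conditions hold for large z
  have tz : Tendsto (fun z : ℕ => (z : ℝ)) atTop atTop := tendsto_natCast_atTop_atTop
  have e1 : ∀ᶠ z : ℕ in atTop, C * (z : ℝ) ^ (-(1 / 20) : ℝ) < min (1 / 2) (ε / 8) := by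
    have h1 : Tendsto (fun z : ℕ => C * (z : ℝ) ^ (-(1 / 20) : ℝ)) atTop (nhds (C * 0)) :=
      ((tendsto_rpow_neg_atTop (by norm_num : (0 : ℝ) < 1 / 20)).comp tz).const_mul C
    rw [mul_zero] at h1
    exact h1.eventually_lt_const (by positivity)
  have e2 : ∀ᶠ z : ℕ in atTop, (C + m) * (z : ℝ) ^ (-(1 / 4) : ℝ) < ε := by
    have h1 : Tendsto (fun z : ℕ => (C + m) * (z : ℝ) ^ (-(1 / 4) : ℝ)) atTop (nhds ((C + m) * 0)) :=
      ((tendsto_rpow_neg_atTop (by norm_num : (0 : ℝ) < 1 / 4)).comp tz).const_mul (C + m)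
    rw [mul_zero] at h1
    exact h1.eventually_lt_const hε
  have e3 : ∀ᶠ z : ℕ in atTop, 32 * (m : ℝ) / min (1 / 2) (ε / 8) ≤ Real.log z :=
    (Real.tendsto_log_atTop.comp tz).eventually_ge_atTop _
  have e4 : ∀ᶠ z : ℕ in atTop, 16 * (D0 : ℝ) / ε ≤ z := tz.eventually_ge_atTop _
  have e5 : ∀ᶠ z : ℕ in atTop, max z0 (max 3 (2 * D0 + 2)) ≤ z := eventually_ge_atTop _
  obtain ⟨Z, hZ⟩ := eventually_atTop.mp (e1.and (e2.and (e3.and (e4.and e5))))
  have e6 : ∀ᶠ H : ℕ in atTop, 16 * (Z : ℝ) ≤ Real.log H :=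
    (Real.tendsto_log_atTop.comp tz).eventually_ge_atTop _
  obtain ⟨H0, hH0⟩ := eventually_atTop.mp (e6.and (eventually_ge_atTop 1))
  refine ⟨H0, fun H z hH hlog hzH => ?_⟩
  obtain ⟨hH1, hH2⟩ := hH0 H hH
  have hzZ : Z ≤ z := by
    have : (Z : ℝ) ≤ z := by linarith
    exact_mod_cast this
  obtain ⟨f1, f2, f3, f4, f5⟩ := hZ z hzZ
  have hzz0 : z0 ≤ z := (le_max_left _ _).trans f5
  have hz3 : 3 ≤ z := (le_max_left _ _).trans ((le_max_right _ _).trans f5)
  have hzD : 2 * D0 + 2 ≤ z := (le_max_right _ _).trans ((le_max_right _ _).trans f5)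
  have hzr : (3 : ℝ) ≤ z := by exact_mod_cast hz3
  have hz0 : (0 : ℝ) < z := by linarith
  obtain ⟨g1, g2⟩ := lt_min_iff.mp f1
  set x : ℝ := min (1 / 2) (ε / 8) with hx
  have hx0 : 0 < x := by positivity
  have hbx : (0 : ℝ) ≤ ((bx dd H).card : ℝ) := Nat.cast_nonneg _
  have hq0 : 0 < (z : ℝ) ^ (-(1 / 4) : ℝ) := Real.rpow_pos_of_pos (by linarith) _
  obtain ⟨Bad, hB1, hB2, hB3⟩ := hPY H z hzz0 hH2
  refine ⟨Bad ∪ univ.biUnion (fun i : Fin m => (bx dd H).filter (fun a => a i 0 = 0)), ?_, ?_, ?_⟩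
  · refine union_subset hB1 ?_
    rw [biUnion_subset]
    intro i _
    exact filter_subset _ _
  · have h1 : ((univ.biUnion (fun i : Fin m => (bx dd H).filter (fun a => a i 0 = 0))).card : ℝ) ≤
        m * ((bx dd H).card : ℝ) * (z : ℝ) ^ (-(1 / 4) : ℝ) := by
      have h2 : ∀ i : Fin m, (((bx dd H).filter (fun a => a i 0 = 0)).card : ℝ) ≤
          ((bx dd H).card : ℝ) * (z : ℝ) ^ (-(1 / 4) : ℝ) := by
        intro i
        have h3 : (2 * (H : ℝ) + 1) * (((bx dd H).filter (fun a => a i 0 = 0)).card : ℝ) ≤ ((bx dd H).card : ℝ) := by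
          exact_mod_cast zero_count dd H i
        have h4 : (z : ℝ) ≤ H := by exact_mod_cast hzH
        have h5 : (z : ℝ) * (((bx dd H).filter (fun a => a i 0 = 0)).card : ℝ) ≤ ((bx dd H).card : ℝ) := by
          refine le_trans (mul_le_mul_of_nonneg_right ?_ (Nat.cast_nonneg _)) h3
          linarith
        have h6 : 1 / (z : ℝ) ≤ (z : ℝ) ^ (-(1 / 4) : ℝ) := by
          rw [one_div, ← Real.rpow_neg_one]
          exact Real.rpow_le_rpow_of_exponent_le (by linarith) (by norm_num)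
        calc (((bx dd H).filter (fun a => a i 0 = 0)).card : ℝ) ≤ ((bx dd H).card : ℝ) * (1 / z) := by
              rw [mul_one_div, le_div_iff₀ (by linarith)]
              linarith
          _ ≤ _ := mul_le_mul_of_nonneg_left h6 hbx
      calc ((univ.biUnion (fun i : Fin m => (bx dd H).filter (fun a => a i 0 = 0))).card : ℝ) ≤
            ∑ i : Fin m, (((bx dd H).filter (fun a => a i 0 = 0)).card : ℝ) := by
            exact_mod_cast card_biUnion_le
        _ ≤ ∑ _i : Fin m, ((bx dd H).card : ℝ) * (z : ℝ) ^ (-(1 / 4) : ℝ) := sum_le_sum fun i _ => h2 i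
        _ = m * ((bx dd H).card : ℝ) * (z : ℝ) ^ (-(1 / 4) : ℝ) := by
          rw [sum_const, card_univ, Fintype.card_fin, nsmul_eq_mul, mul_assoc]
    have h2 : ((Bad ∪ univ.biUnion (fun i : Fin m => (bx dd H).filter (fun a => a i 0 = 0))).card : ℝ) ≤
        Bad.card + (univ.biUnion (fun i : Fin m => (bx dd H).filter (fun a => a i 0 = 0))).card := by
      exact_mod_cast card_union_le _ _
    have h3 : (C + m) * (z : ℝ) ^ (-(1 / 4) : ℝ) * ((bx dd H).card : ℝ) ≤ ε * ((bx dd H).card : ℝ) :=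
      mul_le_mul_of_nonneg_right f2.le hbx
    linarith
  · intro a ha haB hom Y hY1 hY2
    rw [mem_union, not_or] at haB
    have h0 : ∀ i, a i 0 ≠ 0 := by
      intro i hi
      exact haB.2 (mem_biUnion.mpr ⟨i, mem_univ _, mem_filter.mpr ⟨ha, hi⟩⟩)
    have hpos : 0 < Cz z a := by
      refine lt_of_lt_of_le ?_ ((hLC z a hz3).2.2 hom)
      have : 0 < Real.log z := Real.log_pos (by linarith)
      positivity
    have hx1 : x ≤ 1 / 2 := min_le_left _ _
    have hx2 : x ≤ ε / 8 := min_le_right _ _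
    have hx3 : 32 * (m : ℝ) ≤ x * Real.log z := by
      rw [div_le_iff₀ hx0] at f3
      linarith
    have h1 := main g1.le hz3 hzD hx0.le hx1 hx3 hlog ha h0 hpos hY1 (hB3 a ha haB.1 Y hY1 hY2)
    have hC1 : 0 ≤ C1 z a := by
      by_contra hcon
      have h2 : |C1 Y a - C1 z a| < 0 := by
        refine lt_of_le_of_lt h1 ?_
        refine mul_neg_of_pos_of_neg ?_ (not_le.mp hcon)
        have : 0 < (z : ℝ) ^ (-(1 / 20) : ℝ) := Real.rpow_pos_of_pos (by linarith) _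
        have h3 : (0 : ℝ) ≤ (4 * (∑ i, dd i : ℕ) : ℝ) / z := by positivity
        have h4 : 0 ≤ C * (z : ℝ) ^ (-(1 / 20) : ℝ) := by positivity
        linarith
      exact absurd (abs_nonneg _) (not_le.mpr h2)
    refine h1.trans (mul_le_mul_of_nonneg_right ?_ hC1)
    have h4 : (4 * (∑ i, dd i : ℕ) : ℝ) / z ≤ ε / 4 := by
      rw [div_le_iff₀ hz0]
      rw [div_le_iff₀ hε] at f4
      linarith
    linarith

end Pool.Agent.H12L.LPY
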