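import Pool.Agent.H12L.Stm
import Pool.Agent.H12P.SMP

/-!
# Project LS (helper12), stub LSM: the second moment at the low scales (helper92; adaptation of
`H12P/SMP.lean` by helper95)
-/

set_option autoImplicit false

namespace Pool.Agent.H12L.LSM

open Finset
open Pool.Agent.H373R2.T7 (lamz pz Vz Vz_pos)
open Pool.Agent.H13K
open Pool.Agent.H12P
open Pool.Agent.H12P.SMP (second log_ge ph_pos th_nonneg th_le)

theorem t (hVZ : S_VZ) (hFL : S_FL) (hCRT : S_CRTP) (hAV : S_AVP) (hSWT : S_LSW) (hVAR : S_LVA)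
    (hLOW : S_LOWCP) : S_LSM := by
  obtain ⟨C, hC, hVZ⟩ := hVZ
  intro m dd A hdd
  obtain ⟨H1, hH1⟩ := hFL m dd 1 (A + 5) hdd
  obtain ⟨Q2, N2, hN2⟩ := hSWT 0 (A + 2 * m + 5)
  obtain ⟨Q3, N3, hN3⟩ := hVAR m (A + 1)
  obtain ⟨c0, D0, -, hLOW⟩ := hLOW m dd
  obtain ⟨H4, hH4⟩ := log_ge (Real.exp (C + 8) + (N2 + N3))
  refine ⟨Q2 + Q3, max H1 H4, ?_⟩
  intro H hH z hz3 hz N hNB hNH hzN
  have hF := hH1 H ((le_max_left _ _).trans hH) z (by rw [pow_one]; exact hz)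
  have hL' := hH4 H ((le_max_right _ _).trans hH)
  set L : ℝ := Real.log H with hLdef
  have hL : Real.exp (C + 8) ≤ L := by
    have h1 : (0 : ℝ) ≤ N2 := Nat.cast_nonneg _
    have h2 : (0 : ℝ) ≤ N3 := Nat.cast_nonneg _
    linarith
  have hNN2 : N2 ≤ N := by
    have h1 : (0 : ℝ) ≤ N3 := Nat.cast_nonneg _
    have h2 : 0 < Real.exp (C + 8) := Real.exp_pos _
    exact_mod_cast (by linarith : (N2 : ℝ) ≤ N)
  have hNN3 : N3 ≤ N := by
    have h1 : (0 : ℝ) ≤ N2 := Nat.cast_nonneg _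
    have h2 : 0 < Real.exp (C + 8) := Real.exp_pos _
    exact_mod_cast (by linarith : (N3 : ℝ) ≤ N)
  have hL8 : C + 8 ≤ Real.log L := by
    rw [← Real.log_exp (C + 8)]
    exact Real.log_le_log (Real.exp_pos _) hL
  have hL1 : 1 ≤ L := by
    have : (1 : ℝ) ≤ Real.exp (C + 8) := Real.one_le_exp (by linarith)
    linarith
  have hL0 : 0 < L := by linarith
  have hNL : L ≤ N := hNB
  have hN0 : (0 : ℝ) < N := by linarith
  have hN1 : 1 ≤ N := by exact_mod_cast (by linarith : (1 : ℝ) ≤ N)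
  set ℓ : ℝ := Real.log N with hℓ
  have hℓL : ℓ ≤ L := Real.log_le_log hN0 (by exact_mod_cast hNH)
  have hℓC : C + 8 ≤ ℓ := hL8.trans (Real.log_le_log hL0 hNL)
  have hℓ0 : 0 < ℓ := by linarith
  have hℓ8 : 8 ≤ ℓ := by linarith
  have hℓ1 : 1 ≤ ℓ := by linarith
  have hS := hN2 z N hNN2 (le_trans (mul_le_mul_of_nonneg_left
    (pow_le_pow_right₀ hℓ1 (Nat.le_add_right Q2 Q3)) (Nat.cast_nonneg z)) hzN) 1 le_rfl (by simp) 0 (by simp)
  have hV := hN3 z N hNN3 (le_trans (mul_le_mul_of_nonneg_left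
    (pow_le_pow_right₀ hℓ1 (Nat.le_add_left Q3 Q2)) (Nat.cast_nonneg z)) hzN)
  -- the sieve factor
  set V : ℝ := (Vz z)⁻¹ with hVdef
  have hV0 : 0 < V := inv_pos.mpr (Vz_pos z)
  have hVℓ : V ≤ ℓ ^ 2 := by
    have h1 := hVZ z (by omega)
    have h2 : Real.log z ≤ ℓ := by
      apply Real.log_le_log (by exact_mod_cast (by omega : 0 < z))
      exact hz.trans hNL
    calc V ≤ C * Real.log z := h1
      _ ≤ ℓ * ℓ := by
          apply mul_le_mul (by linarith) h2 _ (by linarith)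
          exact Real.log_nonneg (by exact_mod_cast (by omega : 1 ≤ z))
      _ = ℓ ^ 2 := by ring
  have hVm : V ^ m ≤ ℓ ^ (2 * m) := by
    rw [pow_mul]
    exact pow_le_pow_left₀ hV0.le hVℓ m
  -- the sum of the weights
  set θ : ℝ := ∑ n ∈ Icc 1 N, th z n with hθ
  have hθ0 : 0 ≤ θ := sum_nonneg fun n _ => th_nonneg z n
  have hθN : |θ - N| ≤ N / ℓ ^ (A + 2 * m + 5) := by
    have h1 : (Icc 1 N).filter (fun n => n ≡ 0 [MOD 1]) = Icc 1 N :=
      filter_true_of_mem fun n _ => Nat.modEq_one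
    rw [h1, Nat.totient_one, Nat.cast_one, div_one] at hS
    exact hS
  have hθle : θ ≤ N * ℓ := by
    calc θ ≤ ∑ _n ∈ Icc 1 N, ℓ := sum_le_sum fun n hn => th_le z n N (mem_Icc.mp hn).2 hN1
      _ = N * ℓ := by rw [sum_const, Nat.card_Icc, Nat.add_sub_cancel, nsmul_eq_mul]
  set X : ℝ := ((bx dd H).card : ℝ) with hX
  have hX0 : 0 ≤ X := by rw [hX]; positivity
  have hφ := ph_pos z
  set c : ℝ := θ / ph z with hc
  have hcφ : c * ph z = θ := by rw [hc]; field_simp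
  have hc0 : 0 ≤ c := by positivity
  -- the main second moment
  have hsec := second (bx dd H) (fun a x => sf z a x) (Icc 1 N) (RP z) (th z) c X (X / L ^ (A + 5))
    (Ym m z) (th_nonneg z) hc0 hF
  have hcard : ((RP z).card : ℝ) = ph z := by
    have h1 := hCRT m dd z (fun _ _ => 0)
    exact h1.1
  have hsum : ∀ a ∈ bx dd H, ∑ n ∈ Icc 1 N, th z n * sf z a (n : ℤ) - c * ∑ α ∈ RP z, sf z a (α : ℤ) =
      ∑ n ∈ Icc 1 N, th z n * sf z a (n : ℤ) - θ * C1 z a := by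
    intro a _
    rw [(hCRT m dd z a).2, ← mul_assoc, hcφ]
  have m2 : ∑ n ∈ Icc 1 N, ∑ α ∈ RP z, th z n * Ym m z ((n : ℤ) - α) = θ * (ph z * Y1 m z) := by
    rw [hθ, sum_mul]
    refine sum_congr rfl fun n _ => ?_
    rw [← mul_sum]
    by_cases h : th z n = 0
    · rw [h, zero_mul, zero_mul]
    · rw [hAV m z (n : ℤ)]
      intro p hp hpn
      apply h
      unfold th
      rw [if_neg]
      rintro ⟨h1, h2⟩
      have h3 : p ∣ n := by exact_mod_cast hpn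
      unfold pz at hp
      rw [mem_filter, mem_Icc] at hp
      rcases (Nat.dvd_prime h1).mp h3 with h4 | h4
      · rw [h4] at hp
        exact Nat.not_prime_one hp.2
      · omega
  have m3 : ∑ α ∈ RP z, ∑ α' ∈ RP z, Ym m z ((α : ℤ) - α') = ph z * (ph z * Y1 m z) := by
    have h : ∀ n ∈ RP z, ∑ α ∈ RP z, Ym m z ((n : ℤ) - α) = ph z * Y1 m z := by
      intro n hn
      refine hAV m z (n : ℤ) fun p hp hpn => ?_
      unfold RP at hn
      have h3 : p ∣ n := by exact_mod_cast hpn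
      exact (mem_filter.mp hn).2 p hp h3
    rw [sum_congr rfl h, sum_const, nsmul_eq_mul, hcard]
  have m1 : ∑ n ∈ Icc 1 N, ∑ n' ∈ Icc 1 N, th z n * th z n' * Ym m z ((n : ℤ) - n') ≤
      θ ^ 2 * Y1 m z + (N : ℝ) ^ 2 / ℓ ^ (A + 1) := by
    have h : ∑ n ∈ Icc 1 N, ∑ n' ∈ Icc 1 N, th z n * th z n' * (Ym m z ((n : ℤ) - n') - Y1 m z) =
        ∑ n ∈ Icc 1 N, ∑ n' ∈ Icc 1 N, th z n * th z n' * Ym m z ((n : ℤ) - n') - θ ^ 2 * Y1 m z := by
      rw [sq, hθ, sum_mul_sum, sum_mul, ← sum_sub_distrib]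
      refine sum_congr rfl fun n _ => ?_
      rw [sum_mul, ← sum_sub_distrib]
      refine sum_congr rfl fun n' _ => ?_
      ring
    linarith [hV]
  rw [m2, m3, hcard, hcφ] at hsec
  have e2 : 2 * c * (θ * (ph z * Y1 m z)) = 2 * (θ ^ 2 * Y1 m z) := by
    have : 2 * c * (θ * (ph z * Y1 m z)) = 2 * ((c * ph z) * θ * Y1 m z) := by ring
    rw [this, hcφ]; ring
  have e3 : c ^ 2 * (ph z * (ph z * Y1 m z)) = θ ^ 2 * Y1 m z := by
    have : c ^ 2 * (ph z * (ph z * Y1 m z)) = (c * ph z) ^ 2 * Y1 m z := by ring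
    rw [this, hcφ]
  rw [e2, e3, sum_congr rfl fun a ha => by rw [hsum a ha]] at hsec
  have hN2 : 0 ≤ (N : ℝ) ^ 2 := by positivity
  have hA0 : 0 < ℓ ^ A := by positivity
  set T : ℝ := X * (N : ℝ) ^ 2 / ℓ ^ A with hT
  have hT0 : 0 ≤ T := by positivity
  have b1 : X * ((N : ℝ) ^ 2 / ℓ ^ (A + 1)) ≤ T / 8 := by
    have : X * ((N : ℝ) ^ 2 / ℓ ^ (A + 1)) = X * (N : ℝ) ^ 2 / ℓ ^ A / ℓ := by
      rw [pow_succ ℓ A]
      field_simp
    rw [hT, this]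
    gcongr
  have b2 : X / L ^ (A + 5) * (θ + θ) ^ 2 ≤ T / 8 := by
    have h1 : (θ + θ) ^ 2 ≤ 4 * ((N : ℝ) * L) ^ 2 := by
      have : θ ≤ N * L := hθle.trans (by gcongr)
      nlinarith
    have h2 : ℓ ^ A ≤ L ^ A := pow_le_pow_left₀ hℓ0.le hℓL A
    have hL8' : 8 ≤ L := hℓ8.trans hℓL
    calc X / L ^ (A + 5) * (θ + θ) ^ 2 ≤ X / L ^ (A + 5) * (4 * ((N : ℝ) * L) ^ 2) := by gcongr
      _ = (X * (N : ℝ) ^ 2 / L ^ A) * (4 / L ^ 3) := by
          have e : L ^ (A + 5) = L ^ A * L ^ 3 * L ^ 2 := by ring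
          rw [e]
          field_simp
      _ ≤ (X * (N : ℝ) ^ 2 / ℓ ^ A) * (1 / 8) := by
          apply mul_le_mul
          · gcongr
          · rw [div_le_div_iff₀ (by positivity) (by norm_num)]
            nlinarith [pow_le_pow_left₀ (by norm_num : (0 : ℝ) ≤ 8) hL8' 3]
          · positivity
          · positivity
      _ = T / 8 := by rw [hT]; ring
  have hmain : ∑ a ∈ bx dd H, (∑ n ∈ Icc 1 N, th z n * sf z a (n : ℤ) - θ * C1 z a) ^ 2 ≤ T / 4 := by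
    have f1 := mul_le_mul_of_nonneg_left m1 hX0
    nlinarith [hsec, f1, b1, b2]
  -- the second part
  have hsq : ∀ a ∈ bx dd H, (C1 z a * (θ - N)) ^ 2 ≤ (N : ℝ) ^ 2 / ℓ ^ A / 8 := by
    intro a _
    obtain ⟨h1, h2, -⟩ := hLOW z a hz3
    have h3 : |C1 z a * (θ - N)| ≤ N / ℓ ^ (A + 5) := by
      rw [abs_mul, abs_of_nonneg h1]
      calc C1 z a * |θ - N| ≤ ℓ ^ (2 * m) * (N / ℓ ^ (A + 2 * m + 5)) := by
            apply mul_le_mul (h2.trans hVm) hθN (abs_nonneg _) (by positivity)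
        _ = N / ℓ ^ (A + 5) := by
            rw [show A + 2 * m + 5 = 2 * m + (A + 5) by ring, pow_add]
            field_simp
    calc (C1 z a * (θ - N)) ^ 2 = |C1 z a * (θ - N)| ^ 2 := (sq_abs _).symm
      _ ≤ (N / ℓ ^ (A + 5)) ^ 2 := pow_le_pow_left₀ (abs_nonneg _) h3 2
      _ = (N : ℝ) ^ 2 / ℓ ^ A / (ℓ ^ A * ℓ ^ 10) := by
          rw [div_pow]
          field_simp
          ring
      _ ≤ (N : ℝ) ^ 2 / ℓ ^ A / 8 := by
          apply div_le_div_of_nonneg_left (by positivity) (by norm_num)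
          have h4 : 1 ≤ ℓ ^ A := one_le_pow₀ hℓ1
          have h5 : ℓ ≤ ℓ ^ 10 := le_self_pow₀ hℓ1 (by norm_num)
          nlinarith
  have hrew : ∀ a ∈ bx dd H, (∑ n ∈ Icc 1 N, (th z n * sf z a (n : ℤ) - C1 z a)) ^ 2 ≤
      2 * (∑ n ∈ Icc 1 N, th z n * sf z a (n : ℤ) - θ * C1 z a) ^ 2 + 2 * (C1 z a * (θ - N)) ^ 2 := by
    intro a _
    have h1 : ∑ n ∈ Icc 1 N, (th z n * sf z a (n : ℤ) - C1 z a) =
        (∑ n ∈ Icc 1 N, th z n * sf z a (n : ℤ) - θ * C1 z a) + C1 z a * (θ - N) := by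
      rw [sum_sub_distrib, sum_const, Nat.card_Icc, Nat.add_sub_cancel, nsmul_eq_mul]
      ring
    rw [h1]
    nlinarith [sq_nonneg ((∑ n ∈ Icc 1 N, th z n * sf z a (n : ℤ) - θ * C1 z a) - C1 z a * (θ - N))]
  calc ∑ a ∈ bx dd H, (∑ n ∈ Icc 1 N, (th z n * sf z a (n : ℤ) - C1 z a)) ^ 2
      ≤ ∑ a ∈ bx dd H, (2 * (∑ n ∈ Icc 1 N, th z n * sf z a (n : ℤ) - θ * C1 z a) ^ 2 +
          2 * ((N : ℝ) ^ 2 / ℓ ^ A / 8)) := by
        refine sum_le_sum fun a ha => (hrew a ha).trans ?_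
        have := hsq a ha
        linarith
    _ = 2 * ∑ a ∈ bx dd H, (∑ n ∈ Icc 1 N, th z n * sf z a (n : ℤ) - θ * C1 z a) ^ 2 +
        X * (2 * ((N : ℝ) ^ 2 / ℓ ^ A / 8)) := by
        rw [sum_add_distrib, ← mul_sum, sum_const, nsmul_eq_mul]
    _ ≤ 2 * (T / 4) + T / 4 := by
        have : X * (2 * ((N : ℝ) ^ 2 / ℓ ^ A / 8)) = T / 4 := by rw [hT]; ring
        rw [this]
        gcongr
    _ ≤ T := by linarith

end Pool.Agent.H12L.LSM
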