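import Pool.Agent.H12L.Stm

/-!
# Siegel-Walfisz with the small primes left out
-/

set_option autoImplicit false

namespace Pool.Agent.H12L.LSW

open Finset Pool.Agent.H12P

theorem t : S_SWT → S_LSW := by
  intro hS D A
  obtain ⟨B, H0, h⟩ := hS 0 D (A + 1)
  obtain ⟨N1, hN1⟩ := exists_nat_ge (Real.log ((max H0 3 : ℕ) : ℝ) ^ B)
  refine ⟨A + 2, max N1 8, ?_⟩
  intro z N hN hz e he1 heD c hc
  have hN1' : N1 ≤ N := (le_max_left _ _).trans hN
  have hN8 : 8 ≤ N := (le_max_right _ _).trans hN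
  have hNr : (8 : ℝ) ≤ N := by exact_mod_cast hN8
  have hL : 2 ≤ Real.log N := by
    have h1 : Real.log 8 ≤ Real.log N := Real.log_le_log (by norm_num) hNr
    have h2 : Real.log 8 = 3 * Real.log 2 := by
      rw [show (8 : ℝ) = 2 ^ 3 by norm_num, Real.log_pow]
      norm_num
    have h3 := Real.log_two_gt_d9
    linarith
  have hL0 : 0 < Real.log N := by linarith
  have k1 := h (max H0 3) (le_max_left _ _) 1 (by simp) N (hN1.trans (by exact_mod_cast hN1')) e he1 heD c hc
  set S : Finset ℕ := (Icc 1 N).filter (fun n => n ≡ c [MOD e]) with hSd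
  have hle : ∀ n ∈ S, th z n ≤ th 1 n := by
    intro n _
    unfold th
    by_cases hp : n.Prime
    · rw [if_pos (show n.Prime ∧ 1 < n from ⟨hp, hp.one_lt⟩)]
      have h0 : 0 ≤ Real.log n := Real.log_natCast_nonneg n
      split_ifs
      · exact le_rfl
      · exact h0
    · rw [if_neg (fun hh => hp hh.1), if_neg (fun hh => hp hh.1)]
  have hdiff : ∀ n ∈ S, th 1 n - th z n ≤ if n ≤ z then Real.log N else 0 := by
    intro n hn
    have hnN : n ≤ N := (mem_Icc.1 (mem_filter.1 hn).1).2
    unfold th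
    by_cases hp : n.Prime
    · rw [if_pos (show n.Prime ∧ 1 < n from ⟨hp, hp.one_lt⟩)]
      by_cases hzn : z < n
      · rw [if_pos ⟨hp, hzn⟩, if_neg (by omega)]
        linarith
      · rw [if_neg (fun hh => hzn hh.2), if_pos (by omega), sub_zero]
        exact Real.log_le_log (by exact_mod_cast hp.pos) (by exact_mod_cast hnN)
    · rw [if_neg (fun hh => hp hh.1), if_neg (fun hh => hp hh.1), sub_zero]
      split_ifs
      · exact hL0.le
      · exact le_rfl
  have hs1 : ∑ n ∈ S, th z n ≤ ∑ n ∈ S, th 1 n := sum_le_sum hle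
  have hs2 : ∑ n ∈ S, th 1 n - ∑ n ∈ S, th z n ≤ z * Real.log N := by
    rw [← sum_sub_distrib]
    refine (sum_le_sum hdiff).trans ?_
    rw [← sum_filter, sum_const, nsmul_eq_mul]
    apply mul_le_mul_of_nonneg_right _ hL0.le
    have hsub : S.filter (fun n => n ≤ z) ⊆ Icc 1 z := by
      intro n hn
      rw [mem_filter] at hn
      have h1 := mem_Icc.1 (mem_filter.1 hn.1).1
      exact mem_Icc.2 ⟨h1.1, hn.2⟩
    have h2 := card_le_card hsub
    rw [Nat.card_Icc, Nat.add_sub_cancel] at h2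
    exact_mod_cast h2
  have hz2 : z * Real.log N ≤ N / Real.log N ^ (A + 1) := by
    rw [le_div_iff₀ (pow_pos hL0 _)]
    calc z * Real.log N * Real.log N ^ (A + 1) = z * Real.log N ^ (A + 2) := by ring
      _ ≤ N := hz
  have h2 : 2 * (N / Real.log N ^ (A + 1)) ≤ N / Real.log N ^ A := by
    rw [pow_succ, ← mul_div_assoc, div_le_div_iff₀ (by positivity) (by positivity)]
    have h3 : 0 ≤ (N : ℝ) * Real.log N ^ A := by positivity
    nlinarith
  rw [abs_le] at k1 ⊢
  constructor
  · linarith [k1.1]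
  · linarith [k1.2]

end Pool.Agent.H12L.LSW
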