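import Pool.Agent.H12L.Stm
import Pool.Agent.H12P.VARP

/-!
# LVA: the variance of the primes in progressions, for `z (log N)^Q ≤ N` (project LS)
-/

set_option autoImplicit false

namespace Pool.Agent.H12L.LVA

open Finset
open Pool.Agent.H373R2.T7 (lamz pz Vz mem_pz prod_dvd_iff)
open Pool.Agent.H13K
open Pool.Agent.H13K.AV (ga ga_nonneg Ym_eq prod_pos')
open Pool.Agent.H12P (th)
open Pool.Agent.H12P.VARP

theorem t : S_VZ → S_LSW → S_LVA := by
  intro hVZ hSW m A
  obtain ⟨C, hC1, hC⟩ := hVZ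
  obtain ⟨Q, H1, h1⟩ := hSW (A + m + 5) (A + m + 5 + (A + m + 5))
  -- largeness of N
  have hN0 : ∃ N0 : ℕ, ∀ N : ℕ, N0 ≤ N → 4 ≤ Real.log N ∧ C ^ m ≤ Real.log N ∧ Real.log N ^ (A + m + 5) ≤ N := by
    have e1 : ∀ᶠ x : ℝ in Filter.atTop, 4 ≤ Real.log x := Real.tendsto_log_atTop.eventually_ge_atTop 4
    have e2 : ∀ᶠ x : ℝ in Filter.atTop, C ^ m ≤ Real.log x := Real.tendsto_log_atTop.eventually_ge_atTop _
    have e3 : ∀ᶠ x : ℝ in Filter.atTop, Real.log x ^ (A + m + 5) ≤ x := by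
      have h := (Real.isLittleO_pow_log_id_atTop (n := A + m + 5)).bound (c := 1) (by norm_num)
      filter_upwards [h, Filter.eventually_ge_atTop 1] with x hx hx1
      rw [one_mul, id, Real.norm_eq_abs, Real.norm_eq_abs, abs_of_nonneg (by linarith : (0:ℝ) ≤ x)] at hx
      exact le_trans (le_abs_self _) hx
    have e4 := tendsto_natCast_atTop_atTop.eventually ((e1.and e2).and e3)
    obtain ⟨N0, hN0⟩ := Filter.eventually_atTop.1 e4
    exact ⟨N0, fun N hN => ⟨(hN0 N hN).1.1, (hN0 N hN).1.2, (hN0 N hN).2⟩⟩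
  obtain ⟨N0, hN0⟩ := hN0
  refine ⟨Q, max H1 (max N0 3), fun z N hN hz => ?_⟩
  have hNN0 : N0 ≤ N := le_trans (le_trans (le_max_left _ _) (le_max_right _ _)) hN
  have hN3 : 3 ≤ N := le_trans (le_trans (le_max_right _ _) (le_max_right _ _)) hN
  obtain ⟨hl4, hlC, hlD⟩ := hN0 N hNN0
  set l := Real.log N with hl
  have hl1 : 1 ≤ l := by linarith
  have hl0 : 0 < l := by linarith
  have hN1 : 1 ≤ N := by omega
  have hNr : (1 : ℝ) ≤ N := by exact_mod_cast hN1
  have hzN : (z : ℝ) ≤ N := by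
    refine le_trans ?_ hz
    exact le_mul_of_one_le_right (Nat.cast_nonneg _) (one_le_pow₀ hl1)
  have h1' := h1 z N (le_trans (le_max_left _ _) hN) hz
  -- the weights
  have hVz : ((Vz z)⁻¹) ^ m ≤ l ^ (m + 1) := by
    by_cases h2z : 2 ≤ z
    · have h3 : (2 : ℝ) ≤ z := by exact_mod_cast h2z
      have h4 : Real.log z ≤ l := Real.log_le_log (by linarith) hzN
      have h5 : (Vz z)⁻¹ ≤ C * l := le_trans (hC z h2z) (mul_le_mul_of_nonneg_left h4 (by linarith))
      have h6 : 0 ≤ (Vz z)⁻¹ := by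
        apply inv_nonneg.2
        unfold Vz
        apply Finset.prod_nonneg
        intro p hp
        have : (2 : ℝ) ≤ p := by exact_mod_cast (mem_pz.1 hp).2.two_le
        have : 1 / (p : ℝ) ≤ 1 := by
          rw [div_le_one (by linarith)]
          linarith
        linarith
      calc ((Vz z)⁻¹) ^ m ≤ (C * l) ^ m := pow_le_pow_left₀ h6 h5 m
        _ = C ^ m * l ^ m := mul_pow _ _ _
        _ ≤ l * l ^ m := mul_le_mul_of_nonneg_right hlC (pow_nonneg hl0.le _)
        _ = _ := by ring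
    · have h3 : pz z = ∅ := by
        rw [Finset.eq_empty_iff_forall_notMem]
        intro p hp
        have := (mem_pz.1 hp).2.two_le
        have := (mem_pz.1 hp).1
        omega
      have h4 : Vz z = 1 := by
        unfold Vz
        rw [h3, Finset.prod_empty]
      rw [h4, inv_one, one_pow]
      exact one_le_pow₀ hl1
  -- the total
  have hθ : |∑ n ∈ Icc 1 N, th z n - N| ≤ N / l ^ (A + m + 5 + (A + m + 5)) := by
    have h2 := h1' 1 le_rfl (by rw [Nat.cast_one]; exact one_le_pow₀ hl1) 0 (Nat.coprime_one_right 0)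
    rw [Nat.totient_one, Nat.cast_one, div_one] at h2
    have h3 : (Icc 1 N).filter (fun n => n ≡ 0 [MOD 1]) = Icc 1 N := by
      apply Finset.filter_true_of_mem
      intro n _
      exact Nat.modEq_one
    rwa [h3] at h2
  have hθ2 : ∑ n ∈ Icc 1 N, th z n ≤ 2 * N := by
    have h2 : (N : ℝ) / l ^ (A + m + 5 + (A + m + 5)) ≤ N := div_le_self (by linarith) (one_le_pow₀ hl1)
    have h3 := (abs_le.1 hθ).2
    linarith
  have hterm : ∀ S ∈ (pz z).powerset, ∑ c ∈ range (∏ p ∈ S, p), Th (th z) N (∏ p ∈ S, p) c ^ 2 -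
          (∑ n ∈ Icc 1 N, th z n) ^ 2 / (Nat.totient (∏ p ∈ S, p) : ℝ) ≤ 4 * (N : ℝ) ^ 2 / l ^ (A + m + 4) := by
    intro S hS
    rw [Finset.mem_powerset] at hS
    rcases le_total (((∏ p ∈ S, p : ℕ) : ℝ)) (l ^ (A + m + 5)) with h2 | h2
    · have h3 := small z N S hS (N / l ^ (A + m + 5 + (A + m + 5))) (l ^ (A + m + 5)) (by positivity) hθ
        (fun c hc => h1' (∏ p ∈ S, p) (prod_pos' hS) h2 c hc) h2
      refine le_trans h3 ?_
      have h4 : l ^ (A + m + 5) * (2 * (N / l ^ (A + m + 5 + (A + m + 5)))) ^ 2 =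
          4 * (N : ℝ) ^ 2 / (l ^ (A + m + 4) * l ^ (2 * A + 2 * m + 11)) := by
        rw [← pow_add]
        field_simp
        ring
      rw [h4]
      apply div_le_div_of_nonneg_left (by positivity) (by positivity)
      calc l ^ (A + m + 4) = l ^ (A + m + 4) * 1 := by ring
        _ ≤ _ := mul_le_mul_of_nonneg_left (one_le_pow₀ hl1) (by positivity)
    · have h3 := large z N S hS hN1 (l ^ (A + m + 5)) (by positivity) hθ2 h2
      refine le_trans h3 ?_
      have h4 : 1 ≤ (N : ℝ) / l ^ (A + m + 5) := by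
        rw [le_div_iff₀ (by positivity), one_mul]
        exact hlD
      calc Real.log N * (N / l ^ (A + m + 5) + 1) * (2 * N)
          ≤ Real.log N * (N / l ^ (A + m + 5) + N / l ^ (A + m + 5)) * (2 * N) := by
            apply mul_le_mul_of_nonneg_right _ (by positivity)
            apply mul_le_mul_of_nonneg_left _ hl0.le
            linarith
        _ = _ := by
            rw [← hl, pow_succ l (A + m + 4)]
            field_simp
            ring
  rw [main_eq]
  calc _ ≤ ∑ S ∈ (pz z).powerset, (∏ p ∈ S, ga m p) * (4 * (N : ℝ) ^ 2 / l ^ (A + m + 4)) := by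
        apply Finset.sum_le_sum
        intro S hS
        apply mul_le_mul_of_nonneg_left (hterm S hS)
        rw [Finset.mem_powerset] at hS
        exact Finset.prod_nonneg fun p hp => ga_nonneg m (hS hp)
    _ = ((Vz z)⁻¹) ^ m * (4 * (N : ℝ) ^ 2 / l ^ (A + m + 4)) := by
        rw [← Finset.sum_mul, ← sum_ga]
    _ ≤ l ^ (m + 1) * (4 * (N : ℝ) ^ 2 / l ^ (A + m + 4)) := by
        apply mul_le_mul_of_nonneg_right hVz
        positivity
    _ = 4 * (N : ℝ) ^ 2 / (l ^ A * l ^ 3) := by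
        rw [show A + m + 4 = A + 3 + (m + 1) by ring, pow_add l (A + 3) (m + 1), pow_add l A 3]
        field_simp
    _ ≤ (N : ℝ) ^ 2 / l ^ A := by
        rw [div_le_div_iff₀ (by positivity) (by positivity)]
        have h5 : (4 : ℝ) ≤ l ^ 3 := by nlinarith [mul_pos hl0 hl0]
        have h6 : 0 ≤ (N : ℝ) ^ 2 * l ^ A := by positivity
        nlinarith [mul_le_mul_of_nonneg_left h5 h6]

end Pool.Agent.H12L.LVA
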