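import Pool.Agent.H12L.Stm

/-! Project LS: elementary estimates (helper12). -/

set_option autoImplicit false

namespace Pool.Agent.H12L

open Finset Filter
open Pool.Agent.H12P (th)

theorem li_aux (η : ℝ) (hη : 0 < η) (hη1 : η ≤ 1) : ∃ K0 : ℕ, ∀ K : ℕ, K0 ≤ K → 2 ≤ Real.log K ∧ 1 ≤ η * K ∧ 8 / η ≤ Real.log K ∧
    2 * Real.log (Real.log K) ≤ Real.log K * (η / 8) := by
  have e1 : ∀ᶠ x : ℝ in atTop, 2 ≤ Real.log x := Real.tendsto_log_atTop.eventually_ge_atTop 2
  have e2 : ∀ᶠ x : ℝ in atTop, 8 / η ≤ Real.log x := Real.tendsto_log_atTop.eventually_ge_atTop _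
  have e3 : ∀ᶠ x : ℝ in atTop, 1 / η ≤ x := eventually_ge_atTop _
  have e4 : ∀ᶠ y : ℝ in atTop, 2 * Real.log y ≤ y * (η / 8) := by
    have h := Real.isLittleO_log_id_atTop.bound (c := η / 16) (by positivity)
    filter_upwards [h, eventually_ge_atTop 1] with y hy hy1
    rw [id, Real.norm_eq_abs, Real.norm_eq_abs, abs_of_nonneg (by linarith : (0 : ℝ) ≤ y)] at hy
    have := le_abs_self (Real.log y)
    linarith
  have e5 := Real.tendsto_log_atTop.eventually e4
  obtain ⟨K0, hK0⟩ := eventually_atTop.1 (tendsto_natCast_atTop_atTop.eventually (((e1.and e2).and e3).and e5))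
  refine ⟨K0, fun K hK => ?_⟩
  obtain ⟨⟨⟨h1, h2⟩, h3⟩, h4⟩ := hK0 K hK
  refine ⟨h1, ?_, h2, h4⟩
  rw [div_le_iff₀ hη] at h3
  linarith

/-- the logarithmic integral -/
theorem li_close (η : ℝ) (hη : 0 < η) (hη1 : η ≤ 1) : ∃ K0 : ℕ, ∀ K : ℕ, K0 ≤ K →
    |∑ n ∈ Icc 2 K, 1 / Real.log n - K / Real.log K| ≤ η * (K / Real.log K) := by
  obtain ⟨K0, hK0⟩ := li_aux η hη hη1
  refine ⟨K0, fun K hK => ?_⟩
  obtain ⟨h2, h3, h4, h5⟩ := hK0 K hK
  set l := Real.log K with hl
  have hl0 : 0 < l := by linarith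
  have hK1 : (1 : ℝ) < K := by
    by_contra hcon
    have : l ≤ 0 := Real.log_nonpos (Nat.cast_nonneg _) (not_lt.1 hcon)
    linarith
  have hK0' : (0 : ℝ) < K := by linarith
  have hKn : 1 < K := by exact_mod_cast hK1
  -- lower bound
  have low : (K : ℝ) / l - η * (K / l) ≤ ∑ n ∈ Icc 2 K, 1 / Real.log n := by
    have h6 : ∀ n ∈ Icc 2 K, 1 / l ≤ 1 / Real.log n := by
      intro n hn
      rw [mem_Icc] at hn
      have h7 : (2 : ℝ) ≤ n := by exact_mod_cast hn.1
      have h8 : 0 < Real.log n := Real.log_pos (by linarith)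
      apply one_div_le_one_div_of_le h8
      exact Real.log_le_log (by linarith) (by exact_mod_cast hn.2)
    have h7 := card_nsmul_le_sum _ _ _ h6
    rw [Nat.card_Icc, nsmul_eq_mul] at h7
    have h8 : ((K + 1 - 2 : ℕ) : ℝ) = (K : ℝ) - 1 := by
      rw [show K + 1 - 2 = K - 1 by omega, Nat.cast_sub (by omega)]
      simp
    rw [h8] at h7
    refine le_trans ?_ h7
    have : (K : ℝ) / l - η * (K / l) = (K - η * K) * (1 / l) := by ring
    rw [this]
    exact mul_le_mul_of_nonneg_right (by linarith) (by positivity)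
  -- upper bound
  obtain ⟨w, hw⟩ : ∃ w : ℝ, w = K / l ^ 2 := ⟨_, rfl⟩
  have hw0 : 0 < w := by rw [hw]; positivity
  have hlogw : Real.log w = l - 2 * Real.log l := by
    rw [hw, Real.log_div hK0'.ne' (by positivity), Real.log_pow]
    push_cast
    rw [← hl]
  have hlw : l * (1 - η / 8) ≤ Real.log w := by
    rw [hlogw]
    have : l * (1 - η / 8) = l - l * (η / 8) := by ring
    linarith
  have hlw0 : 0 < Real.log w := by
    have : 0 < l * (1 - η / 8) := by
      apply mul_pos hl0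
      linarith
    linarith
  have hw1 : 1 < w := by
    by_contra hcon
    have := Real.log_nonpos hw0.le (not_lt.1 hcon)
    linarith
  have up : ∑ n ∈ Icc 2 K, 1 / Real.log n ≤ 2 * w + K * (1 / Real.log w) := by
    have h6 : ∀ n ∈ Icc 2 K, 1 / Real.log n ≤ (if (n : ℝ) ≤ w then 2 else 0) + 1 / Real.log w := by
      intro n hn
      rw [mem_Icc] at hn
      have h7 : (2 : ℝ) ≤ n := by exact_mod_cast hn.1
      have h8 : 0 < Real.log n := Real.log_pos (by linarith)
      split_ifs with h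
      · have h9 : Real.log 2 ≤ Real.log n := Real.log_le_log (by norm_num) h7
        have h10 := Real.log_two_gt_d9
        have h11 : 1 / Real.log n ≤ 2 := by
          rw [div_le_iff₀ h8]
          linarith
        have : 0 ≤ 1 / Real.log w := by positivity
        linarith
      · rw [zero_add]
        apply one_div_le_one_div_of_le hlw0
        exact Real.log_le_log hw0 (not_le.1 h).le
    refine (sum_le_sum h6).trans ?_
    rw [sum_add_distrib, sum_const, Nat.card_Icc, nsmul_eq_mul, ← sum_filter, sum_const, nsmul_eq_mul]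
    have h7 : (((Icc 2 K).filter (fun n : ℕ => (n : ℝ) ≤ w)).card : ℝ) ≤ w := by
      have h8 : (Icc 2 K).filter (fun n : ℕ => (n : ℝ) ≤ w) ⊆ Icc 1 ⌊w⌋₊ := by
        intro n hn
        rw [mem_filter, mem_Icc] at hn
        rw [mem_Icc]
        exact ⟨by omega, Nat.le_floor hn.2⟩
      have h9 := card_le_card h8
      rw [Nat.card_Icc, Nat.add_sub_cancel] at h9
      exact le_trans (by exact_mod_cast h9) (Nat.floor_le hw0.le)
    have h8 : ((K + 1 - 2 : ℕ) : ℝ) ≤ K := by
      exact_mod_cast (by omega : K + 1 - 2 ≤ K)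
    have h9 : ((K + 1 - 2 : ℕ) : ℝ) * (1 / Real.log w) ≤ K * (1 / Real.log w) := mul_le_mul_of_nonneg_right h8 (by positivity)
    linarith
  have up2 : 2 * w + K * (1 / Real.log w) ≤ K / l + η * (K / l) := by
    have a1 : 2 * w ≤ η / 4 * (K / l) := by
      rw [hw]
      have h8 : 8 ≤ l * η := by rwa [div_le_iff₀ hη] at h4
      have e : η / 4 * ((K : ℝ) / l) = (l * η) / 4 * (K / l ^ 2) := by field_simp
      rw [e]
      apply mul_le_mul_of_nonneg_right _ (by positivity)
      linarith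
    have a2 : 1 / Real.log w ≤ (1 + η / 4) * (1 / l) := by
      rw [div_le_iff₀ hlw0]
      have h9 : (1 + η / 4) * (1 - η / 8) ≥ 1 := by nlinarith
      calc (1 : ℝ) ≤ (1 + η / 4) * (1 - η / 8) := h9
        _ = (1 + η / 4) * (1 / l) * (l * (1 - η / 8)) := by field_simp
        _ ≤ (1 + η / 4) * (1 / l) * Real.log w := mul_le_mul_of_nonneg_left hlw (by positivity)
    have a3 : K * (1 / Real.log w) ≤ K * ((1 + η / 4) * (1 / l)) := mul_le_mul_of_nonneg_left a2 hK0'.le
    have a4 : K * ((1 + η / 4) * (1 / l)) = K / l + η / 4 * (K / l) := by ring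
    have a5 : 0 ≤ η * (K / l) := by positivity
    linarith
  rw [abs_le]
  constructor
  · linarith
  · linarith

/-- the same with weights -/
theorem li_weights (K : ℕ) (η ε : ℝ) (hε : 0 ≤ ε) (hη1 : η ≤ 1) (hK : 0 ≤ (K : ℝ) / Real.log K)
    (h : |∑ n ∈ Icc 2 K, 1 / Real.log n - K / Real.log K| ≤ η * (K / Real.log K)) (v : ℕ → ℝ) (hv : ∀ n ∈ Icc 2 K, |v n - 1| ≤ ε) :
    |∑ n ∈ Icc 2 K, v n / Real.log n - K / Real.log K| ≤ (η + 2 * ε) * (K / Real.log K) := by
  have h1 : |∑ n ∈ Icc 2 K, v n / Real.log n - ∑ n ∈ Icc 2 K, 1 / Real.log n| ≤ ε * ∑ n ∈ Icc 2 K, 1 / Real.log n := by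
    rw [← sum_sub_distrib, mul_sum]
    refine (abs_sum_le_sum_abs _ _).trans (sum_le_sum fun n hn => ?_)
    have h2 := hv n hn
    rw [mem_Icc] at hn
    have h7 : (2 : ℝ) ≤ n := by exact_mod_cast hn.1
    have h8 : 0 < Real.log n := Real.log_pos (by linarith)
    have e : v n / Real.log n - 1 / Real.log n = (v n - 1) * (1 / Real.log n) := by ring
    rw [e, abs_mul, abs_of_pos (by positivity : 0 < 1 / Real.log n)]
    exact mul_le_mul_of_nonneg_right h2 (by positivity)
  have h3 : ∑ n ∈ Icc 2 K, 1 / Real.log n ≤ 2 * (K / Real.log K) := by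
    have := (abs_le.1 h).2
    have h4 : η * ((K : ℝ) / Real.log K) ≤ 1 * (K / Real.log K) := mul_le_mul_of_nonneg_right hη1 hK
    linarith
  have h4 : ε * ∑ n ∈ Icc 2 K, 1 / Real.log n ≤ ε * (2 * (K / Real.log K)) := mul_le_mul_of_nonneg_left h3 hε
  have e : ∑ n ∈ Icc 2 K, v n / Real.log n - K / Real.log K = (∑ n ∈ Icc 2 K, v n / Real.log n - ∑ n ∈ Icc 2 K, 1 / Real.log n) +
      (∑ n ∈ Icc 2 K, 1 / Real.log n - K / Real.log K) := by ring
  rw [e]
  refine (abs_add_le _ _).trans ?_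
  have e2 : (η + 2 * ε) * ((K : ℝ) / Real.log K) = η * (K / Real.log K) + ε * (2 * (K / Real.log K)) := by ring
  rw [e2]
  linarith

theorem part_low (Y N : ℕ) (s : ℕ → ℝ) (hs : ∀ n, 0 ≤ s n) :
    ∑ n ∈ Icc 1 N, th Y n * s n ≤ Real.log N * ∑ q ∈ PN N, s q := by
  have e : Icc 1 N = Ioc 0 N := by
    ext n
    rw [mem_Icc, mem_Ioc]
    omega
  unfold PN
  rw [mul_sum, e, sum_filter]
  apply sum_le_sum
  intro n hn
  rw [mem_Ioc] at hn
  have hn1 : (1 : ℝ) ≤ n := by exact_mod_cast (by omega : 1 ≤ n)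
  have hlog : Real.log n ≤ Real.log N := Real.log_le_log (by linarith) (by exact_mod_cast hn.2)
  have hlog0 : 0 ≤ Real.log n := Real.log_nonneg hn1
  unfold th
  by_cases hp : n.Prime
  · rw [if_pos hp]
    split_ifs
    · exact mul_le_mul_of_nonneg_right hlog (hs n)
    · rw [zero_mul]
      exact mul_nonneg (by linarith) (hs n)
  · rw [if_neg hp, if_neg (fun h => hp h.1), zero_mul]

theorem part_up (Y N : ℕ) (s : ℕ → ℝ) (κ w : ℝ) (hs : ∀ n, 0 ≤ s n) (hsk : ∀ n, s n ≤ κ) (hw : 1 < w) (hN : 1 ≤ N) :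
    Real.log N * ∑ q ∈ PN N, s q ≤ (Real.log N / Real.log w) * ∑ n ∈ Icc 1 N, th Y n * s n + Real.log N * (κ * (w + Y)) := by
  have e : Icc 1 N = Ioc 0 N := by
    ext n
    rw [mem_Icc, mem_Ioc]
    omega
  have hlN : 0 ≤ Real.log N := Real.log_nonneg (by exact_mod_cast hN)
  have hlw : 0 < Real.log w := Real.log_pos hw
  have hκ : 0 ≤ κ := (hs 0).trans (hsk 0)
  have h1 : ∑ q ∈ PN N, s q ≤ ∑ q ∈ Ioc 0 N, ((1 / Real.log w) * (th Y q * s q) + (if (q : ℝ) ≤ w then κ else 0) + (if q ≤ Y then κ else 0)) := by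
    unfold PN
    rw [sum_filter]
    apply sum_le_sum
    intro n hn
    rw [mem_Ioc] at hn
    have hn1 : (1 : ℝ) ≤ n := by exact_mod_cast (by omega : 1 ≤ n)
    have t0 : 0 ≤ th Y n := by
      unfold th
      split_ifs
      · exact Real.log_nonneg hn1
      · exact le_rfl
    have t1 : 0 ≤ (1 / Real.log w) * (th Y n * s n) := mul_nonneg (by positivity) (mul_nonneg t0 (hs n))
    have t2 : (0 : ℝ) ≤ (if (n : ℝ) ≤ w then κ else 0) := by split_ifs <;> linarith
    have t3 : (0 : ℝ) ≤ (if n ≤ Y then κ else 0) := by split_ifs <;> linarith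
    by_cases hp : n.Prime
    · rw [if_pos hp]
      by_cases h2 : (n : ℝ) ≤ w
      · rw [if_pos h2]
        have := hsk n
        linarith
      · by_cases h3 : n ≤ Y
        · rw [if_pos h3]
          have := hsk n
          linarith
        · have h4 : th Y n = Real.log n := by
            unfold th
            rw [if_pos ⟨hp, not_le.1 h3⟩]
          have h5 : Real.log w ≤ Real.log n := Real.log_le_log (by linarith) (not_le.1 h2).le
          have h6 : s n ≤ (1 / Real.log w) * (th Y n * s n) := by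
            rw [h4]
            calc s n = (1 / Real.log w) * (Real.log w * s n) := by field_simp
              _ ≤ _ := mul_le_mul_of_nonneg_left (mul_le_mul_of_nonneg_right h5 (hs n)) (by positivity)
          linarith
    · rw [if_neg hp]
      linarith
  rw [sum_add_distrib, sum_add_distrib, ← mul_sum, ← sum_filter, ← sum_filter, sum_const, sum_const, nsmul_eq_mul, nsmul_eq_mul] at h1
  have c1 : (((Ioc 0 N).filter (fun n : ℕ => (n : ℝ) ≤ w)).card : ℝ) ≤ w := by
    have h8 : (Ioc 0 N).filter (fun n : ℕ => (n : ℝ) ≤ w) ⊆ Icc 1 ⌊w⌋₊ := by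
      intro n hn
      rw [mem_filter, mem_Ioc] at hn
      rw [mem_Icc]
      exact ⟨by omega, Nat.le_floor hn.2⟩
    have h9 := card_le_card h8
    rw [Nat.card_Icc, Nat.add_sub_cancel] at h9
    exact le_trans (by exact_mod_cast h9) (Nat.floor_le (by linarith))
  have c2 : (((Ioc 0 N).filter (fun n : ℕ => n ≤ Y)).card : ℝ) ≤ Y := by
    have h8 : (Ioc 0 N).filter (fun n : ℕ => n ≤ Y) ⊆ Icc 1 Y := by
      intro n hn
      rw [mem_filter, mem_Ioc] at hn
      rw [mem_Icc]
      omega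
    have h9 := card_le_card h8
    rw [Nat.card_Icc, Nat.add_sub_cancel] at h9
    exact_mod_cast h9
  have c3 := mul_le_mul_of_nonneg_right c1 hκ
  have c4 := mul_le_mul_of_nonneg_right c2 hκ
  have h2 : ∑ q ∈ PN N, s q ≤ (1 / Real.log w) * (∑ n ∈ Icc 1 N, th Y n * s n) + κ * (w + Y) := by
    rw [e]
    have : κ * (w + Y) = w * κ + Y * κ := by ring
    rw [this]
    linarith
  have h3 := mul_le_mul_of_nonneg_left h2 hlN
  refine h3.trans (le_of_eq ?_)
  ring

end Pool.Agent.H12L
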