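import Pool.Agent.H12L.Grid
import Pool.Agent.H12P.Fin
import Pool.Agent.H13K.T2

/-! Project LS: almost all systems at prime arguments, `(log H)^(m+δ) ≤ N ≤ (log H)^A` (helper12). -/

set_option autoImplicit false

namespace Pool.Agent.H12L.Low

open Finset Filter
open Pool.Agent.H373R2.T7 (lamz pz Vz mem_pz Vz_pos)
open Pool.Agent.H13K (Fv bx sf om Cz lg Wf Pf Lf pr Ym S_VZ S_FL S_PY S_LOWC)
open Pool.Agent.H12P (th C1 Y1 P1 L1 om1 S_LOWCP)
open Pool.Agent.H12P.BLKP (P1_mono L1_mono)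
open Pool.Agent.H11P hiding bx
open Pool.Agent.H11P.Law (value)
open Pool.Agent.H11A
open Pool.Agent.H11B (hi lo rep rep_lo hi_rep value_eq mem_bx transfer kS_Vz pri_pz sum_bd lg_close fin_key sandwich)

variable {m : ℕ} {dd : Fin m → ℕ}

theorem P1_eq (hdd : ∀ i, 1 ≤ dd i) (a : ∀ i : Fin m, Fin (dd i + 1) → ℤ) (K : ℕ) : P1 a K = (pts (hi a) (PN K) (lo hdd a) : ℝ) := by
  unfold P1 pts PN
  have e : Icc 1 K = Ioc 0 K := by
    ext n
    rw [mem_Icc, mem_Ioc]
    omega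
  rw [e, card_filter]
  push_cast
  apply sum_congr rfl
  intro n _
  unfold pr
  rw [prod_ite_zero]
  simp only [mem_univ, true_imp_iff, prod_const_one, value_eq]

theorem sf_sumP (hdd : ∀ i, 1 ≤ dd i) (a : ∀ i : Fin m, Fin (dd i + 1) → ℤ) (Y K : ℕ) :
    ∑ n ∈ PN K, sf Y a (n : ℤ) = kS (pri 0 Y) ^ m * (NS (hi a) (PN K) Y (lo hdd a) : ℝ) := by
  classical
  unfold NS
  rw [card_filter]
  push_cast
  rw [mul_sum]
  apply sum_congr rfl
  intro n _
  unfold sf lamz
  rw [prod_ite_zero, prod_const, card_univ, Fintype.card_fin, kS_Vz, mul_ite, mul_one, mul_zero]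
  congr 1
  simp only [mem_univ, true_imp_iff, value_eq, pri_pz]
  apply propext
  constructor
  · intro h p hp i h2
    exact h i p hp (Int.natCast_dvd.1 h2)
  · intro h i p hp h2
    exact h p hp i (Int.natCast_dvd.2 h2)

theorem ev_lx (c : ℝ) (hc : 0 < c) (J : ℕ) : ∀ᶠ H : ℕ in atTop, (J : ℝ) * Real.log (Real.log (Real.log H)) ≤ c * Real.log (Real.log H) := by
  have h := Real.isLittleO_log_id_atTop.bound (c := c / (J + 1)) (by positivity)
  have h2 : ∀ᶠ y : ℝ in atTop, (J : ℝ) * Real.log y ≤ c * y := by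
    filter_upwards [h, eventually_ge_atTop 1] with y hy hy1
    rw [id, Real.norm_eq_abs, Real.norm_eq_abs, abs_of_nonneg (by linarith : (0 : ℝ) ≤ y)] at hy
    have h3 := (le_abs_self (Real.log y)).trans hy
    have h4 : (J : ℝ) * Real.log y ≤ J * (c / (J + 1) * y) := mul_le_mul_of_nonneg_left h3 (Nat.cast_nonneg _)
    have h5 : (J : ℝ) * (c / (J + 1) * y) = c * y * (J / (J + 1)) := by field_simp
    have h6 : (J : ℝ) / (J + 1) ≤ 1 := by
      rw [div_le_one (by positivity)]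
      linarith
    have h7 : c * y * ((J : ℝ) / (J + 1)) ≤ c * y * 1 := mul_le_mul_of_nonneg_left h6 (by positivity)
    linarith
  exact tx.eventually h2

theorem qlem (η : ℝ) (h0 : 0 < η) (h1 : η ≤ 1) : 1 ≤ (1 + η / 4) * (1 - η / 8) := by nlinarith

theorem ev_lowc (D0 A : ℕ) (c0 : ℝ) (δ1 : ℝ) (hδ : 0 < δ1) :
    ∀ᶠ H : ℕ in atTop, 8 * ((A : ℝ) + 1) / c0 * Real.log (Real.log H) ^ (D0 + 1) ≤ Real.log H ^ (δ1 / 2) :=
  ev_ll (D0 + 1) (8 * ((A : ℝ) + 1) / c0) (δ1 / 2) (by positivity)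

/-- the main term is large -/
theorem main_big (m D0 A : ℕ) (ℓ x c0 c b N lN l L δ1 : ℝ) (hℓ : 1 ≤ ℓ) (hx : 0 < x) (hc0 : 0 < c0) (hb : c0 / x ^ D0 ≤ b) (hcb : b ≤ 2 * c)
    (hN : ℓ ^ ((m : ℝ) + δ1) ≤ N) (hlN0 : 0 < lN) (hlN : lN ≤ (A + 1) * x) (hl : l = ℓ ^ m * L) (hlR : N / lN / 2 ≤ l)
    (hev : 8 * ((A : ℝ) + 1) / c0 * x ^ (D0 + 1) ≤ ℓ ^ (δ1 / 2)) : ℓ ^ (δ1 / 2) ≤ c * L := by
  have hℓ0 : 0 < ℓ := by linarith
  have hq0 : 0 < ℓ ^ (δ1 / 2) := by positivity
  have hsplit : ℓ ^ ((m : ℝ) + δ1) = ℓ ^ m * (ℓ ^ (δ1 / 2) * ℓ ^ (δ1 / 2)) := by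
    rw [← Real.rpow_add hℓ0, ← Real.rpow_natCast, ← Real.rpow_add hℓ0]
    congr 1
    ring
  have hm0 : 0 < ℓ ^ m := by positivity
  have hA : 0 < ((A : ℝ) + 1) * x := by positivity
  have hL : ℓ ^ (δ1 / 2) * ℓ ^ (δ1 / 2) / (2 * ((A + 1) * x)) ≤ L := by
    have h1 : ℓ ^ m * (ℓ ^ (δ1 / 2) * ℓ ^ (δ1 / 2)) / ((A + 1) * x) ≤ N / lN := by
      rw [← hsplit]
      exact div_le_div₀ (by linarith [Real.rpow_pos_of_pos hℓ0 ((m : ℝ) + δ1)]) hN hlN0 hlN
    have h2 : ℓ ^ m * (ℓ ^ (δ1 / 2) * ℓ ^ (δ1 / 2) / (2 * ((A + 1) * x))) ≤ ℓ ^ m * L := by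
      rw [← hl]
      refine le_trans (le_of_eq ?_) ((div_le_div_of_nonneg_right h1 (by norm_num : (0 : ℝ) ≤ 2)).trans hlR)
      field_simp
    exact le_of_mul_le_mul_left h2 hm0
  have hc : c0 / (2 * x ^ D0) ≤ c := by
    have : c0 / (2 * x ^ D0) = c0 / x ^ D0 / 2 := by field_simp
    rw [this]
    linarith
  have hc' : 0 ≤ c0 / (2 * x ^ D0) := by positivity
  have hL0 : 0 ≤ ℓ ^ (δ1 / 2) * ℓ ^ (δ1 / 2) / (2 * ((A + 1) * x)) := by positivity
  refine le_trans ?_ (mul_le_mul hc hL hL0 (hc'.trans hc))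
  calc ℓ ^ (δ1 / 2) = ℓ ^ (δ1 / 2) * 1 := (mul_one _).symm
    _ ≤ ℓ ^ (δ1 / 2) * (c0 / (4 * (A + 1) * x ^ (D0 + 1)) * ℓ ^ (δ1 / 2)) := by
        apply mul_le_mul_of_nonneg_left _ hq0.le
        have h3 : (1 : ℝ) ≤ c0 / (4 * (A + 1) * x ^ (D0 + 1)) * (8 * ((A : ℝ) + 1) / c0 * x ^ (D0 + 1)) := by
          have e : c0 / (4 * (A + 1) * x ^ (D0 + 1)) * (8 * ((A : ℝ) + 1) / c0 * x ^ (D0 + 1)) = 2 := by
            field_simp
            norm_num
          rw [e]
          norm_num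
        exact h3.trans (mul_le_mul_of_nonneg_left hev (by positivity))
    _ = c0 / (2 * x ^ D0) * (ℓ ^ (δ1 / 2) * ℓ ^ (δ1 / 2) / (2 * ((A + 1) * x))) := by
        rw [pow_succ]
        field_simp
        norm_num

/-- the conclusion for the low scales, with a lower bound for the main term -/
def S_LOWT' : Prop := ∀ (m : ℕ) (dd : Fin m → ℕ), 1 ≤ m → (∀ i, 1 ≤ dd i) → ∀ (A : ℕ) (δ ε : ℝ), 0 < δ → 0 < ε →
    ∃ H0 : ℕ, ∀ H : ℕ, H0 ≤ H → ∃ Bad ⊆ bx dd H, (Bad.card : ℝ) ≤ ε * (bx dd H).card ∧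
    ∀ a ∈ bx dd H, a ∉ Bad → (∀ p : ℕ, p.Prime → om1 p a ≠ p - 1) → ∀ z : ℕ, Real.log H ≤ z → z ^ 4 ≤ H → 0 < C1 z a ∧
      ∀ N : ℕ, Real.log H ^ ((m : ℝ) + δ) ≤ N → (N : ℝ) ≤ Real.log H ^ A →
        Real.log H ^ (min δ 1 / 2) ≤ C1 z a * L1 a N ∧
        |P1 a N - C1 z a * L1 a N| ≤ ε * (C1 z a * L1 a N)

theorem t (hVZ : S_VZ) (hLPR : S_LPR) (hLSM : S_LSM) (hLPY : S_LPY) (hLC : S_LOWCP) : S_LOWT' := by
  classical
  intro m dd hm hdd A δ ε hδ hε
  obtain ⟨Cv, hCv1, hCv⟩ := hVZ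
  obtain ⟨c0, D0, hc0, hlc⟩ := hLC m dd
  obtain ⟨δ1, hδ1⟩ : ∃ δ1, δ1 = min δ 1 := ⟨_, rfl⟩
  obtain ⟨ε1, hε1⟩ : ∃ ε1, ε1 = min ε 1 := ⟨_, rfl⟩
  have hδ10 : 0 < δ1 := by rw [hδ1]; exact lt_min hδ one_pos
  have hδ11 : δ1 ≤ 1 := by rw [hδ1]; exact min_le_right _ _
  have hδ12 : δ1 ≤ δ := by rw [hδ1]; exact min_le_left _ _
  have hε10 : 0 < ε1 := by rw [hε1]; exact lt_min hε one_pos
  have hε11 : ε1 ≤ 1 := by rw [hε1]; exact min_le_right _ _
  have hε12 : ε1 ≤ ε := by rw [hε1]; exact min_le_left _ _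
  obtain ⟨θ, hθ⟩ : ∃ θ, θ = ε1 / 16 := ⟨_, rfl⟩
  have hθ0 : 0 < θ := by rw [hθ]; positivity
  have hθ1 : θ ≤ 1 / 16 := by rw [hθ]; linarith
  obtain ⟨η, hη⟩ : ∃ η, η = θ / 5 := ⟨_, rfl⟩
  have hη0 : 0 < η := by rw [hη]; positivity
  have hηθ : 5 * η = θ := by rw [hη]; ring
  have hη1 : η ≤ 1 := by linarith
  -- the grid
  obtain ⟨M0, hM0⟩ : ∃ M0 : ℕ, M0 = ⌈1 / θ⌉₊ := ⟨_, rfl⟩
  have hM0r : 1 / θ ≤ M0 := by rw [hM0]; exact Nat.le_ceil _
  obtain ⟨D, hD⟩ : ∃ D : ℕ, D = ∑ i, dd i := ⟨_, rfl⟩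
  have hdD : ∀ i, dd i ≤ D := by
    intro i
    rw [hD]
    exact single_le_sum (f := dd) (fun _ _ => Nat.zero_le _) (mem_univ i)
  obtain ⟨A', hA'⟩ : ∃ A', A' = (A + 1) * D + 1 := ⟨_, rfl⟩
  obtain ⟨Kx, hKx⟩ : ∃ Kx, Kx = D0 + 2 := ⟨_, rfl⟩
  obtain ⟨J, hJ⟩ : ∃ J, J = m + D0 + 2 := ⟨_, rfl⟩
  have hprim := hLPR m (A + 1) A' (2 * M0 + 2) Kx hm (δ1 / 2) (ε1 / 4) (by positivity) (by linarith) (by positivity)
  have hsm := sm_gridP hLSM m dd hdd (A + 1) (2 * M0 + 2) Kx (δ1 / 2) (ε1 / 4) (by positivity) (by positivity)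
  obtain ⟨Hp, hpy⟩ := hLPY m dd hdd (min η (ε1 / 4)) (lt_min hη0 (by positivity))
  obtain ⟨Kl, hli⟩ := li_close η hη0 hη1
  obtain ⟨C2, hC2⟩ : ∃ C2 : ℝ, C2 = ((A + 1 + 2 : ℕ) : ℝ) + (A' : ℝ) := ⟨_, rfl⟩
  obtain ⟨η2, hη2⟩ : ∃ η2 : ℝ, η2 = η / (m * 2 ^ m) := ⟨_, rfl⟩
  have hm1 : (1 : ℝ) ≤ m := by exact_mod_cast hm
  have hmm : 1 ≤ (m : ℝ) * 2 ^ m := by
    have : (1 : ℝ) ≤ 2 ^ m := one_le_pow₀ (by norm_num)
    nlinarith
  have hη20 : 0 < η2 := by rw [hη2]; positivity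
  have hη21 : η2 ≤ η := by rw [hη2]; exact div_le_self hη0.le hmm
  have hη2m : (m : ℝ) * 2 ^ m * η2 = η := by rw [hη2]; field_simp
  obtain ⟨W, hW⟩ : ∃ W : ℝ, W = 8 * (A + 1) * Cv ^ m / (η * c0) := ⟨_, rfl⟩
  have hCvm : 1 ≤ Cv ^ m := one_le_pow₀ hCv1
  have hW0 : 0 < W := by rw [hW]; positivity
  have hW1 : 8 / (η * c0) ≤ W := by
    rw [hW]
    apply div_le_div_of_nonneg_right _ (by positivity)
    have : (1 : ℝ) ≤ (A + 1) * Cv ^ m := by
      have : (1 : ℝ) ≤ A + 1 := by have : (0 : ℝ) ≤ A := Nat.cast_nonneg _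
                                   linarith
      nlinarith
    nlinarith
  have hW2 : (A + 1) / (η * c0) ≤ W := by
    rw [hW]
    apply div_le_div_of_nonneg_right _ (by positivity)
    have hA0 : (0 : ℝ) < A + 1 := by positivity
    nlinarith
  have hev : ∀ᶠ H : ℕ in atTop, ∃ Bad ⊆ bx dd H, (Bad.card : ℝ) ≤ ε * (bx dd H).card ∧
    ∀ a ∈ bx dd H, a ∉ Bad → (∀ p : ℕ, p.Prime → om1 p a ≠ p - 1) → ∀ z : ℕ, Real.log H ≤ z → z ^ 4 ≤ H → 0 < C1 z a ∧
      ∀ N : ℕ, Real.log H ^ ((m : ℝ) + δ) ≤ N → (N : ℝ) ≤ Real.log H ^ A →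
        Real.log H ^ (min δ 1 / 2) ≤ C1 z a * L1 a N ∧
        |P1 a N - C1 z a * L1 a N| ≤ ε * (C1 z a * L1 a N) := by
    filter_upwards [hprim, hsm, ev_log 32, ev_log ((D : ℝ) + 1), ev_x 1, ev_x W, ev_ll 0 2 (δ1 / 2) (by positivity), ev_log (M0 : ℝ),
      eventually_ge_atTop 2, ev_ll 1 (2 * C2 / η2) 1 one_pos, ev_pow (A + 3) 2 1 one_pos, ev_pow 4 1 1 one_pos, eventually_ge_atTop Hp,
      ev_lx (η / 8) (by positivity) J, ev_ll J 2 1 one_pos, ev_ll (m + 1 + D0) W (δ1 / 2) (by positivity), ev_x (1 / η), ev_log (Kl : ℝ),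
      ev_lowc D0 A c0 δ1 hδ10]
      with H g1 g2 g3 g4 g5 g6 g7 g8 g9 g10 g11 g12 g13 g14 g15 g16 g17 g18 g19
    obtain ⟨ℓ, hℓ⟩ : ∃ ℓ : ℝ, ℓ = Real.log H := ⟨_, rfl⟩
    rw [Real.rpow_one] at g10 g11 g12 g15
    rw [pow_zero, mul_one] at g7
    rw [pow_one] at g10
    rw [one_mul] at g12
    rw [← hδ1]
    rw [← hℓ] at g1 g2 g3 g4 g5 g6 g7 g8 g10 g11 g12 g14 g15 g16 g17 g18 g19 ⊢
    obtain ⟨x, hx⟩ : ∃ x, x = Real.log ℓ := ⟨_, rfl⟩
    rw [← hx] at g5 g6 g10 g14 g15 g16 g17 g19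
    have hℓ0 : 0 < ℓ := by linarith
    have hℓ1 : 1 ≤ ℓ := by linarith
    have hx0 : 0 < x := by linarith
    have hN0 : (0 : ℝ) ≤ (bx dd H).card := Nat.cast_nonneg _
    obtain ⟨Y, hY⟩ : ∃ Y, Y = Yh H := ⟨_, rfl⟩
    rw [← hY] at g1 g2
    have hY' := hY
    unfold Yh at hY'
    rw [← hℓ] at hY'
    have hYle : (Y : ℝ) ≤ ℓ / 8 := by rw [hY']; exact Nat.floor_le (by positivity)
    have hYge : ℓ ≤ 16 * Y := by
      have := Nat.lt_floor_add_one (ℓ / 8)
      rw [← hY'] at this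
      linarith
    have hY3 : 3 ≤ Y := by
      rw [hY']
      apply Nat.le_floor
      push_cast
      linarith
    have hY3r : (3 : ℝ) ≤ Y := by exact_mod_cast hY3
    have hY4 : Y ^ 4 ≤ H := by
      have h1 : ((Y ^ 4 : ℕ) : ℝ) ≤ H := by
        push_cast
        refine le_trans (pow_le_pow_left₀ (Nat.cast_nonneg _) (by linarith : (Y : ℝ) ≤ ℓ) 4) g12
      exact_mod_cast h1
    have hYH : Y ≤ H := (Nat.le_self_pow (by norm_num) Y).trans hY4
    obtain ⟨Bad3, hB31, hB32, hB33⟩ := hpy H Y g13 (by rw [← hℓ]; exact hYge) hYH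
    obtain ⟨Bad1, hBad1⟩ : ∃ Bad1, Bad1 = (bx dd H).filter (fun a => ¬ GoodP m (A + 1) (2 * M0 + 2) Kx (δ1 / 2) ℓ H Y (hi a) (lo hdd a)) := ⟨_, rfl⟩
    obtain ⟨Bad2, hBad2⟩ : ∃ Bad2, Bad2 = (bx dd H).filter (fun a => ¬ GoodSP (A + 1) (2 * M0 + 2) Kx (δ1 / 2) ℓ Y a) := ⟨_, rfl⟩
    have c1 : (Bad1.card : ℝ) ≤ ε1 / 4 * (bx dd H).card := by
      rw [hBad1]
      refine le_trans (le_of_eq ?_) (transfer hdd H (fun a => ¬ GoodP m (A + 1) (2 * M0 + 2) Kx (δ1 / 2) ℓ H Y (hi a) (lo hdd a)) (ε1 / 4) ?_)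
      · congr!
      intro a ha
      rw [mem_bx] at ha
      have e1 : ∀ b, hi (rep a b) = hi a := by
        intro b
        funext i
        exact hi_rep a b i
      obtain ⟨Bd, hBd1, hBd2, hBd3⟩ := g1 (hi a) (by
        intro i n hn
        have h1 := sum_bd (dd i) D (A + 1) H n (hdD i) ℓ hℓ1 g4 (fun l => if 2 ≤ (l : ℕ) then a i l else 0) (by
          intro l
          split_ifs
          · exact ha i l
          · simp) hn
        rw [hA']
        refine le_trans (le_of_eq ?_) h1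
        congr 2
        unfold hi
        rw [Polynomial.eval_finsetSum]
        apply sum_congr rfl
        intro l _
        split_ifs
        · simp
        · simp)
      refine le_trans ?_ hBd2
      have hsub : (ab m 1 H).filter (fun b => ¬ GoodP m (A + 1) (2 * M0 + 2) Kx (δ1 / 2) ℓ H Y (hi (rep a b)) (lo hdd (rep a b))) ⊆ Bd := by
        intro b hb
        rw [mem_filter, e1, rep_lo] at hb
        by_contra hcon
        exact hb.2 (hBd3 b hb.1 hcon)
      refine le_trans (le_of_eq ?_) (by exact_mod_cast card_le_card hsub : (((ab m 1 H).filter (fun b => ¬ GoodP m (A + 1) (2 * M0 + 2) Kx (δ1 / 2) ℓ H Y (hi (rep a b)) (lo hdd (rep a b)))).card : ℝ) ≤ Bd.card)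
      congr!
    have c2 : (Bad2.card : ℝ) ≤ ε1 / 4 * (bx dd H).card := by
      rw [hBad2]
      refine le_trans (le_of_eq ?_) g2
      congr!
    have c3 : (Bad3.card : ℝ) ≤ ε1 / 4 * (bx dd H).card := hB32.trans (mul_le_mul_of_nonneg_right (min_le_right _ _) hN0)
    refine ⟨Bad1 ∪ Bad2 ∪ Bad3, ?_, ?_, ?_⟩
    · intro a ha
      rw [mem_union, mem_union] at ha
      rcases ha with (ha | ha) | ha
      · rw [hBad1] at ha; exact (mem_filter.1 ha).1
      · rw [hBad2] at ha; exact (mem_filter.1 ha).1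
      · exact hB31 ha
    · have h1 : (((Bad1 ∪ Bad2 ∪ Bad3).card : ℕ) : ℝ) ≤ Bad1.card + Bad2.card + Bad3.card := by
        have h2 := card_union_le (Bad1 ∪ Bad2) Bad3
        have h3 := card_union_le Bad1 Bad2
        exact_mod_cast (by omega : (Bad1 ∪ Bad2 ∪ Bad3).card ≤ Bad1.card + Bad2.card + Bad3.card)
      have h4 : ε1 * ((bx dd H).card : ℝ) ≤ ε * (bx dd H).card := mul_le_mul_of_nonneg_right hε12 hN0
      have h5 : 0 ≤ ε1 * ((bx dd H).card : ℝ) := by positivity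
      linarith
    · intro a ha haB hadm z hz hz4
      simp only [mem_union, not_or] at haB
      obtain ⟨⟨n1, n2⟩, n3⟩ := haB
      rw [hBad1, mem_filter, not_and, not_not] at n1
      rw [hBad2, mem_filter, not_and, not_not] at n2
      have m1 := n1 ha
      have m2 := n2 ha
      have hYz : Y ≤ z := by
        have : (Y : ℝ) ≤ z := by linarith
        exact_mod_cast this
      have hpyz := hB33 a ha n3 (fun p hp => Pool.Agent.H12P.Fin.om_ne p (mem_pz.1 hp).2 a (hadm p (mem_pz.1 hp).2)) z hYz hz4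
      obtain ⟨b, hb⟩ : ∃ b, b = C1 Y a := ⟨_, rfl⟩
      obtain ⟨c, hc⟩ : ∃ c, c = C1 z a := ⟨_, rfl⟩
      rw [← hb, ← hc] at hpyz
      rw [← hc]
      have hblow : c0 / x ^ D0 ≤ b := by
        rw [hb]
        refine le_trans ?_ ((hlc Y a hY3).2.2 (fun p hp => hadm p (mem_pz.1 hp).2))
        have h1 : Real.log Y ≤ x := by
          rw [hx]
          exact Real.log_le_log (by linarith) (by linarith)
        have h2 : 0 < Real.log Y := Real.log_pos (by linarith)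
        exact div_le_div_of_nonneg_left hc0.le (by positivity) (pow_le_pow_left₀ h2.le h1 _)
      have hbp : 0 < b := lt_of_lt_of_le (by positivity) hblow
      have q1 : |c - b| ≤ η * b := hpyz.trans (mul_le_mul_of_nonneg_right (min_le_left _ _) hbp.le)
      have hcb : b ≤ 2 * c := by
        have h1 := (abs_le.1 q1).1
        have h2 : η * b ≤ 1 / 2 * b := mul_le_mul_of_nonneg_right (by linarith) hbp.le
        linarith
      have hcp : 0 < c := by linarith
      have q4 : |b - c| ≤ θ * c := by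
        rw [abs_sub_comm]
        refine q1.trans ?_
        have h1 : η * b ≤ η * (2 * c) := mul_le_mul_of_nonneg_left hcb hη0.le
        have h2 : η * (2 * c) ≤ θ * c := by
          rw [← hηθ]
          have h3 := mul_pos hη0 hcp
          have e1 : η * (2 * c) = 2 * (η * c) := by ring
          have e2 : 5 * η * c = 5 * (η * c) := by ring
          rw [e1, e2]
          linarith
        linarith
      refine ⟨hcp, fun N hN1 hN2 => ?_⟩
      -- the sieve factor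
      obtain ⟨κ, hκ⟩ : ∃ κ, κ = ((Vz Y)⁻¹) ^ m := ⟨_, rfl⟩
      have hκx : κ ≤ Cv ^ m * x ^ m := by
        rw [hκ, ← mul_pow]
        apply pow_le_pow_left₀ (inv_pos.2 (Vz_pos Y)).le
        refine (hCv Y (by omega)).trans (mul_le_mul_of_nonneg_left ?_ (by linarith))
        rw [hx]
        exact Real.log_le_log (by linarith) (by linarith)
      have hκ0 : 0 ≤ κ := by rw [hκ]; exact pow_nonneg (inv_pos.2 (Vz_pos Y)).le _
      -- one point
      have hpoint : ∀ s q : ℕ, q < 2 * M0 + 2 → ℓ ^ ((m : ℝ) + δ1 / 2) ≤ (q * 2 ^ s : ℕ) → ((q * 2 ^ s : ℕ) : ℝ) ≤ ℓ ^ (A + 1) →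
          |ℓ ^ m * P1 a (q * 2 ^ s) - ((q * 2 ^ s : ℕ) : ℝ) * (b / Real.log (q * 2 ^ s : ℕ))| ≤
            2 * η * (((q * 2 ^ s : ℕ) : ℝ) * (b / Real.log (q * 2 ^ s : ℕ))) := by
        intro s q hq h1 h2
        have hℓm : ℓ ^ (1 + δ1 / 2) ≤ ℓ ^ ((m : ℝ) + δ1 / 2) := Real.rpow_le_rpow_of_exponent_le hℓ1 (by linarith)
        have r1 := m1.1 s q hq h1 h2
        rw [← hx, ← P1_eq hdd, ← sf_sumP hdd] at r1
        have r2 := m2 s q hq (hℓm.trans h1) h2
        rw [← hx, ← hb, sum_sub_distrib, sum_const, Nat.card_Icc, Nat.add_sub_cancel, nsmul_eq_mul] at r2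
        obtain ⟨Nq, hNq⟩ : ∃ Nq : ℕ, Nq = q * 2 ^ s := ⟨_, rfl⟩
        rw [← hNq] at r1 r2 h1 h2 ⊢
        have hN1δ : ℓ ^ (1 + δ1 / 2) ≤ Nq := hℓm.trans h1
        have hℓN : ℓ ≤ Nq := by
          calc ℓ = ℓ ^ (1 : ℝ) := (Real.rpow_one ℓ).symm
            _ ≤ ℓ ^ (1 + δ1 / 2) := Real.rpow_le_rpow_of_exponent_le hℓ1 (by linarith)
            _ ≤ Nq := hN1δ
        have hNp : (0 : ℝ) < Nq := by linarith
        have hNq1 : 1 ≤ Nq := by
          have : (1 : ℝ) ≤ Nq := by linarith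
          exact_mod_cast this
        obtain ⟨l, hl⟩ : ∃ l, l = Real.log Nq := ⟨_, rfl⟩
        have hlA : l ≤ (A + 1) * x := by
          have h3 := Real.log_le_log hNp h2
          rw [Real.log_pow, ← hx, ← hl] at h3
          push_cast at h3
          exact h3
        have hxl : x ≤ l := by
          rw [hx, hl]
          exact Real.log_le_log hℓ0 hℓN
        have hl0 : 0 < l := by linarith
        -- w
        obtain ⟨w, hw⟩ : ∃ w : ℝ, w = Nq / x ^ J := ⟨_, rfl⟩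
        have hxJ : 0 < x ^ J := by positivity
        have hw2 : 2 ≤ w := by
          rw [hw, le_div_iff₀ hxJ]
          linarith
        have hlogw : Real.log w = l - J * Real.log x := by
          rw [hw, Real.log_div hNp.ne' hxJ.ne', Real.log_pow, ← hl]
        obtain ⟨lw, hlw⟩ : ∃ lw, lw = Real.log w := ⟨_, rfl⟩
        have hlwge : l * (1 - η / 8) ≤ lw := by
          rw [hlw, hlogw]
          have h3 : η / 8 * x ≤ η / 8 * l := mul_le_mul_of_nonneg_left hxl (by positivity)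
          have e : l * (1 - η / 8) = l - η / 8 * l := by ring
          rw [e]
          linarith
        have hlw0 : 0 < lw := by
          have h3 : 0 < l * (1 - η / 8) := mul_pos hl0 (by linarith)
          linarith
        have hquot : l / lw ≤ 1 + η / 4 := by
          rw [div_le_iff₀ hlw0]
          have h9 : 1 ≤ (1 + η / 4) * (1 - η / 8) := qlem η hη0 hη1
          calc l = l * 1 := (mul_one l).symm
            _ ≤ l * ((1 + η / 4) * (1 - η / 8)) := mul_le_mul_of_nonneg_left h9 hl0.le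
            _ = (1 + η / 4) * (l * (1 - η / 8)) := by ring
            _ ≤ (1 + η / 4) * lw := mul_le_mul_of_nonneg_left hlwge (by positivity)
        -- U, S
        obtain ⟨U, hU⟩ : ∃ U, U = ∑ n ∈ PN Nq, sf Y a (n : ℤ) := ⟨_, rfl⟩
        obtain ⟨S, hS⟩ : ∃ S, S = ∑ n ∈ Icc 1 Nq, th Y n * sf Y a (n : ℤ) := ⟨_, rfl⟩
        have p1 := part_low Y Nq (fun n => sf Y a (n : ℤ)) (fun n => (Pool.Agent.H13K.T2.sf_bd Y a n).1)
        have p2 := part_up Y Nq (fun n => sf Y a (n : ℤ)) κ w (fun n => (Pool.Agent.H13K.T2.sf_bd Y a n).1)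
          (fun n => by rw [hκ]; exact (Pool.Agent.H13K.T2.sf_bd Y a n).2) (by linarith) hNq1
        beta_reduce at p1 p2
        rw [← hl, ← hU, ← hS] at p1
        rw [← hl, ← hU, ← hS, ← hlw] at p2
        rw [← hU] at r1
        rw [← hS] at r2
        -- the constants
        obtain ⟨t, ht⟩ : ∃ t : ℝ, t = Nq / x ^ Kx := ⟨_, rfl⟩
        rw [← ht] at r1 r2
        have hxD : 0 < x ^ D0 := by positivity
        have hNb : Nq * (c0 / x ^ D0) ≤ Nq * b := mul_le_mul_of_nonneg_left hblow hNp.le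
        have hWx : 8 ≤ x * (η * c0) := by
          have h3 : 8 / (η * c0) ≤ x := hW1.trans g6
          rwa [div_le_iff₀ (by positivity)] at h3
        have hWx2 : (A : ℝ) + 1 ≤ x * (η * c0) := by
          have h3 : ((A : ℝ) + 1) / (η * c0) ≤ x := hW2.trans g6
          rwa [div_le_iff₀ (by positivity)] at h3
        have hWx3 : 8 * (A + 1) * Cv ^ m ≤ x * (η * c0) := by
          have h3 := g6
          rw [hW, div_le_iff₀ (by positivity)] at h3
          exact h3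
        have t1 : t ≤ η / 8 * (Nq * b) := by
          refine le_trans ?_ (mul_le_mul_of_nonneg_left hNb (by positivity : 0 ≤ η / 8))
          rw [ht, hKx]
          have e : η / 8 * ((Nq : ℝ) * (c0 / x ^ D0)) = (x * x * (η * c0) / 8) * (Nq / x ^ (D0 + 2)) := by
            rw [pow_add]
            field_simp
          rw [e]
          refine le_mul_of_one_le_left (by positivity) ?_
          have : x * x * (η * c0) = x * (x * (η * c0)) := by ring
          rw [this, le_div_iff₀ (by norm_num), one_mul]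
          calc (8 : ℝ) = 1 * 8 := by norm_num
            _ ≤ x * (x * (η * c0)) := mul_le_mul g5 hWx (by norm_num) hx0.le
        have t2 : l * t ≤ η * (Nq * b) := by
          refine le_trans ?_ (mul_le_mul_of_nonneg_left hNb hη0.le)
          have h3 : l * t ≤ ((A + 1) * x) * t := mul_le_mul_of_nonneg_right hlA (by rw [ht]; positivity)
          refine h3.trans ?_
          rw [ht, hKx]
          have e1 : ((A : ℝ) + 1) * x * (Nq / x ^ (D0 + 2)) = (A + 1) * (Nq / (x ^ D0 * x)) := by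
            rw [pow_add]
            field_simp
          have e2 : η * ((Nq : ℝ) * (c0 / x ^ D0)) = (x * (η * c0)) * (Nq / (x ^ D0 * x)) := by
            field_simp
          rw [e1, e2]
          exact mul_le_mul_of_nonneg_right hWx2 (by positivity)
        have t3 : l * (κ * (w + Y)) ≤ η / 4 * (Nq * b) := by
          refine le_trans ?_ (mul_le_mul_of_nonneg_left hNb (by positivity : 0 ≤ η / 4))
          have hAx : 0 ≤ ((A : ℝ) + 1) * x := by positivity
          have h3 : l * (κ * w) ≤ η / 8 * (Nq * (c0 / x ^ D0)) := by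
            calc l * (κ * w) ≤ ((A + 1) * x) * ((Cv ^ m * x ^ m) * (Nq / x ^ J)) := by
                  rw [← hw]
                  apply mul_le_mul hlA _ (mul_nonneg hκ0 (by linarith)) hAx
                  exact mul_le_mul_of_nonneg_right hκx (by linarith)
              _ = (8 * (A + 1) * Cv ^ m) * (Nq / (8 * (x ^ D0 * x))) := by
                  rw [hJ, pow_add, pow_add]
                  field_simp
              _ ≤ (x * (η * c0)) * (Nq / (8 * (x ^ D0 * x))) := mul_le_mul_of_nonneg_right hWx3 (by positivity)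
              _ = η / 8 * (Nq * (c0 / x ^ D0)) := by
                  field_simp
          have h4 : l * (κ * Y) ≤ η / 8 * (Nq * (c0 / x ^ D0)) := by
            have h5 : W * x ^ (m + 1 + D0) * ℓ ≤ Nq := by
              calc W * x ^ (m + 1 + D0) * ℓ ≤ ℓ ^ (δ1 / 2) * ℓ := mul_le_mul_of_nonneg_right g16 hℓ0.le
                _ = ℓ ^ (1 + δ1 / 2) := by rw [Real.rpow_add hℓ0, Real.rpow_one]; ring
                _ ≤ Nq := hN1δ
            calc l * (κ * Y) ≤ ((A + 1) * x) * ((Cv ^ m * x ^ m) * ℓ) := by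
                  apply mul_le_mul hlA _ (mul_nonneg hκ0 (by linarith)) hAx
                  exact mul_le_mul hκx (by linarith) (by linarith) (by positivity)
              _ = (η / 8 * (c0 / x ^ D0)) * (W * x ^ (m + 1 + D0) * ℓ) := by
                  rw [hW, pow_add, pow_add, pow_one]
                  field_simp
              _ ≤ (η / 8 * (c0 / x ^ D0)) * Nq := mul_le_mul_of_nonneg_left h5 (by positivity)
              _ = η / 8 * (Nq * (c0 / x ^ D0)) := by ring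
          have e : l * (κ * (w + Y)) = l * (κ * w) + l * (κ * Y) := by ring
          rw [e]
          linarith
        have u1 := pt1 Nq b t S U κ w Y l lw η hNp hbp hη0 hη1 r2 t1 p1 p2 hquot t3
        rw [← hl]
        exact pt2 Nq b t (ℓ ^ m * P1 a Nq) U l η hl0 u1 r1 t2
      -- the range of N
      have hNbig : 2 * ℓ ^ ((m : ℝ) + δ1 / 2) ≤ N := by
        refine le_trans ?_ hN1
        calc 2 * ℓ ^ ((m : ℝ) + δ1 / 2) ≤ ℓ ^ (δ1 / 2) * ℓ ^ ((m : ℝ) + δ1 / 2) := mul_le_mul_of_nonneg_right g7 (by positivity)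
          _ = ℓ ^ (δ1 / 2 + ((m : ℝ) + δ1 / 2)) := by rw [← Real.rpow_add hℓ0]
          _ ≤ ℓ ^ ((m : ℝ) + δ) := Real.rpow_le_rpow_of_exponent_le hℓ1 (by linarith)
      have hNℓ : 2 * ℓ ≤ N := by
        have hℓm : ℓ ≤ ℓ ^ ((m : ℝ) + δ1 / 2) := by
          calc ℓ = ℓ ^ (1 : ℝ) := (Real.rpow_one ℓ).symm
            _ ≤ ℓ ^ ((m : ℝ) + δ1 / 2) := Real.rpow_le_rpow_of_exponent_le hℓ1 (by linarith)
        linarith
      have hNr : (0 : ℝ) < N := by linarith
      obtain ⟨lN, hlN⟩ : ∃ lN, lN = Real.log N := ⟨_, rfl⟩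
      have hxN : x ≤ lN := by
        rw [hx, hlN]
        exact Real.log_le_log hℓ0 (by linarith)
      have hlN0 : 0 < lN := by linarith
      -- grid
      have hgrid : ∀ s q : ℕ, q < 2 * M0 + 2 → (N : ℝ) / 2 ≤ (q * 2 ^ s : ℕ) → ((q * 2 ^ s : ℕ) : ℝ) ≤ 2 * N →
          |ℓ ^ m * P1 a (q * 2 ^ s) - ((q * 2 ^ s : ℕ) : ℝ) * (b / lN)| ≤ θ * (((q * 2 ^ s : ℕ) : ℝ) * (b / lN)) := by
        intro s q hq h1 h2
        have r1 := hpoint s q hq (by linarith) (by
          rw [pow_succ]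
          have h3 : ℓ ^ A * 2 ≤ ℓ ^ A * ℓ := mul_le_mul_of_nonneg_left (by linarith) (by positivity)
          linarith)
        obtain ⟨Nq, hNq⟩ : ∃ Nq : ℕ, Nq = q * 2 ^ s := ⟨_, rfl⟩
        rw [← hNq] at r1 h1 h2 ⊢
        have hNp : (0 : ℝ) < Nq := by linarith
        have hxq : x ≤ Real.log Nq := by
          rw [hx]
          exact Real.log_le_log hℓ0 (by linarith)
        have hlq0 : 0 < Real.log Nq := by linarith
        have hdiff : |lN - Real.log Nq| ≤ η * Real.log Nq := by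
          have h3 : (1 : ℝ) ≤ η * Real.log Nq := by
            have h4 : 1 / η ≤ Real.log Nq := g17.trans hxq
            rw [div_le_iff₀ hη0] at h4
            linarith
          have h4 : Real.log 2 < 1 := by
            have := Real.log_two_lt_d9
            linarith
          have h5 : lN ≤ Real.log Nq + Real.log 2 := by
            rw [hlN, ← Real.log_mul hNp.ne' (by norm_num)]
            exact Real.log_le_log hNr (by linarith)
          have h6 : Real.log Nq ≤ lN + Real.log 2 := by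
            rw [hlN, ← Real.log_mul hNr.ne' (by norm_num)]
            exact Real.log_le_log hNp (by linarith)
          rw [abs_le]
          constructor <;> linarith
        have r3 := pt3 Nq b (ℓ ^ m * P1 a Nq) (Real.log Nq) lN η hNp hbp hlq0 hlN0 hη0 hη1 hdiff r1
        rw [hηθ] at r3
        exact r3
      have hsand := sandwich (fun n => ℓ ^ m * P1 a n) (fun v w h => mul_le_mul_of_nonneg_left (P1_mono a h) (by positivity)) (b / lN) θ ((N : ℝ) / 2) (2 * N)
        (by positivity) hθ0 (by linarith) M0 hM0r hgrid N (by linarith) le_rfl (by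
          have : (M0 : ℝ) ≤ N := by linarith
          exact_mod_cast this)
      -- the density
      have hlg : ∀ i, ∀ n ∈ Icc 1 N, |ℓ * lg (Fv (a i) (n : ℤ)) - 1| ≤ η2 := by
        intro i n hn
        rw [mem_Icc] at hn
        have hnN : (n : ℝ) ≤ ℓ ^ (A + 1) := by
          have h1 : (n : ℝ) ≤ N := by exact_mod_cast hn.2
          have h2 : ℓ ^ A ≤ ℓ ^ (A + 1) := pow_le_pow_right₀ hℓ1 (by omega)
          linarith
        have h1 := m1.2 i n (by
          rw [mem_Ioc]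
          exact ⟨by omega, Nat.le_floor hnN⟩)
        rw [value_eq] at h1
        have h2 := sum_bd (dd i) D (A + 1) H n (hdD i) ℓ hℓ1 g4 (a i) ((mem_bx H a).1 ha i) hnN
        apply lg_close H (by omega) ℓ x C2 η2 hℓ hx (A + 1 + 2) A' (by linarith) (by rw [hC2]; linarith [(Nat.cast_nonneg A' : (0 : ℝ) ≤ A')])
          (by rw [hC2]; linarith [(Nat.cast_nonneg (A + 1 + 2) : (0 : ℝ) ≤ ((A + 1 + 2 : ℕ) : ℝ))]) _ (by linarith) _ h1 (by rw [hA']; exact h2) _
        · rw [mul_div_assoc', div_le_iff₀ hℓ0]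
          have e : 2 * C2 / η2 * x = 2 * (C2 * x) / η2 := by ring
          rw [e, div_le_iff₀ hη20] at g10
          linarith
        · exact g11
      have hprod : ∀ n ∈ Icc 2 N, |∏ i, (ℓ * lg (Fv (a i) (n : ℤ))) - 1| ≤ η := by
        intro n hn
        have hn1 : n ∈ Icc 1 N := by
          rw [mem_Icc] at hn ⊢
          omega
        have h1 := prod_diff (univ : Finset (Fin m)) (fun i => ℓ * lg (Fv (a i) (n : ℤ))) (fun _ => 1) 2 η2 (by norm_num) hη20.le (fun i _ => by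
          have h2 := abs_le.1 (hlg i n hn1)
          rw [abs_le]
          constructor <;> linarith) (fun i _ => by norm_num) (fun i _ => hlg i n hn1)
        rw [card_univ, Fintype.card_fin, prod_const_one, hη2m] at h1
        exact h1
      have hliN := hli N (by
        have h1 : (Kl : ℝ) ≤ N := by linarith
        exact_mod_cast h1)
      have hL := li_weights N η η hη0.le hη1 (by rw [← hlN]; positivity) hliN (fun n => ∏ i, (ℓ * lg (Fv (a i) (n : ℤ)))) hprod
      have hLe : ∑ n ∈ Icc 2 N, (∏ i, (ℓ * lg (Fv (a i) (n : ℤ)))) / Real.log n = ℓ ^ m * L1 a N := by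
        unfold L1 Wf
        rw [mul_sum]
        apply sum_congr rfl
        intro n _
        rw [prod_mul_distrib, prod_const, card_univ, Fintype.card_fin]
        ring
      rw [hLe, ← hlN] at hL
      -- the end
      obtain ⟨p, hp⟩ : ∃ p, p = ℓ ^ m * P1 a N := ⟨_, rfl⟩
      obtain ⟨l, hl⟩ : ∃ l, l = ℓ ^ m * L1 a N := ⟨_, rfl⟩
      obtain ⟨R, hR⟩ : ∃ R, R = (N : ℝ) / lN := ⟨_, rfl⟩
      have hR0 : 0 < R := by rw [hR]; positivity
      have hsand' : |p - R * b| ≤ 3 * θ * (R * b) := by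
        have e : (N : ℝ) * (b / lN) = R * b := by rw [hR]; ring
        rw [e] at hsand
        rw [hp]
        exact hsand
      have hL' : |l - R| ≤ θ * R := by
        rw [← hl, ← hR] at hL
        refine hL.trans (mul_le_mul_of_nonneg_right ?_ hR0.le)
        linarith
      have hℓm0 : 0 < ℓ ^ m := by positivity
      have key : |p - c * l| ≤ ε1 * (c * l) := by
        have hε1η : ε1 = 16 * θ := by rw [hθ]; ring
        rw [hε1η]
        exact fin_key p l b c R θ hR0 hcp hθ0 hθ1 hsand' hL' q4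
      have key2 : ℓ ^ m * |P1 a N - c * L1 a N| ≤ ℓ ^ m * (ε * (c * L1 a N)) := by
        have e : p - c * l = ℓ ^ m * (P1 a N - c * L1 a N) := by rw [hp, hl]; ring
        rw [e, abs_mul, abs_of_pos hℓm0] at key
        refine key.trans ?_
        have hL0 : 0 ≤ c * l := by
          have h1 : 0 ≤ ε1 * (c * l) := (mul_nonneg hℓm0.le (abs_nonneg _)).trans key
          exact (mul_nonneg_iff_of_pos_left hε10).1 h1
        calc ε1 * (c * l) ≤ ε * (c * l) := mul_le_mul_of_nonneg_right hε12 hL0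
          _ = ℓ ^ m * (ε * (c * L1 a N)) := by rw [hl]; ring
      have hbig : ℓ ^ (δ1 / 2) ≤ c * L1 a N := by
        refine main_big m D0 A ℓ x c0 c b N lN l (L1 a N) δ1 hℓ1 hx0 hc0 hblow hcb ?_ hlN0 ?_ hl ?_ g19
        · exact (Real.rpow_le_rpow_of_exponent_le hℓ1 (by linarith)).trans hN1
        · have h1 := Real.log_le_log hNr hN2
          rw [Real.log_pow, ← hx, ← hlN] at h1
          have h2 : (A : ℝ) * x ≤ (A + 1) * x := mul_le_mul_of_nonneg_right (by linarith) hx0.le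
          linarith
        · rw [← hR]
          have h1 := (abs_le.1 hL').1
          have h2 : θ * R ≤ 1 / 2 * R := mul_le_mul_of_nonneg_right (by linarith) hR0.le
          linarith
      exact ⟨hbig, le_of_mul_le_mul_left key2 hℓm0⟩
  obtain ⟨H0, hH0⟩ := eventually_atTop.1 hev
  exact ⟨H0, hH0⟩

end Pool.Agent.H12L.Low
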