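import Pool.Agent.H12L.Join
import Pool.Agent.H12L.Few
import Pool.Agent.H12L.LPR
import Pool.Agent.H12L.LSW
import Pool.Agent.H12L.LVA
import Pool.Agent.H12L.LSM
import Pool.Agent.H12L.LPY
import Pool.Agent.H13L.PYQ
import Pool.Agent.H11P.SWc

/-! Project LS: composition (helper12). -/

set_option autoImplicit false

namespace Pool.Agent.H12L.Main

open Finset
open Pool.Agent.H373R2.T7 (lamz pz Vz mem_pz)
open Pool.Agent.H13K
open Pool.Agent.H12P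

theorem lowt : Low.S_LOWT' :=
  Low.t VZ.t (LPR.t Pool.Agent.H11P.swU)
    (LSM.t VZ.t Pool.Agent.H13K.Main.fl CRTP.t AVP.t (LSW.t SWT.t) (LVA.t VZ.t (LSW.t SWT.t)) Pool.Agent.H12P.Main.lowcp)
    (LPY.t Pool.Agent.H13K.Main.py (LOWC.t VZ.t)) Pool.Agent.H12P.Main.lowcp

theorem pyq : Pool.Agent.H13L.S_PYQ := Pool.Agent.H13L.PYQ.t Pool.Agent.H13K.Main.py (LOWC.t VZ.t) Pool.Agent.H12P.Main.lowcp

/-- change of the constant -/
lemma chg (P l c c' c0 e ε : ℝ) (he : 0 < e) (he1 : e ≤ 1 / 16) (heε : 16 * e ≤ ε) (hl : 0 ≤ l) (hc0 : 0 < c0) (hc : 0 < c)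
    (h1 : |c - c0| ≤ e * c0) (h2 : |c' - c0| ≤ e * c0) (h : |P - c * l| ≤ e * (c * l)) :
    0 < c' ∧ c * l / 2 ≤ c' * l ∧ |P - c' * l| ≤ ε * (c' * l) := by
  rw [abs_le] at h1 h2 h
  have a0 : e * c0 ≤ 1 / 16 * c0 := mul_le_mul_of_nonneg_right he1 hc0.le
  have hc' : 0 < c' := by linarith
  have hcc : c ≤ 2 * c' := by linarith
  have h0c : c0 ≤ 2 * c' := by linarith
  have hd : |c - c'| ≤ 4 * e * c' := by
    have h3 : e * c0 ≤ e * (2 * c') := mul_le_mul_of_nonneg_left h0c he.le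
    rw [abs_le]
    constructor <;> linarith
  rw [abs_le] at hd
  have hcl : c * l ≤ 2 * (c' * l) := by
    have := mul_le_mul_of_nonneg_right hcc hl
    linarith
  have hcl0 : 0 ≤ c' * l := mul_nonneg hc'.le hl
  have g1 := mul_le_mul_of_nonneg_right hd.1 hl
  have g2 := mul_le_mul_of_nonneg_right hd.2 hl
  have g3 : e * (c * l) ≤ e * (2 * (c' * l)) := mul_le_mul_of_nonneg_left hcl he.le
  have g4 : 16 * e * (c' * l) ≤ ε * (c' * l) := mul_le_mul_of_nonneg_right heε hcl0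
  have g5 : 0 ≤ e * (c' * l) := mul_nonneg he.le hcl0
  refine ⟨hc', by linarith, ?_⟩
  rw [abs_le]
  have e1 : (c - c') * l = c * l - c' * l := by ring
  have e2 : -(4 * e * c') * l = -(4 * (e * (c' * l))) := by ring
  have e3 : 4 * e * c' * l = 4 * (e * (c' * l)) := by ring
  rw [e1, e2] at g1
  rw [e1, e3] at g2
  constructor
  · linarith
  · linarith

theorem main (m : ℕ) (dd : Fin m → ℕ) (hm : 1 ≤ m) (hdd : ∀ i, 1 ≤ dd i) (δ ε : ℝ) (hδ : 0 < δ) (hδ1 : δ ≤ 1) (hε : 0 < ε) :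
    ∃ B z0 H0 : ℕ, ∀ H : ℕ, H0 ≤ H → ∃ Bad ⊆ bx dd H,
      (Bad.card : ℝ) ≤ ε * ((bx dd H).card : ℝ) ∧
      ∀ a ∈ bx dd H, a ∉ Bad → (∀ i, a i (Fin.last (dd i)) ≠ 0) ∧ ((∀ p : ℕ, p.Prime → om1 p a ≠ p - 1) →
      ∀ z : ℕ, z0 ≤ z → z ^ 4 ≤ H → 0 < C1 z a ∧
      ∀ K : ℕ, Real.log H ^ ((m : ℝ) + δ) ≤ K → (K : ℝ) * Real.log H ^ B ≤ H →
        Real.log H ^ (δ / 3) ≤ C1 z a * L1 a K ∧
        |P1 a K - C1 z a * L1 a K| ≤ ε * (C1 z a * L1 a K)) := by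
  classical
  obtain ⟨e, he⟩ : ∃ e : ℝ, e = min ε 1 / 16 := ⟨_, rfl⟩
  have hmin0 : 0 < min ε 1 := lt_min hε one_pos
  have hep : 0 < e := by rw [he]; positivity
  have he16 : 16 * e ≤ ε := by
    have := min_le_left ε 1
    rw [he]; linarith
  have he1 : e ≤ 1 / 16 := by
    have := min_le_right ε 1
    rw [he]; linarith
  obtain ⟨B, H1, hj⟩ := Join.join lowt m dd hm hdd δ e hδ hep
  obtain ⟨z0, H2, hz03, hq⟩ := pyq m dd hdd e hep
  have hlog : Filter.Tendsto (fun H : ℕ => Real.log H) Filter.atTop Filter.atTop :=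
    Real.tendsto_log_atTop.comp tendsto_natCast_atTop_atTop
  have hlil : Filter.Tendsto (fun H : ℕ => Real.log H ^ 8 / (H : ℝ)) Filter.atTop (nhds 0) := by
    have h1 : (fun x : ℝ => Real.log x ^ 8) =o[Filter.atTop] fun x : ℝ => x := by
      have := isLittleO_log_rpow_rpow_atTop (s := 1) (8 : ℕ) one_pos
      refine this.congr (fun x => ?_) (fun x => Real.rpow_one x)
      exact Real.rpow_natCast _ _
    exact h1.tendsto_div_nhds_zero.comp tendsto_natCast_atTop_atTop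
  have hpw : Filter.Tendsto (fun H : ℕ => Real.log H ^ (δ / 6)) Filter.atTop Filter.atTop :=
    (tendsto_rpow_atTop (by positivity)).comp hlog
  have hev := ((hlil.eventually (ge_mem_nhds (show (0 : ℝ) < 1 by norm_num))).and
    (hlog.eventually_ge_atTop (10 + (z0 : ℝ)))).and (hpw.eventually_ge_atTop 2)
  obtain ⟨H3, hH3⟩ := Filter.eventually_atTop.1 hev
  refine ⟨B, z0, max (max H1 H2) (max H3 2), fun H hH => ?_⟩
  obtain ⟨⟨hHl, hL10⟩, hL2⟩ := hH3 H (((le_max_left _ _).trans (le_max_right _ _)).trans hH)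
  obtain ⟨Bad, hB1, hB2, hB3⟩ := hj H (((le_max_left _ _).trans (le_max_left _ _)).trans hH)
  obtain ⟨Bad', hB1', hB2', hB3'⟩ := hq H (((le_max_right _ _).trans (le_max_left _ _)).trans hH)
  have hH2' : 2 ≤ H := ((le_max_right _ _).trans (le_max_right _ _)).trans hH
  have hHr : (2 : ℝ) ≤ H := by exact_mod_cast hH2'
  rw [div_le_one (by linarith)] at hHl
  obtain ⟨L, hLd⟩ : ∃ L, L = Real.log (H : ℝ) := ⟨_, rfl⟩
  rw [← hLd] at hHl hL10 hL2 hB3 ⊢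
  have hz0r : (0 : ℝ) ≤ z0 := Nat.cast_nonneg _
  have hL1 : 1 ≤ L := by linarith
  have hL0 : 0 < L := by linarith
  refine ⟨Bad ∪ Bad', union_subset hB1 hB1', ?_, ?_⟩
  · have h1 : (((Bad ∪ Bad').card : ℕ) : ℝ) ≤ Bad.card + Bad'.card := by exact_mod_cast card_union_le _ _
    have h3 : (e + e) * ((bx dd H).card : ℝ) ≤ ε * (bx dd H).card := mul_le_mul_of_nonneg_right (by linarith) (Nat.cast_nonneg _)
    have h4 : (e + e) * ((bx dd H).card : ℝ) = e * (bx dd H).card + e * (bx dd H).card := by ring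
    linarith
  intro a ha hab
  rw [mem_union, not_or] at hab
  obtain ⟨hab1, hab2⟩ := hab
  obtain ⟨hlead, hw⟩ := hB3 a ha hab1
  refine ⟨hlead, fun hadm z hz hz4 => ?_⟩
  obtain ⟨zs, hzs⟩ : ∃ zs, zs = ⌈L⌉₊ := ⟨_, rfl⟩
  have hzs1 : L ≤ zs := by rw [hzs]; exact Nat.le_ceil _
  have hzs2 : (zs : ℝ) ≤ L ^ 2 := by
    have h1 := Nat.ceil_lt_add_one hL0.le
    rw [← hzs] at h1
    nlinarith
  have hzs4 : zs ^ 4 ≤ H := by
    have h1 : (zs : ℝ) ^ 4 ≤ H := by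
      calc (zs : ℝ) ^ 4 ≤ (L ^ 2) ^ 4 := pow_le_pow_left₀ (Nat.cast_nonneg _) hzs2 4
        _ = L ^ 8 := by ring
        _ ≤ H := hHl
    exact_mod_cast h1
  have hzs0 : z0 ≤ zs := by
    have : (z0 : ℝ) ≤ zs := by linarith
    exact_mod_cast this
  obtain ⟨hcs, hK⟩ := hw hadm zs hzs1 hzs4
  have q1 := hB3' a ha hab2 hadm z hz hz4
  have q2 := hB3' a ha hab2 hadm zs hzs0 hzs4
  obtain ⟨c0, hc0d⟩ : ∃ c0, c0 = C1 z0 a := ⟨_, rfl⟩
  obtain ⟨c, hcd⟩ : ∃ c, c = C1 zs a := ⟨_, rfl⟩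
  obtain ⟨c', hcd'⟩ : ∃ c', c' = C1 z a := ⟨_, rfl⟩
  rw [← hc0d, ← hcd'] at q1
  rw [← hc0d, ← hcd] at q2
  rw [← hcd] at hcs hK
  rw [← hcd']
  have hc0p : 0 < c0 := by
    by_contra hcon
    push Not at hcon
    have h1 := (abs_le.1 q2).2
    have h2 : e * c0 ≤ 0 := mul_nonpos_of_nonneg_of_nonpos hep.le hcon
    linarith
  refine ⟨(chg 0 0 c c' c0 e ε hep he1 he16 le_rfl hc0p hcs q2 q1 (by simp)).1, fun K hK1 hK2 => ?_⟩
  obtain ⟨f1, f2⟩ := hK K hK1 hK2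
  obtain ⟨-, f3, f4⟩ := chg (P1 a K) (L1 a K) c c' c0 e ε hep he1 he16 (Fin.L1_nonneg a K) hc0p hcs q2 q1 f2
  refine ⟨?_, f4⟩
  refine le_trans ?_ f3
  rw [min_eq_left hδ1] at f1
  have e1 : L ^ (δ / 2) = L ^ (δ / 3) * L ^ (δ / 6) := by
    rw [← Real.rpow_add hL0]
    congr 1
    ring
  rw [e1] at f1
  have h3 : L ^ (δ / 3) * 2 ≤ L ^ (δ / 3) * L ^ (δ / 6) := mul_le_mul_of_nonneg_left hL2 (by positivity)
  linarith

end Pool.Agent.H12L.Main
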