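import Pool.Agent.H11B.Low
import Pool.Agent.H12P.Stm

/-!
# Project LS (helper12): low scales at PRIME arguments, `(log H)^(m+δ) ≤ N ≤ (log H)^A`

Stub `X`: file `Pool/Agent/H12L/X.lean` (`import Pool.Agent.H12L.Stm`), theorem `Pool.Agent.H12L.X.t` of the type given in the
table `lsstubs` (an implication between the statements below). Everything is an ADAPTATION of a landed file; import it and use its lemmas.
Notation: `L = log H`.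
-/

set_option autoImplicit false

namespace Pool.Agent.H12L

open Finset Filter
open Pool.Agent.H373R2.T7 (lamz pz Vz)
open Pool.Agent.H13K (Fv bx sf om Cz lg Wf Pf Lf pr Ym S_VZ S_FL S_PY S_LOWC)
open Pool.Agent.H12P (th C1 Y1 P1 L1 om1 S_SWT S_CRTP S_AVP S_LOWCP)
open Pool.Agent.H11P (SWU)
open Pool.Agent.H11P.Law (value)
open Pool.Agent.H11A (ab pts NS kS pri Yh)

/-- the primes up to `N` -/
def PN (N : ℕ) : Finset ℕ := (Ioc 0 N).filter Nat.Prime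

/-- the good arrays (`Pool.Agent.H11B.Good` with `PN N` in the place of `Ioc 0 N` in the first part) -/
def GoodP (k A M1 K : ℕ) (δ ℓ h : ℝ) (Y : ℕ) (P : Fin k → Polynomial ℤ) (b : Fin k → Fin (1 + 1) → ℤ) : Prop :=
  (∀ s q : ℕ, q < M1 → ℓ ^ ((k : ℝ) + δ) ≤ (q * 2 ^ s : ℕ) → ((q * 2 ^ s : ℕ) : ℝ) ≤ ℓ ^ A →
    |ℓ ^ k * pts P (PN (q * 2 ^ s)) b - kS (pri 0 Y) ^ k * NS P (PN (q * 2 ^ s)) Y b| ≤
      ((q * 2 ^ s : ℕ) : ℝ) / Real.log ℓ ^ K) ∧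
  (∀ i, ∀ n ∈ Ioc 0 ⌊ℓ ^ A⌋₊, h / ℓ ^ (A + 2) ≤ |((value (P i) (b i) n : ℤ) : ℝ)|)

/-- **LPR** (type `SWU → S_LPR`): the prime points over the primes `≤ N`. Adapt three files of helper11: `H11A/St4.lean` (`mom_asym`:
let `D ⊆ Ioc J (J + L)` be an arbitrary subset in the place of `Ioc J (J + L)` in the sum; `D.card ≤ L`, the number of the elements of `D` in
a class is at most that of `Ioc J (J + L)`, the final bound is monotone in `D.card`), `H11A/Pr2.lean` (`prim`, same change; the error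
`L/(log log H)^K` stays with `L`, the length of the window) and `H11B/L1.lean` (`prim_grid`, with `D = PN (q 2^s) ⊆ Ioc 0 (q 2^s)`). -/
def S_LPR : Prop := ∀ (k A A' M1 K : ℕ), 1 ≤ k → ∀ (δ ε : ℝ), 0 < δ → δ ≤ 1 → 0 < ε →
  ∀ᶠ H : ℕ in atTop, ∀ P : Fin k → Polynomial ℤ,
    (∀ i, ∀ n : ℕ, (n : ℝ) ≤ Real.log H ^ A → |(((P i).eval (n : ℤ) : ℤ) : ℝ)| ≤ H * Real.log H ^ A') →
    ∃ Bad ⊆ ab k 1 H, (Bad.card : ℝ) ≤ ε * (ab k 1 H).card ∧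
      ∀ b ∈ ab k 1 H, b ∉ Bad → GoodP k A M1 K δ (Real.log H) H (Yh H) P b

/-- **LSW** (type `S_SWT → S_LSW`): Siegel-Walfisz for `th z`, `z` smaller than `N` by a power of `log N`. Proof: `S_SWT` with `E = 0`,
`D`, `A + 1` and `z = 1`, `H = max H0 3` fixed: `|∑ th 1 n - N/φ(e)| ≤ N/(log N)^(A+1)` for all `N ≥ N1`. And `0 ≤ th 1 n - th z n`, which is
`0` for `n > z` and `≤ log N` for `n ≤ z`: the sum is at most `z log N ≤ N/(log N)^(A+1)` for `Q = A + 2`. -/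
def S_LSW : Prop := ∀ D A : ℕ, ∃ Q N0 : ℕ, ∀ z N : ℕ, N0 ≤ N → (z : ℝ) * Real.log N ^ Q ≤ N →
  ∀ e : ℕ, 1 ≤ e → (e : ℝ) ≤ Real.log N ^ D → ∀ c : ℕ, c.Coprime e →
  |∑ n ∈ (Icc 1 N).filter (fun n => n ≡ c [MOD e]), th z n - (N : ℝ) / (Nat.totient e : ℝ)| ≤ N / Real.log N ^ A

/-- **LVA** (type `S_VZ → S_LSW → S_LVA`): adapt the theorem `t` at the end of `H12P/VARP.lean` (all the lemmas of that file are used as they are);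
`z ≤ N` from `z (log N)^Q ≤ N`. -/
def S_LVA : Prop := ∀ m A : ℕ, ∃ Q N0 : ℕ, ∀ z N : ℕ, N0 ≤ N → (z : ℝ) * Real.log N ^ Q ≤ N →
  ∑ n ∈ Icc 1 N, ∑ n' ∈ Icc 1 N, th z n * th z n' * (Ym m z ((n : ℤ) - n') - Y1 m z) ≤ (N : ℝ) ^ 2 / Real.log N ^ A

/-- **LSM** (type `S_VZ → S_FL → S_CRTP → S_AVP → S_LSW → S_LVA → S_LOWCP → S_LSM`): adapt the theorem `t` of `H12P/SMP.lean`
(`S_FL` with `E = 1`; LSW with `D = 0`, `e = 1`; the rest is the same). -/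
def S_LSM : Prop := ∀ (m : ℕ) (dd : Fin m → ℕ) (A : ℕ), (∀ i, 1 ≤ dd i) → ∃ Q H0 : ℕ, ∀ H : ℕ, H0 ≤ H →
  ∀ z : ℕ, 3 ≤ z → (z : ℝ) ≤ Real.log H → ∀ N : ℕ, Real.log H ≤ N → N ≤ H → (z : ℝ) * Real.log N ^ Q ≤ N →
  ∑ a ∈ bx dd H, (∑ n ∈ Icc 1 N, (th z n * sf z a (n : ℤ) - C1 z a)) ^ 2 ≤
    ((bx dd H).card : ℝ) * (N : ℝ) ^ 2 / Real.log N ^ A

/-- **LPY** (type `S_PY → S_LOWC → S_LPY`): adapt `H12P/PYP.lean`. The hypothesis `(log H)^2 ≤ z` was used only in the lemma `few`; now: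
the number `s` of the primes `p > z` which divide `∏ a i 0` satisfies `s log z ≤ m log H ≤ 16 m z`, so the product of the factors
`1 + 2/z` is at most `exp (32 m/log z)`. -/
def S_LPY : Prop := ∀ (m : ℕ) (dd : Fin m → ℕ), (∀ i, 1 ≤ dd i) → ∀ ε : ℝ, 0 < ε → ∃ H0 : ℕ, ∀ H z : ℕ, H0 ≤ H →
  Real.log H ≤ 16 * z → z ≤ H → ∃ Bad ⊆ bx dd H, (Bad.card : ℝ) ≤ ε * (bx dd H).card ∧
  ∀ a ∈ bx dd H, a ∉ Bad → (∀ p ∈ pz z, om p a ≠ p) → ∀ Y : ℕ, z ≤ Y → Y ^ 4 ≤ H →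
    |C1 Y a - C1 z a| ≤ ε * C1 z a

/-- the conclusion for the low scales (helper12) -/
def S_LOWT : Prop := ∀ (m : ℕ) (dd : Fin m → ℕ), 1 ≤ m → (∀ i, 1 ≤ dd i) → ∀ (A : ℕ) (δ ε : ℝ), 0 < δ → 0 < ε →
    ∃ H0 : ℕ, ∀ H : ℕ, H0 ≤ H → ∃ Bad ⊆ bx dd H, (Bad.card : ℝ) ≤ ε * (bx dd H).card ∧
    ∀ a ∈ bx dd H, a ∉ Bad → (∀ p : ℕ, p.Prime → om1 p a ≠ p - 1) → ∀ z : ℕ, Real.log H ≤ z → z ^ 4 ≤ H → 0 < C1 z a ∧
      ∀ N : ℕ, Real.log H ^ ((m : ℝ) + δ) ≤ N → (N : ℝ) ≤ Real.log H ^ A →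
        |P1 a N - C1 z a * L1 a N| ≤ ε * (C1 z a * L1 a N)

end Pool.Agent.H12L
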